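import Mathlib

/-! Group H of Theorem G: the final linear programme. -/

set_option autoImplicit false

namespace Pool.Agent.H22.G

open Real

/-- the final linear programme, in logarithms -/
theorem alg_log (m N H q E A L R M t b a M1 : ℝ) (hm : 4 ≤ m) (hL : 0 ≤ L)
    (hE : t + b + 2 * a + m / 2 * R ≤ L + E) (hEA : E ≤ L + 2 * A + (m + 1) * R)
    (hMU : q + M ≤ L + t + 1 / 2 * R) (hHB : q + 3 * M ≤ L + 2 * t)
    (hLW : N + 3 * M1 ≤ L + q + 3 * (M + b) + (m - 1) / 2 * R)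
    (hL2 : N + 2 * H ≤ L + q + M + b + 2 * a + (m + 1) / 2 * R)
    (hRD : N + 2 * (m + 2) / m * H ≤
      L + 2 / m * M1 + 2 * (m + 2) / m * a + t + b + (m + 2) / 2 * R)
    (hM : M1 ≤ L + M) (ha : a ≤ L + A) :
    N + (2 + 8 / (3 * m)) * H ≤ 3 * L + 8 / (3 * m) * A + 4 / 3 * R + E := by
  have hm0 : (0 : ℝ) < m := by linarith
  obtain ⟨u, hu⟩ : ∃ u : ℝ, u = 1 / m := ⟨_, rfl⟩
  have hum : m * u = 1 := by rw [hu]; field_simp
  have hu0 : 0 < u := by rw [hu]; positivity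
  have hu4 : 4 * u ≤ 1 := by nlinarith
  have e1 : 2 * (m + 2) / m = 2 + 4 * u := by rw [hu]; field_simp; ring
  have e2 : 8 / (3 * m) = 8 / 3 * u := by rw [hu]; field_simp
  have e3 : 2 / m = 2 * u := by rw [hu]; ring
  rw [e1, e3] at hRD
  rw [e2]
  have k0 := mul_le_mul_of_nonneg_left hLW (show 0 ≤ u / 3 by positivity)
  have k1 := mul_le_mul_of_nonneg_left hL2 (show 0 ≤ (1 - 2 * u) / 6 by linarith)
  have k2 := mul_le_mul_of_nonneg_left hRD (show (0 : ℝ) ≤ 5 / 6 by norm_num)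
  have k3 := mul_le_mul_of_nonneg_left hM (show 0 ≤ 2 / 3 * u by positivity)
  have k4 := mul_le_mul_of_nonneg_left hHB (show 0 ≤ 2 / 3 * u by positivity)
  have k5 := mul_le_mul_of_nonneg_left hMU (show 0 ≤ (1 - 4 * u) / 6 by linarith)
  have k6 := mul_le_mul_of_nonneg_left hE (show 0 ≤ 1 + 2 / 3 * u by positivity)
  have k7 := mul_le_mul_of_nonneg_left hEA (show 0 ≤ 2 / 3 * u by positivity)
  have k8 := mul_le_mul_of_nonneg_left ha (show 0 ≤ 4 / 3 * u by positivity)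
  have k9 : 0 ≤ (1 - 4 * u) * L := mul_nonneg (by linarith) hL
  have eR : m * u * R = R := by rw [hum, one_mul]
  linarith [k0, k1, k2, k3, k4, k5, k6, k7, k8, k9]

/-- the average of three inequalities -/
theorem avg3 {x y : Fin 3 → ℝ} (h : ∀ i, x i ≤ y i) :
    (x 0 + x 1 + x 2) / 3 ≤ (y 0 + y 1 + y 2) / 3 := by
  linarith [h 0, h 1, h 2]

/-- the final linear programme -/
theorem alg (m : ℕ) (hm : 4 ≤ m) (N H q E A L R : ℝ) (M1 M t b a : Fin 3 → ℝ)
    (hN : 0 < N) (hH : 0 < H) (hq : 0 < q) (hE0 : 0 < E) (hA : 0 < A) (hL : 1 ≤ L) (hR : 1 ≤ R)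
    (hM1 : ∀ i, 0 < M1 i) (hM : ∀ i, 0 < M i) (ht : ∀ i, 0 < t i) (hb : ∀ i, 0 < b i)
    (ha : ∀ i, 0 < a i)
    (hE : ∀ i, t i * b i * a i ^ 2 * R ^ ((m : ℝ) / 2) ≤ L * E)
    (hEA : E ≤ L * A ^ 2 * R ^ ((m : ℝ) + 1))
    (hMU : ∀ i, q * M i ≤ L * t i * R ^ (1 / 2 : ℝ))
    (hHB : ∀ i j, i ≠ j → q * M i * M j ^ 2 ≤ L * t i * t j)
    (hLW : N * (M1 0 * M1 1 * M1 2) ≤
      L * q * ((M 0 * b 0) * (M 1 * b 1) * (M 2 * b 2)) * R ^ (((m : ℝ) - 1) / 2))
    (hL2 : ∀ i, N * H ^ 2 ≤ L * q * M i * b i * a i ^ 2 * R ^ (((m : ℝ) + 1) / 2))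
    (hRD : ∀ i, N * H ^ (2 * ((m : ℝ) + 2) / m) ≤
      L * M1 i ^ (2 / (m : ℝ)) * a i ^ (2 * ((m : ℝ) + 2) / m) * t i * b i *
        R ^ (((m : ℝ) + 2) / 2))
    (hMM : ∀ i, M1 i ≤ L * M i) (haA : ∀ i, a i ≤ L * A) :
    N * H ^ (2 + 8 / (3 * (m : ℝ))) ≤
      L ^ 3 * A ^ (8 / (3 * (m : ℝ))) * R ^ (4 / 3 : ℝ) * E := by
  have hL0 : 0 < L := by linarith
  have hR0 : 0 < R := by linarith
  have lE : ∀ i, log (t i) + log (b i) + 2 * log (a i) + (m : ℝ) / 2 * log R ≤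
      log L + log E := by
    intro i
    have h := log_le_log (mul_pos (mul_pos (mul_pos (ht i) (hb i)) (pow_pos (ha i) 2))
      (rpow_pos_of_pos hR0 _)) (hE i)
    rw [log_mul (mul_pos (mul_pos (ht i) (hb i)) (pow_pos (ha i) 2)).ne'
      (rpow_pos_of_pos hR0 _).ne', log_mul (mul_pos (ht i) (hb i)).ne' (pow_pos (ha i) 2).ne',
      log_mul (ht i).ne' (hb i).ne', log_pow, log_rpow hR0, log_mul hL0.ne' hE0.ne'] at h
    push_cast at h
    exact h
  have lEA : log E ≤ log L + 2 * log A + ((m : ℝ) + 1) * log R := by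
    have h := log_le_log hE0 hEA
    rw [log_mul (mul_pos hL0 (pow_pos hA 2)).ne' (rpow_pos_of_pos hR0 _).ne',
      log_mul hL0.ne' (pow_pos hA 2).ne', log_pow, log_rpow hR0] at h
    push_cast at h
    exact h
  have lMU : ∀ i, log q + log (M i) ≤ log L + log (t i) + 1 / 2 * log R := by
    intro i
    have h := log_le_log (mul_pos hq (hM i)) (hMU i)
    rw [log_mul (mul_pos hL0 (ht i)).ne' (rpow_pos_of_pos hR0 _).ne',
      log_mul hL0.ne' (ht i).ne', log_rpow hR0, log_mul hq.ne' (hM i).ne'] at h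
    exact h
  have lHB : ∀ i j, i ≠ j → log q + log (M i) + 2 * log (M j) ≤
      log L + log (t i) + log (t j) := by
    intro i j hij
    have h := log_le_log (mul_pos (mul_pos hq (hM i)) (pow_pos (hM j) 2)) (hHB i j hij)
    rw [log_mul (mul_pos hL0 (ht i)).ne' (ht j).ne', log_mul hL0.ne' (ht i).ne',
      log_mul (mul_pos hq (hM i)).ne' (pow_pos (hM j) 2).ne', log_mul hq.ne' (hM i).ne',
      log_pow] at h
    push_cast at h
    exact h
  have lLW : log N + (log (M1 0) + log (M1 1) + log (M1 2)) ≤ log L + log q +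
      ((log (M 0) + log (b 0)) + (log (M 1) + log (b 1)) + (log (M 2) + log (b 2))) +
      ((m : ℝ) - 1) / 2 * log R := by
    have h0 := mul_pos (hM 0) (hb 0)
    have h1 := mul_pos (hM 1) (hb 1)
    have h2 := mul_pos (hM 2) (hb 2)
    have h := log_le_log (mul_pos hN (mul_pos (mul_pos (hM1 0) (hM1 1)) (hM1 2))) hLW
    rw [log_mul hN.ne' (mul_pos (mul_pos (hM1 0) (hM1 1)) (hM1 2)).ne',
      log_mul (mul_pos (hM1 0) (hM1 1)).ne' (hM1 2).ne', log_mul (hM1 0).ne' (hM1 1).ne',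
      log_mul (mul_pos (mul_pos hL0 hq) (mul_pos (mul_pos h0 h1) h2)).ne'
        (rpow_pos_of_pos hR0 _).ne', log_mul (mul_pos hL0 hq).ne' (mul_pos (mul_pos h0 h1) h2).ne',
      log_mul hL0.ne' hq.ne', log_mul (mul_pos h0 h1).ne' h2.ne', log_mul h0.ne' h1.ne',
      log_mul (hM 0).ne' (hb 0).ne', log_mul (hM 1).ne' (hb 1).ne',
      log_mul (hM 2).ne' (hb 2).ne', log_rpow hR0] at h
    exact h
  have lL2 : ∀ i, log N + 2 * log H ≤ log L + log q + log (M i) + log (b i) + 2 * log (a i) +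
      ((m : ℝ) + 1) / 2 * log R := by
    intro i
    have h := log_le_log (mul_pos hN (pow_pos hH 2)) (hL2 i)
    rw [log_mul hN.ne' (pow_pos hH 2).ne', log_pow,
      log_mul (mul_pos (mul_pos (mul_pos (mul_pos hL0 hq) (hM i)) (hb i)) (pow_pos (ha i) 2)).ne'
        (rpow_pos_of_pos hR0 _).ne',
      log_mul (mul_pos (mul_pos (mul_pos hL0 hq) (hM i)) (hb i)).ne' (pow_pos (ha i) 2).ne',
      log_mul (mul_pos (mul_pos hL0 hq) (hM i)).ne' (hb i).ne',
      log_mul (mul_pos hL0 hq).ne' (hM i).ne', log_mul hL0.ne' hq.ne', log_pow,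
      log_rpow hR0] at h
    push_cast at h
    exact h
  have lRD : ∀ i, log N + 2 * ((m : ℝ) + 2) / m * log H ≤
      log L + 2 / (m : ℝ) * log (M1 i) + 2 * ((m : ℝ) + 2) / m * log (a i) + log (t i) +
      log (b i) + ((m : ℝ) + 2) / 2 * log R := by
    intro i
    have p1 := rpow_pos_of_pos (hM1 i) (2 / (m : ℝ))
    have p2 := rpow_pos_of_pos (ha i) (2 * ((m : ℝ) + 2) / m)
    have h := log_le_log (mul_pos hN (rpow_pos_of_pos hH _)) (hRD i)
    rw [log_mul hN.ne' (rpow_pos_of_pos hH _).ne', log_rpow hH,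
      log_mul (mul_pos (mul_pos (mul_pos (mul_pos hL0 p1) p2) (ht i)) (hb i)).ne'
        (rpow_pos_of_pos hR0 _).ne',
      log_mul (mul_pos (mul_pos (mul_pos hL0 p1) p2) (ht i)).ne' (hb i).ne',
      log_mul (mul_pos (mul_pos hL0 p1) p2).ne' (ht i).ne',
      log_mul (mul_pos hL0 p1).ne' p2.ne', log_mul hL0.ne' p1.ne', log_rpow (hM1 i),
      log_rpow (ha i), log_rpow hR0] at h
    exact h
  have lMM : ∀ i, log (M1 i) ≤ log L + log (M i) := by
    intro i
    have h := log_le_log (hM1 i) (hMM i)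
    rwa [log_mul hL0.ne' (hM i).ne'] at h
  have laA : ∀ i, log (a i) ≤ log L + log A := by
    intro i
    have h := log_le_log (ha i) (haA i)
    rwa [log_mul hL0.ne' hA.ne'] at h
  have hm' : (4 : ℝ) ≤ m := by exact_mod_cast hm
  have key := alg_log (m : ℝ) (log N) (log H) (log q) (log E) (log A) (log L) (log R)
    ((log (M 0) + log (M 1) + log (M 2)) / 3) ((log (t 0) + log (t 1) + log (t 2)) / 3)
    ((log (b 0) + log (b 1) + log (b 2)) / 3) ((log (a 0) + log (a 1) + log (a 2)) / 3)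
    ((log (M1 0) + log (M1 1) + log (M1 2)) / 3) hm' (log_nonneg hL)
    (by linarith [avg3 lE]) lEA (by linarith [avg3 lMU])
    (by linarith [lHB 0 1 (by decide), lHB 1 2 (by decide), lHB 2 0 (by decide)])
    (by linarith [lLW]) (by linarith [avg3 lL2])
    (by
      have h := avg3 lRD
      set c := 2 * ((m : ℝ) + 2) / m
      set c' := 2 / (m : ℝ)
      nlinarith [h])
    (by linarith [avg3 lMM]) (by linarith [avg3 laA])
  have hpos : 0 < L ^ 3 * A ^ (8 / (3 * (m : ℝ))) * R ^ (4 / 3 : ℝ) * E := by positivity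
  rw [← log_le_log_iff (mul_pos hN (rpow_pos_of_pos hH _)) hpos,
    log_mul hN.ne' (rpow_pos_of_pos hH _).ne', log_rpow hH,
    log_mul (by positivity) hE0.ne', log_mul (by positivity) (by positivity),
    log_mul (by positivity) (by positivity), log_pow, log_rpow hA, log_rpow hR0]
  push_cast
  exact key

end Pool.Agent.H22.G
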