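import Pool.Agent.H22.G.TargetsH

/-! Group H of Theorem G: geometry of tubes and planks (HG1, HG2, MU). -/

set_option autoImplicit false

namespace Pool.Agent.H22.G

open Pool.Agent.H83.G
open scoped RealInnerProductSpace

section

variable {m : ℕ}

noncomputable def L1 (η : E m) (z : Z m) : ℝ := z.1 + ⟪z.2.1, η⟫ + z.2.2 * ‖η‖ ^ 2

noncomputable def L2 (η : E m) (z : Z m) : E m := z.2.1 + (2 * z.2.2) • η

theorem L1_sub (η : E m) (z z' : Z m) : L1 η (z - z') = L1 η z - L1 η z' := by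
  unfold L1
  simp only [Prod.fst_sub, Prod.snd_sub, inner_sub_left]
  ring

theorem L2_sub (η : E m) (z z' : Z m) : L2 η (z - z') = L2 η z - L2 η z' := by
  unfold L2
  simp only [Prod.snd_sub, Prod.fst_sub, mul_sub, sub_smul]
  abel

theorem n1 (z : Z m) : |z.1| ≤ ‖z‖ := norm_fst_le z

theorem n2 (z : Z m) : ‖z.2.1‖ ≤ ‖z‖ := (norm_fst_le z.2).trans (norm_snd_le z)

theorem n3 (z : Z m) : |z.2.2| ≤ ‖z‖ := (norm_snd_le z.2).trans (norm_snd_le z)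

theorem L1_le {η : E m} (hη : ‖η‖ ≤ 3) (z : Z m) : |L1 η z| ≤ 13 * ‖z‖ := by
  have h1 := n1 z
  have h2 := n2 z
  have h3 := n3 z
  have h4 : |⟪z.2.1, η⟫| ≤ ‖z‖ * 3 :=
    (abs_real_inner_le_norm _ _).trans (mul_le_mul h2 hη (norm_nonneg _) (norm_nonneg _))
  have h5 : |z.2.2 * ‖η‖ ^ 2| ≤ ‖z‖ * 9 := by
    rw [abs_mul, abs_of_nonneg (sq_nonneg ‖η‖)]
    refine mul_le_mul h3 ?_ (sq_nonneg _) (norm_nonneg _)
    nlinarith [norm_nonneg η]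
  unfold L1
  calc |z.1 + ⟪z.2.1, η⟫ + z.2.2 * ‖η‖ ^ 2| ≤ |z.1| + |⟪z.2.1, η⟫| + |z.2.2 * ‖η‖ ^ 2| :=
        abs_add_three _ _ _
    _ ≤ _ := by linarith

theorem L2_le {η : E m} (hη : ‖η‖ ≤ 3) (z : Z m) : ‖L2 η z‖ ≤ 7 * ‖z‖ := by
  have h2 := n2 z
  have h3 := n3 z
  unfold L2
  refine (norm_add_le _ _).trans ?_
  rw [norm_smul, Real.norm_eq_abs, abs_mul, abs_two]
  nlinarith [norm_nonneg η, abs_nonneg z.2.2, mul_le_mul h3 hη (norm_nonneg η) (norm_nonneg z)]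

/-- powers of `R` -/
theorem rp {R : ℝ} (hR : 1 ≤ R) {a b : ℝ} (h : a ≤ b) : R ^ a ≤ R ^ b :=
  Real.rpow_le_rpow_of_exponent_le hR h

theorem sqrt_eq {R : ℝ} : Real.sqrt R = R ^ (1 / 2 : ℝ) := Real.sqrt_eq_rpow R

/-- the centre of a plank or a tube in the coordinates `L1`, `L2`, `w` -/
theorem near_bounds {R δ : ℝ} (hR : 1 ≤ R) {W : Pk m} {z : Z m} (h : near R δ W z) :
    |L1 (ctr (sR R) W.1) z - R ^ δ * W.2.1| ≤ R ^ (2 * δ) ∧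
    ‖L2 (ctr (sR R) W.1) z - R ^ (1 / 2 + δ) • WithLp.toLp 2 (fun i => (W.2.2.1 i : ℝ))‖ ≤
      R ^ (1 / 2 + 2 * δ) ∧
    |z.2.2 - R ^ (1 + δ) * W.2.2.2| ≤ R ^ (1 + 2 * δ) := by
  have hR0 : 0 < R := by linarith
  have hs : sR R = R ^ (-(1 / 2) : ℝ) := by
    unfold sR
    rw [sqrt_eq, Real.rpow_neg hR0.le]
  unfold near at h
  set η := ctr (sR R) W.1 with hη
  have e1 : (fc R δ W.1 z - zc W.2).1 = R ^ (-δ) * L1 η z - W.2.1 := rfl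
  have e2 : (fc R δ W.1 z - zc W.2).2.1 = R ^ (-δ) • (sR R • L2 η z) -
      WithLp.toLp 2 (fun i => (W.2.2.1 i : ℝ)) := rfl
  have e3 : (fc R δ W.1 z - zc W.2).2.2 = R ^ (-δ) * (sR R ^ 2 * z.2.2) - W.2.2.2 := rfl
  have h1 := (n1 _).trans h
  have h2 := (n2 _).trans h
  have h3 := (n3 _).trans h
  rw [e1] at h1
  rw [e2] at h2
  rw [e3] at h3
  refine ⟨?_, ?_, ?_⟩
  · have e : L1 η z - R ^ δ * W.2.1 = R ^ δ * (R ^ (-δ) * L1 η z - W.2.1) := by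
      have : R ^ δ * R ^ (-δ) = 1 := by rw [← Real.rpow_add hR0]; simp
      rw [mul_sub, ← mul_assoc, this, one_mul]
    rw [e, abs_mul, abs_of_pos (Real.rpow_pos_of_pos hR0 _)]
    calc R ^ δ * |R ^ (-δ) * L1 η z - W.2.1| ≤ R ^ δ * R ^ δ :=
          mul_le_mul_of_nonneg_left h1 (Real.rpow_nonneg hR0.le _)
      _ = R ^ (2 * δ) := by rw [← Real.rpow_add hR0]; ring_nf
  · have e : L2 η z - R ^ (1 / 2 + δ) • WithLp.toLp 2 (fun i => (W.2.2.1 i : ℝ)) =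
        R ^ (1 / 2 + δ) • (R ^ (-δ) • (sR R • L2 η z) -
          WithLp.toLp 2 (fun i => (W.2.2.1 i : ℝ))) := by
      have : R ^ (1 / 2 + δ) * (R ^ (-δ) * R ^ (-(1 / 2) : ℝ)) = 1 := by
        rw [← Real.rpow_add hR0, ← Real.rpow_add hR0]
        have : 1 / 2 + δ + (-δ + -(1 / 2)) = 0 := by ring
        rw [this, Real.rpow_zero]
      rw [hs, smul_sub, smul_smul, smul_smul, mul_assoc, this, one_smul]
    rw [e, norm_smul, Real.norm_eq_abs, abs_of_pos (Real.rpow_pos_of_pos hR0 _)]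
    calc R ^ (1 / 2 + δ) * _ ≤ R ^ (1 / 2 + δ) * R ^ δ :=
          mul_le_mul_of_nonneg_left h2 (Real.rpow_nonneg hR0.le _)
      _ = R ^ (1 / 2 + 2 * δ) := by rw [← Real.rpow_add hR0]; ring_nf
  · have e : z.2.2 - R ^ (1 + δ) * W.2.2.2 =
        R ^ (1 + δ) * (R ^ (-δ) * (sR R ^ 2 * z.2.2) - W.2.2.2) := by
      have : R ^ (1 + δ) * (R ^ (-δ) * (R ^ (-(1 / 2) : ℝ)) ^ 2) = 1 := by
        rw [← Real.rpow_natCast, ← Real.rpow_mul hR0.le, ← Real.rpow_add hR0, ← Real.rpow_add hR0]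
        have : 1 + δ + (-δ + -(1 / 2) * ((2 : ℕ) : ℝ)) = 0 := by push_cast; ring
        rw [this, Real.rpow_zero]
      rw [hs]
      linear_combination (-z.2.2) * this
    rw [e, abs_mul, abs_of_pos (Real.rpow_pos_of_pos hR0 _)]
    calc R ^ (1 + δ) * _ ≤ R ^ (1 + δ) * R ^ δ :=
          mul_le_mul_of_nonneg_left h3 (Real.rpow_nonneg hR0.le _)
      _ = R ^ (1 + 2 * δ) := by rw [← Real.rpow_add hR0]; ring_nf

/-- the constant -/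
noncomputable def Fm (m : ℕ) : ℝ := 16 * ((m : ℝ) + 1)

theorem Fm_pos : 16 ≤ Fm m := by
  unfold Fm
  have : (0 : ℝ) ≤ m := Nat.cast_nonneg m
  linarith

/-- the corner of a cube incident to a tube -/
theorem Inc_bounds {R δ : ℝ} (hR : 1 ≤ R) (hδ : 0 ≤ δ) {T : Pk m} {q : Zi m}
    (hη : ‖ctr (sR R) T.1‖ ≤ 3) (h : Inc R δ T q) :
    |L1 (ctr (sR R) T.1) (co R q) - R ^ δ * (T.2.1 * ⌈Real.sqrt R⌉ : ℤ)| ≤
      Fm m * R ^ (1 / 2 + 2 * δ) ∧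
    ‖L2 (ctr (sR R) T.1) (co R q) - R ^ (1 / 2 + δ) • WithLp.toLp 2 (fun i => (T.2.2.1 i : ℝ))‖ ≤
      Fm m * R ^ (1 / 2 + 2 * δ) ∧
    |(co R q).2.2 - R ^ (1 + δ) * T.2.2.2| ≤ Fm m * R ^ (1 + 2 * δ) := by
  have hR0 : 0 < R := by linarith
  have hm0 : (0 : ℝ) ≤ m := Nat.cast_nonneg m
  obtain ⟨W, z, hW, hz, hn⟩ := h
  subst hW
  obtain ⟨b1, b2, b3⟩ := near_bounds hR hn
  have hz' : ‖co R q - z‖ ≤ ((m : ℝ) + 1) * R ^ (1 / 2 + δ) := by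
    rw [norm_sub_rev]
    exact hz
  have p0 : R ^ (1 / 2 + δ) ≤ R ^ (1 / 2 + 2 * δ) := rp hR (by linarith)
  have p1 : R ^ (2 * δ) ≤ R ^ (1 / 2 + 2 * δ) := rp hR (by linarith)
  have p2 : R ^ (1 / 2 + δ) ≤ R ^ (1 + 2 * δ) := rp hR (by linarith)
  have q0 : 0 < R ^ (1 / 2 + 2 * δ) := Real.rpow_pos_of_pos hR0 _
  have q1 : 0 < R ^ (1 + 2 * δ) := Real.rpow_pos_of_pos hR0 _
  have q2 : 0 < R ^ (1 / 2 + δ) := Real.rpow_pos_of_pos hR0 _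
  have htb1 : (tb R W).1 = W.1 := rfl
  rw [htb1] at hη ⊢
  set η := ctr (sR R) W.1 with hηd
  refine ⟨?_, ?_, ?_⟩
  · have h1 : |L1 η (co R q) - L1 η z| ≤ 13 * (((m : ℝ) + 1) * R ^ (1 / 2 + δ)) := by
      rw [← L1_sub]
      exact (L1_le hη _).trans (mul_le_mul_of_nonneg_left hz' (by norm_num))
    have h2 : |R ^ δ * (W.2.1 : ℝ) - R ^ δ * (((tb R W).2.1 * ⌈Real.sqrt R⌉ : ℤ) : ℝ)| ≤
        2 * R ^ (1 / 2 + δ) := by
      have hc1 : (1 : ℝ) ≤ Real.sqrt R := by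
        rw [Real.one_le_sqrt]
        exact hR
      have hc2 : 0 < ⌈Real.sqrt R⌉ := Int.ceil_pos.2 (by linarith)
      have h3 : (tb R W).2.1 = W.2.1 / ⌈Real.sqrt R⌉ := rfl
      have h4 := Int.emod_add_mul_ediv W.2.1 ⌈Real.sqrt R⌉
      have h5 := Int.emod_nonneg W.2.1 hc2.ne'
      have h6 := Int.emod_lt_of_pos W.2.1 hc2
      have h7 : W.2.1 - (tb R W).2.1 * ⌈Real.sqrt R⌉ = W.2.1 % ⌈Real.sqrt R⌉ := by
        rw [h3]
        linarith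
      have h8 : (W.2.1 : ℝ) - (((tb R W).2.1 * ⌈Real.sqrt R⌉ : ℤ) : ℝ) =
          ((W.2.1 % ⌈Real.sqrt R⌉ : ℤ) : ℝ) := by
        rw [← h7]
        push_cast
        ring
      have h9 : ((W.2.1 % ⌈Real.sqrt R⌉ : ℤ) : ℝ) ≤ 2 * Real.sqrt R := by
        have h10 : ((W.2.1 % ⌈Real.sqrt R⌉ : ℤ) : ℝ) ≤ (⌈Real.sqrt R⌉ : ℝ) := by
          exact_mod_cast h6.le
        have h11 := Int.ceil_lt_add_one (Real.sqrt R)
        linarith
      have h10 : (0 : ℝ) ≤ ((W.2.1 % ⌈Real.sqrt R⌉ : ℤ) : ℝ) := by exact_mod_cast h5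
      rw [← mul_sub, h8, abs_of_nonneg (mul_nonneg (Real.rpow_nonneg hR0.le _) h10)]
      calc R ^ δ * ((W.2.1 % ⌈Real.sqrt R⌉ : ℤ) : ℝ) ≤ R ^ δ * (2 * Real.sqrt R) :=
            mul_le_mul_of_nonneg_left h9 (Real.rpow_nonneg hR0.le _)
        _ = 2 * R ^ (1 / 2 + δ) := by
            rw [sqrt_eq, Real.rpow_add hR0]
            ring
    have h3 := abs_sub_le (L1 η (co R q)) (L1 η z)
      (R ^ δ * (((tb R W).2.1 * ⌈Real.sqrt R⌉ : ℤ) : ℝ))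
    have h4 := abs_sub_le (L1 η z) (R ^ δ * (W.2.1 : ℝ))
      (R ^ δ * (((tb R W).2.1 * ⌈Real.sqrt R⌉ : ℤ) : ℝ))
    unfold Fm
    nlinarith
  · have h1 : ‖L2 η (co R q) - L2 η z‖ ≤ 7 * (((m : ℝ) + 1) * R ^ (1 / 2 + δ)) := by
      rw [← L2_sub]
      exact (L2_le hη _).trans (mul_le_mul_of_nonneg_left hz' (by norm_num))
    have h2 : (tb R W).2.2.1 = W.2.2.1 := rfl
    rw [h2]
    have h3 := norm_sub_le_norm_sub_add_norm_sub (L2 η (co R q)) (L2 η z)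
      (R ^ (1 / 2 + δ) • WithLp.toLp 2 (fun i => (W.2.2.1 i : ℝ)))
    unfold Fm
    nlinarith
  · have h1 : |(co R q).2.2 - z.2.2| ≤ ((m : ℝ) + 1) * R ^ (1 / 2 + δ) := (n3 _).trans hz'
    have h2 : (tb R W).2.2.2 = W.2.2.2 := rfl
    rw [h2]
    have h3 := abs_sub_le (co R q).2.2 z.2.2 (R ^ (1 + δ) * (W.2.2.2 : ℝ))
    unfold Fm
    nlinarith

theorem hg1 {R δ : ℝ} (hR : 1 ≤ R) (hδ : 0 ≤ δ) {T : Pk m} {q q' : Zi m}
    (hη : ‖ctr (sR R) T.1‖ ≤ 3) (h : Inc R δ T q) (h' : Inc R δ T q') :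
    |L1 (ctr (sR R) T.1) (co R q - co R q')| ≤ 2 * Fm m * R ^ (1 / 2 + 2 * δ) ∧
    ‖L2 (ctr (sR R) T.1) (co R q - co R q')‖ ≤ 2 * Fm m * R ^ (1 / 2 + 2 * δ) := by
  obtain ⟨a1, a2, -⟩ := Inc_bounds hR hδ hη h
  obtain ⟨b1, b2, -⟩ := Inc_bounds hR hδ hη h'
  rw [L1_sub, L2_sub]
  constructor
  · have := abs_sub_le (L1 (ctr (sR R) T.1) (co R q)) (R ^ δ * (T.2.1 * ⌈Real.sqrt R⌉ : ℤ))
      (L1 (ctr (sR R) T.1) (co R q'))
    rw [abs_sub_comm] at b1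
    linarith
  · have := norm_sub_le_norm_sub_add_norm_sub (L2 (ctr (sR R) T.1) (co R q))
      (R ^ (1 / 2 + δ) • WithLp.toLp 2 (fun i => (T.2.2.1 i : ℝ)))
      (L2 (ctr (sR R) T.1) (co R q'))
    rw [norm_sub_rev] at b2
    linarith

theorem pf_HG1 : T_HG1 := by
  intro m
  refine ⟨2 * Fm m, by linarith [Fm_pos (m := m)], fun R δ T q q' hR hδ hη h h' => ?_⟩
  have h1 := hg1 hR hδ hη h h'
  have e1 : (Lo (ctr (sR R) T.1) 1 (co R q - co R q')).1 =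
      L1 (ctr (sR R) T.1) (co R q - co R q') := rfl
  have e2 : (Lo (ctr (sR R) T.1) 1 (co R q - co R q')).2.1 =
      L2 (ctr (sR R) T.1) (co R q - co R q') := one_smul _ _
  rw [e1, e2]
  exact h1

/-! ### Counting -/

theorem cnt_Z (S : Finset ℤ) (c ρ : ℝ) (hρ : 0 ≤ ρ) (h : ∀ l ∈ S, |(l : ℝ) - c| ≤ ρ) :
    (S.card : ℝ) ≤ 2 * ρ + 1 := by
  have h1 : S ⊆ Finset.Icc ⌈c - ρ⌉ ⌊c + ρ⌋ := by
    intro l hl
    have h2 := abs_le.1 (h l hl)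
    exact Finset.mem_Icc.2 ⟨Int.ceil_le.2 (by linarith [h2.1]), Int.le_floor.2 (by linarith [h2.2])⟩
  have h2 := Finset.card_le_card h1
  rw [Int.card_Icc] at h2
  have h3 : ((⌊c + ρ⌋ + 1 - ⌈c - ρ⌉).toNat : ℝ) ≤ 2 * ρ + 1 := by
    by_cases h4 : 0 ≤ ⌊c + ρ⌋ + 1 - ⌈c - ρ⌉
    · have h5 : ((⌊c + ρ⌋ + 1 - ⌈c - ρ⌉).toNat : ℝ) = ((⌊c + ρ⌋ + 1 - ⌈c - ρ⌉ : ℤ) : ℝ) := by
        exact_mod_cast congrArg (Int.cast (R := ℝ)) (Int.toNat_of_nonneg h4)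
      rw [h5]
      push_cast
      have h6 := Int.floor_le (c + ρ)
      have h7 := Int.le_ceil (c - ρ)
      linarith
    · rw [Int.toNat_of_nonpos (by omega)]
      simp only [Nat.cast_zero]
      linarith
  exact (by exact_mod_cast h2 : (S.card : ℝ) ≤ _).trans h3

/-- counting lattice points in boxes -/
theorem cnt_Zi (S : Finset (Zi m)) (c₁ ρ₁ c₃ ρ₃ : ℝ) (c₂ ρ₂ : Fin m → ℝ) (h1 : 0 ≤ ρ₁)
    (h2 : ∀ i, 0 ≤ ρ₂ i) (h3 : 0 ≤ ρ₃) (hS1 : ∀ l ∈ S, |(l.1 : ℝ) - c₁| ≤ ρ₁)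
    (hS2 : ∀ l ∈ S, ∀ i, |(l.2.1 i : ℝ) - c₂ i| ≤ ρ₂ i)
    (hS3 : ∀ l ∈ S, |(l.2.2 : ℝ) - c₃| ≤ ρ₃) :
    (S.card : ℝ) ≤ (2 * ρ₁ + 1) * ((∏ i, (2 * ρ₂ i + 1)) * (2 * ρ₃ + 1)) := by
  classical
  set A := S.image (fun l => l.1) with hA
  set B : Fin m → Finset ℤ := fun i => S.image (fun l => l.2.1 i) with hB
  set D := S.image (fun l => l.2.2) with hD
  have hsub : S ⊆ A ×ˢ (Fintype.piFinset B ×ˢ D) := by
    intro l hl
    refine Finset.mem_product.2 ⟨Finset.mem_image_of_mem _ hl, Finset.mem_product.2 ⟨?_, ?_⟩⟩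
    · rw [Fintype.mem_piFinset]
      intro i
      exact Finset.mem_image_of_mem (fun l => l.2.1 i) hl
    · exact Finset.mem_image_of_mem (fun l => l.2.2) hl
  have hcard := Finset.card_le_card hsub
  rw [Finset.card_product, Finset.card_product, Fintype.card_piFinset] at hcard
  have e1 : (A.card : ℝ) ≤ 2 * ρ₁ + 1 := cnt_Z A c₁ ρ₁ h1 (by
    intro l hl
    obtain ⟨l', hl', rfl⟩ := Finset.mem_image.1 hl
    exact hS1 l' hl')
  have e2 : ∀ i, ((B i).card : ℝ) ≤ 2 * ρ₂ i + 1 := fun i => cnt_Z (B i) (c₂ i) (ρ₂ i) (h2 i) (by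
    intro l hl
    obtain ⟨l', hl', rfl⟩ := Finset.mem_image.1 hl
    exact hS2 l' hl' i)
  have e3 : (D.card : ℝ) ≤ 2 * ρ₃ + 1 := cnt_Z D c₃ ρ₃ h3 (by
    intro l hl
    obtain ⟨l', hl', rfl⟩ := Finset.mem_image.1 hl
    exact hS3 l' hl')
  have e4 : (∏ i, ((B i).card : ℝ)) ≤ ∏ i, (2 * ρ₂ i + 1) :=
    Finset.prod_le_prod (fun i _ => Nat.cast_nonneg _) (fun i _ => e2 i)
  have e5 : (0 : ℝ) ≤ ∏ i, (2 * ρ₂ i + 1) := Finset.prod_nonneg fun i _ => by linarith [h2 i]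
  calc (S.card : ℝ) ≤ ((A.card * ((∏ i, (B i).card) * D.card) : ℕ) : ℝ) := by exact_mod_cast hcard
    _ = (A.card : ℝ) * ((∏ i, ((B i).card : ℝ)) * (D.card : ℝ)) := by push_cast; ring
    _ ≤ _ := by
      refine mul_le_mul e1 (mul_le_mul e4 e3 (Nat.cast_nonneg _) e5) ?_ (by linarith)
      exact mul_nonneg (Finset.prod_nonneg fun i _ => Nat.cast_nonneg _) (Nat.cast_nonneg _)

theorem coord_le (x : E m) (i : Fin m) : |x i| ≤ ‖x‖ := by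
  have := PiLp.norm_apply_le x i
  simpa [Real.norm_eq_abs] using this

/-- all radii equal -/
theorem cnt_Zi' (S : Finset (Zi m)) (c : Z m) (ρ : ℝ) (h0 : 1 ≤ ρ)
    (hS1 : ∀ l ∈ S, |(l.1 : ℝ) - c.1| ≤ ρ)
    (hS2 : ∀ l ∈ S, ‖WithLp.toLp 2 (fun i => (l.2.1 i : ℝ)) - c.2.1‖ ≤ ρ)
    (hS3 : ∀ l ∈ S, |(l.2.2 : ℝ) - c.2.2| ≤ ρ) :
    (S.card : ℝ) ≤ (3 * ρ) ^ (m + 2) := by
  have h := cnt_Zi S c.1 ρ c.2.2 ρ (fun i => c.2.1 i) (fun _ => ρ) (by linarith)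
    (fun _ => by linarith) (by linarith) hS1 (by
      intro l hl i
      have := (coord_le (WithLp.toLp 2 (fun i => (l.2.1 i : ℝ)) - c.2.1) i).trans (hS2 l hl)
      simpa using this) hS3
  rw [Finset.prod_const, Finset.card_univ, Fintype.card_fin] at h
  have h1 : 2 * ρ + 1 ≤ 3 * ρ := by linarith
  calc (S.card : ℝ) ≤ (2 * ρ + 1) * ((2 * ρ + 1) ^ m * (2 * ρ + 1)) := h
    _ = (2 * ρ + 1) ^ (m + 2) := by ring
    _ ≤ _ := pow_le_pow_left₀ (by linarith) h1 _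

theorem card_snd {S : Finset (Pk m)} {k : Fin m → ℤ} (h : ∀ W ∈ S, W.1 = k) :
    S.card = (S.image Prod.snd).card := by
  classical
  refine (Finset.card_image_of_injOn ?_).symm
  intro W hW W' hW' he
  exact Prod.ext ((h W hW).trans (h W' hW').symm) he

theorem hg2a {R δ : ℝ} (hR : 1 ≤ R) (hδ : 0 ≤ δ) (k : Fin m → ℤ) (z : Z m) (S : Finset (Pk m))
    (h : ∀ W ∈ S, W.1 = k ∧ near R δ W z) :
    (S.card : ℝ) ≤ 3 ^ (m + 2) * R ^ (((m : ℝ) + 2) * δ) := by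
  classical
  have hR0 : 0 < R := by linarith
  have h0 : 1 ≤ R ^ δ := Real.one_le_rpow hR hδ
  rw [card_snd (fun W hW => (h W hW).1)]
  have h1 := cnt_Zi' (S.image Prod.snd) (fc R δ k z) (R ^ δ) h0 (by
      intro l hl
      obtain ⟨W, hW, rfl⟩ := Finset.mem_image.1 hl
      obtain ⟨rfl, hn⟩ := h W hW
      have := (n1 _).trans hn
      rw [abs_sub_comm]
      exact this) (by
      intro l hl
      obtain ⟨W, hW, rfl⟩ := Finset.mem_image.1 hl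
      obtain ⟨rfl, hn⟩ := h W hW
      have := (n2 _).trans hn
      rw [norm_sub_rev]
      exact this) (by
      intro l hl
      obtain ⟨W, hW, rfl⟩ := Finset.mem_image.1 hl
      obtain ⟨rfl, hn⟩ := h W hW
      have := (n3 _).trans hn
      rw [abs_sub_comm]
      exact this)
  refine h1.trans (le_of_eq ?_)
  rw [mul_pow, ← Real.rpow_natCast (R ^ δ), ← Real.rpow_mul hR0.le]
  push_cast
  ring_nf

theorem hg2b {R δ : ℝ} (hR : 1 ≤ R) (hδ : 0 ≤ δ) (k : Fin m → ℤ) (q : Zi m) (TT : Finset (Pk m))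
    (hk : ‖ctr (sR R) k‖ ≤ 3) (h : ∀ T ∈ TT, T.1 = k ∧ Inc R δ T q) :
    (TT.card : ℝ) ≤ (3 * Fm m) ^ (m + 2) * R ^ (((m : ℝ) + 2) * δ) := by
  classical
  have hR0 : 0 < R := by linarith
  have h0 : 1 ≤ R ^ δ := Real.one_le_rpow hR hδ
  have hF := Fm_pos (m := m)
  set n : ℝ := (⌈Real.sqrt R⌉ : ℝ) with hn
  have hsq : (1 : ℝ) ≤ Real.sqrt R := by
    rw [Real.one_le_sqrt]
    exact hR
  have hnR : R ^ (1 / 2 : ℝ) ≤ n := by
    rw [← sqrt_eq]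
    exact Int.le_ceil _
  have hn0 : 0 < n := lt_of_lt_of_le (Real.rpow_pos_of_pos hR0 _) hnR
  have q0 : 0 < R ^ δ := Real.rpow_pos_of_pos hR0 _
  have q1 : 0 < R ^ (1 / 2 + δ) := Real.rpow_pos_of_pos hR0 _
  have q2 : 0 < R ^ (1 + δ) := Real.rpow_pos_of_pos hR0 _
  rw [card_snd (fun W hW => (h W hW).1)]
  have h1 := cnt_Zi' (TT.image Prod.snd)
    ((R ^ δ * n)⁻¹ * L1 (ctr (sR R) k) (co R q), (R ^ (1 / 2 + δ))⁻¹ • L2 (ctr (sR R) k) (co R q),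
      (R ^ (1 + δ))⁻¹ * (co R q).2.2) (Fm m * R ^ δ) (by nlinarith) (by
      intro l hl
      obtain ⟨T, hT, rfl⟩ := Finset.mem_image.1 hl
      obtain ⟨rfl, hi⟩ := h T hT
      obtain ⟨b, -, -⟩ := Inc_bounds hR hδ hk hi
      have e : (T.2.1 : ℝ) - (R ^ δ * n)⁻¹ * L1 (ctr (sR R) T.1) (co R q) =
          -((R ^ δ * n)⁻¹ * (L1 (ctr (sR R) T.1) (co R q) -
            R ^ δ * (T.2.1 * ⌈Real.sqrt R⌉ : ℤ))) := by
        push_cast
        rw [← hn]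
        field_simp
        ring
      show |(T.2.1 : ℝ) - (R ^ δ * n)⁻¹ * L1 (ctr (sR R) T.1) (co R q)| ≤ _
      rw [e, abs_neg, abs_mul, abs_of_pos (by positivity)]
      calc (R ^ δ * n)⁻¹ * _ ≤ (R ^ δ * R ^ (1 / 2 : ℝ))⁻¹ * (Fm m * R ^ (1 / 2 + 2 * δ)) := by
            refine mul_le_mul ?_ b (abs_nonneg _) (by positivity)
            exact inv_anti₀ (by positivity) (mul_le_mul_of_nonneg_left hnR q0.le)
        _ = Fm m * R ^ δ := by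
            rw [← Real.rpow_add hR0, ← Real.rpow_neg hR0.le]
            have : R ^ (-(δ + 1 / 2)) * R ^ (1 / 2 + 2 * δ) = R ^ δ := by
              rw [← Real.rpow_add hR0]
              ring_nf
            linear_combination Fm m * this) (by
      intro l hl
      obtain ⟨T, hT, rfl⟩ := Finset.mem_image.1 hl
      obtain ⟨rfl, hi⟩ := h T hT
      obtain ⟨-, b, -⟩ := Inc_bounds hR hδ hk hi
      show ‖WithLp.toLp 2 (fun i => (T.2.2.1 i : ℝ)) -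
        (R ^ (1 / 2 + δ))⁻¹ • L2 (ctr (sR R) T.1) (co R q)‖ ≤ _
      have e : WithLp.toLp 2 (fun i => (T.2.2.1 i : ℝ)) -
          (R ^ (1 / 2 + δ))⁻¹ • L2 (ctr (sR R) T.1) (co R q) =
          -((R ^ (1 / 2 + δ))⁻¹ • (L2 (ctr (sR R) T.1) (co R q) -
            R ^ (1 / 2 + δ) • WithLp.toLp 2 (fun i => (T.2.2.1 i : ℝ)))) := by
        rw [smul_sub, smul_smul, inv_mul_cancel₀ q1.ne', one_smul]
        abel
      rw [e, norm_neg, norm_smul, norm_inv, Real.norm_eq_abs, abs_of_pos q1]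
      calc (R ^ (1 / 2 + δ))⁻¹ * _ ≤ (R ^ (1 / 2 + δ))⁻¹ * (Fm m * R ^ (1 / 2 + 2 * δ)) :=
            mul_le_mul_of_nonneg_left b (by positivity)
        _ = Fm m * R ^ δ := by
            rw [← Real.rpow_neg hR0.le]
            have : R ^ (-(1 / 2 + δ)) * R ^ (1 / 2 + 2 * δ) = R ^ δ := by
              rw [← Real.rpow_add hR0]
              ring_nf
            linear_combination Fm m * this) (by
      intro l hl
      obtain ⟨T, hT, rfl⟩ := Finset.mem_image.1 hl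
      obtain ⟨rfl, hi⟩ := h T hT
      obtain ⟨-, -, b⟩ := Inc_bounds hR hδ hk hi
      show |(T.2.2.2 : ℝ) - (R ^ (1 + δ))⁻¹ * (co R q).2.2| ≤ _
      have e : (T.2.2.2 : ℝ) - (R ^ (1 + δ))⁻¹ * (co R q).2.2 =
          -((R ^ (1 + δ))⁻¹ * ((co R q).2.2 - R ^ (1 + δ) * T.2.2.2)) := by
        field_simp
        ring
      rw [e, abs_neg, abs_mul, abs_of_pos (by positivity)]
      calc (R ^ (1 + δ))⁻¹ * _ ≤ (R ^ (1 + δ))⁻¹ * (Fm m * R ^ (1 + 2 * δ)) :=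
            mul_le_mul_of_nonneg_left b (by positivity)
        _ = Fm m * R ^ δ := by
            rw [← Real.rpow_neg hR0.le]
            have : R ^ (-(1 + δ)) * R ^ (1 + 2 * δ) = R ^ δ := by
              rw [← Real.rpow_add hR0]
              ring_nf
            linear_combination Fm m * this)
  refine h1.trans (le_of_eq ?_)
  rw [← mul_assoc, mul_pow, ← Real.rpow_natCast (R ^ δ), ← Real.rpow_mul hR0.le]
  push_cast
  ring_nf

theorem pf_HG2 : T_HG2 := by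
  intro m
  have hF := Fm_pos (m := m)
  have h3 : (3 : ℝ) ^ (m + 2) ≤ (3 * Fm m) ^ (m + 2) :=
    pow_le_pow_left₀ (by norm_num) (by linarith) _
  refine ⟨(3 * Fm m) ^ (m + 2), one_le_pow₀ (by linarith), fun R δ hR hδ => ⟨?_, ?_⟩⟩
  · intro k z S h
    refine (hg2a hR hδ k z S h).trans (mul_le_mul_of_nonneg_right h3 ?_)
    exact Real.rpow_nonneg (by linarith) _
  · intro k q TT hk h
    exact hg2b hR hδ k q TT hk h

end

end Pool.Agent.H22.G
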