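import Pool.Agent.H22.G.TargetsH
import Pool.Agent.H22.G.ALG

/-! Group H of Theorem G: the linear programme. -/

set_option autoImplicit false

namespace Pool.Agent.H22.G

theorem pf_ALG : T_ALG := by
  intro m hm N H q E A L R M1 M t b a hN hH hq hE0 hA hL hR hM1 hM ht hb ha hE hEA hMU hHB hLW
    hL2 hRD hMM haA
  exact alg m hm N H q E A L R M1 M t b a hN hH hq hE0 hA hL hR hM1 hM ht hb ha hE hEA hMU hHB hLW
    hL2 hRD hMM haA

end Pool.Agent.H22.G
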