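import Pool.Agent.H22.G.Geo

/-! Group H of Theorem G: adjacent balls on a tube. -/

set_option autoImplicit false

namespace Pool.Agent.H22.G

open Pool.Agent.H83.G
open scoped RealInnerProductSpace

section

variable {m : ℕ}

/-! ### Near balls -/

theorem floor_near {x y r c : ℝ} (hr : 0 < r) (h : |x - y| ≤ c * r) : |(⌊x / r⌋ : ℝ) - y / r| ≤ c + 1 := by
  have h1 : |x / r - y / r| ≤ c := by
    rw [← sub_div, abs_div, abs_of_pos hr, div_le_iff₀ hr]
    exact h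
  have h2 := Int.floor_le (x / r)
  have h3 := Int.lt_floor_add_one (x / r)
  have h4 := abs_le.1 h1
  rw [abs_le]
  constructor <;> linarith

/-- few balls on a tube are adjacent to a given one -/
theorem near_balls {R δ ε₀ : ℝ} (hR : 1 ≤ R) (hδ : 0 ≤ δ)
    (hde : 2 * δ + ε₀ ≤ 1 / 2) {T : Pk m} {q' : Zi m} (hη : ‖ctr (sR R) T.1‖ ≤ 3)
    (hi : Inc R δ T q') (S : Finset (Zi m))
    (h : ∀ B ∈ S, |B.2.2 - (bl R (R ^ (1 - ε₀)) q').2.2| ≤ 1 ∧
      ∃ q, bl R (R ^ (1 - ε₀)) q = B ∧ Inc R δ T q) :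
    (S.card : ℝ) ≤ (36 * Fm m) ^ (m + 2) := by
  have hR0 : 0 < R := by linarith
  have hF := Fm_pos (m := m)
  set r := R ^ (1 - ε₀) with hr
  have hr0 : 0 < r := Real.rpow_pos_of_pos hR0 _
  set p := co R q' with hp
  have key : ∀ B ∈ S, |(B.1 : ℝ) - p.1 / r| ≤ 12 * Fm m ∧
      (∀ i, |(B.2.1 i : ℝ) - p.2.1 i / r| ≤ 12 * Fm m) ∧
      |(B.2.2 : ℝ) - p.2.2 / r| ≤ 12 * Fm m := by
    intro B hB
    obtain ⟨hB1, q, rfl, hq⟩ := h B hB
    obtain ⟨a1, a2⟩ := hg1 hR hδ hη hq hi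
    set η := ctr (sR R) T.1 with hηd
    set c := co R q with hc
    have hρ : 2 * Fm m * R ^ (1 / 2 + 2 * δ) ≤ 2 * Fm m * r :=
      mul_le_mul_of_nonneg_left (rp hR (by linarith)) (by positivity)
    have e3 : ((bl R r q).2.2 : ℤ) = ⌊c.2.2 / r⌋ := rfl
    have e3' : ((bl R r q').2.2 : ℤ) = ⌊p.2.2 / r⌋ := rfl
    have e1 : ((bl R r q).1 : ℤ) = ⌊c.1 / r⌋ := rfl
    have e2 : ∀ i, ((bl R r q).2.1 i : ℤ) = ⌊c.2.1 i / r⌋ := fun i => rfl
    have hw : |(c - p).2.2| ≤ 2 * r := by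
      rw [e3, e3'] at hB1
      have h1 : |((⌊c.2.2 / r⌋ : ℤ) : ℝ) - (⌊p.2.2 / r⌋ : ℤ)| ≤ 1 := by exact_mod_cast hB1
      have h2 := Int.floor_le (c.2.2 / r)
      have h3 := Int.lt_floor_add_one (c.2.2 / r)
      have h4 := Int.floor_le (p.2.2 / r)
      have h5 := Int.lt_floor_add_one (p.2.2 / r)
      have h6 := abs_le.1 h1
      have h7 : |c.2.2 / r - p.2.2 / r| ≤ 2 := by
        rw [abs_le]
        constructor <;> linarith
      rw [← sub_div, abs_div, abs_of_pos hr0, div_le_iff₀ hr0] at h7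
      exact h7
    have hy : ‖(c - p).2.1‖ ≤ (2 * Fm m + 12) * r := by
      have h1 : (c - p).2.1 = L2 η (c - p) - (2 * (c - p).2.2) • η := by
        unfold L2
        abel
      rw [h1]
      refine (norm_sub_le _ _).trans ?_
      rw [norm_smul, Real.norm_eq_abs, abs_mul, abs_two]
      have h2 : |(c - p).2.2| * ‖η‖ ≤ 2 * r * 3 :=
        mul_le_mul hw hη (norm_nonneg _) (by positivity)
      linarith
    have hv : |(c - p).1| ≤ (8 * Fm m + 54) * r := by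
      have h1 : (c - p).1 = L1 η (c - p) - (⟪(c - p).2.1, η⟫ + (c - p).2.2 * ‖η‖ ^ 2) := by
        unfold L1
        ring
      rw [h1]
      refine (abs_sub _ _).trans ?_
      have h2 : |⟪(c - p).2.1, η⟫| ≤ (2 * Fm m + 12) * r * 3 :=
        (abs_real_inner_le_norm _ _).trans (mul_le_mul hy hη (norm_nonneg _) (by positivity))
      have h3 : |(c - p).2.2 * ‖η‖ ^ 2| ≤ 2 * r * 9 := by
        rw [abs_mul, abs_of_nonneg (sq_nonneg ‖η‖)]
        refine mul_le_mul hw ?_ (sq_nonneg _) (by positivity)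
        nlinarith [norm_nonneg η]
      have h4 := abs_add_le ⟪(c - p).2.1, η⟫ ((c - p).2.2 * ‖η‖ ^ 2)
      linarith
    refine ⟨?_, fun i => ?_, ?_⟩
    · rw [e1]
      refine (floor_near hr0 (x := c.1) (y := p.1) (c := 8 * Fm m + 54) hv).trans (by linarith)
    · rw [e2]
      have h5 : |c.2.1 i - p.2.1 i| ≤ (2 * Fm m + 12) * r := (coord_le (c - p).2.1 i).trans hy
      exact (floor_near hr0 h5).trans (by linarith)
    · rw [e3]
      exact (floor_near hr0 (x := c.2.2) (y := p.2.2) (c := 2) hw).trans (by linarith)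
  have h1 := cnt_Zi S (p.1 / r) (12 * Fm m) (p.2.2 / r) (12 * Fm m) (fun i => p.2.1 i / r)
    (fun _ => 12 * Fm m) (by positivity) (fun _ => by positivity) (by positivity)
    (fun B hB => (key B hB).1) (fun B hB => (key B hB).2.1) (fun B hB => (key B hB).2.2)
  rw [Finset.prod_const, Finset.card_univ, Fintype.card_fin] at h1
  have h2 : 2 * (12 * Fm m) + 1 ≤ 36 * Fm m := by linarith
  calc (S.card : ℝ) ≤ _ := h1
    _ = (2 * (12 * Fm m) + 1) ^ (m + 2) := by ring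
    _ ≤ _ := pow_le_pow_left₀ (by positivity) h2 _

theorem far_w {R r : ℝ} (hr0 : 0 < r) {q q' : Zi m}
    (h : 1 < |(bl R r q).2.2 - (bl R r q').2.2|) : r ≤ |(co R q - co R q').2.2| := by
  have e3 : ((bl R r q).2.2 : ℤ) = ⌊(co R q).2.2 / r⌋ := rfl
  have e3' : ((bl R r q').2.2 : ℤ) = ⌊(co R q').2.2 / r⌋ := rfl
  rw [e3, e3'] at h
  have h1 : 2 ≤ |((⌊(co R q).2.2 / r⌋ : ℤ) : ℝ) - (⌊(co R q').2.2 / r⌋ : ℤ)| := by
    have h2 : (2 : ℤ) ≤ |⌊(co R q).2.2 / r⌋ - ⌊(co R q').2.2 / r⌋| := by omega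
    exact_mod_cast h2
  have h2 := Int.floor_le ((co R q).2.2 / r)
  have h3 := Int.lt_floor_add_one ((co R q).2.2 / r)
  have h4 := Int.floor_le ((co R q').2.2 / r)
  have h5 := Int.lt_floor_add_one ((co R q').2.2 / r)
  have h7 : 1 ≤ |(co R q).2.2 / r - (co R q').2.2 / r| := by
    rcases le_abs.1 h1 with h6 | h6
    · exact le_abs.2 (Or.inl (by linarith))
    · exact le_abs.2 (Or.inr (by linarith))
  rw [← sub_div, abs_div, abs_of_pos hr0, le_div_iff₀ hr0, one_mul] at h7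
  exact h7

end

end Pool.Agent.H22.G
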