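import Pool.Agent.H22.G.HBb
import Pool.Agent.H22.G.HBc

/-! Group H of Theorem G: the hairbrush inequality (HB). -/

set_option autoImplicit false

namespace Pool.Agent.H22.G

open Pool.Agent.H83.G
open scoped RealInnerProductSpace

section

variable {m : ℕ}

theorem card_eq_le_one {β : Type*} (S : Finset β) (b : β) [DecidablePred fun x => b = x] :
    ((S.filter fun x => b = x).card : ℝ) ≤ 1 := by
  have h : (S.filter fun x => b = x).card ≤ 1 := by
    rw [Finset.card_le_one]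
    intro x hx y hy
    exact ((Finset.mem_filter.1 hx).2.symm).trans (Finset.mem_filter.1 hy).2
  exact_mod_cast h

/-- many cubes on the tube `T`, far from the cube `q'` -/
theorem far_many {R δ ε₀ : ℝ} (hR : 1 ≤ R) (hδ : 0 ≤ δ)
    (hde : 2 * δ + ε₀ ≤ 1 / 2) {QQ : Finset (Zi m)} {T : Pk m} (hT : ‖ctr (sR R) T.1‖ ≤ 3)
    {q' : Zi m} (hi : Inc R δ T q') (P : Zi m → Prop) {k l : ℕ} (f : Zi m → Zi m)
    (hf : f = bl R (R ^ (1 - ε₀)))
    [DecidablePred fun B => P B] [∀ B, DecidablePred fun q => f q = B ∧ Inc R δ T q]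
    [DecidablePred fun q => Inc R δ T q ∧ 1 < |(f q).2.2 - (f q').2.2|]
    (hl : ∀ B, P B → 2 ^ l ≤ (QQ.filter fun q => f q = B ∧ Inc R δ T q).card)
    (hk : 2 ^ k ≤ ((QQ.image f).filter fun B => P B).card)
    (hC : 2 * (36 * Fm m) ^ (m + 2) ≤ (2 : ℝ) ^ k) :
    (2 : ℝ) ^ l * 2 ^ k / 2 ≤ ((QQ.filter fun q => Inc R δ T q ∧
      1 < |(f q).2.2 - (f q').2.2|).card : ℝ) := by
  set Bs := (QQ.image f).filter fun B => P B with hBs
  have h1 : ((Bs.filter fun B => |B.2.2 - (f q').2.2| ≤ 1).card : ℝ) ≤ (36 * Fm m) ^ (m + 2) := by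
    refine near_balls hR hδ hde hT hi _ fun B hB => ?_
    obtain ⟨hB1, hB2⟩ := Finset.mem_filter.1 hB
    rw [← hf]
    refine ⟨hB2, ?_⟩
    have h2 := hl B (Finset.mem_filter.1 hB1).2
    have h3 : 0 < (QQ.filter fun q => f q = B ∧ Inc R δ T q).card :=
      lt_of_lt_of_le (pow_pos (by norm_num) l) h2
    obtain ⟨q, hq⟩ := Finset.card_pos.1 h3
    exact ⟨q, (Finset.mem_filter.1 hq).2⟩
  set far := Bs.filter fun B => ¬ |B.2.2 - (f q').2.2| ≤ 1 with hfar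
  have h2 : (Bs.filter fun B => |B.2.2 - (f q').2.2| ≤ 1).card + far.card = Bs.card :=
    Finset.card_filter_add_card_filter_not (s := Bs) fun B => |B.2.2 - (f q').2.2| ≤ 1
  have h3 : ((Bs.filter fun B => |B.2.2 - (f q').2.2| ≤ 1).card : ℝ) + far.card = Bs.card := by
    exact_mod_cast h2
  have h4 : (2 : ℝ) ^ k ≤ Bs.card := by exact_mod_cast hk
  have h5 : (2 : ℝ) ^ k / 2 ≤ far.card := by linarith
  classical
  have h6 := dbl (QQ.filter fun q => Inc R δ T q ∧ 1 < |(f q).2.2 - (f q').2.2|) far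
    (fun q B => f q = B) (2 ^ l) 1 (fun B hB => by
      obtain ⟨hB1, hB2⟩ := Finset.mem_filter.1 hB
      have h7 := hl B (Finset.mem_filter.1 hB1).2
      have h8 : (QQ.filter fun q => f q = B ∧ Inc R δ T q).card ≤
          ((QQ.filter fun q => Inc R δ T q ∧ 1 < |(f q).2.2 - (f q').2.2|).filter
            fun q => f q = B).card := Finset.card_le_card (by
        intro q hq
        obtain ⟨h9, rfl, h10⟩ := Finset.mem_filter.1 hq
        exact Finset.mem_filter.2 ⟨Finset.mem_filter.2 ⟨h9, h10, not_le.1 hB2⟩, rfl⟩)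
      exact_mod_cast h7.trans h8) (fun q hq => card_eq_le_one far (f q))
  calc (2 : ℝ) ^ l * 2 ^ k / 2 = 2 ^ k / 2 * 2 ^ l := by ring
    _ ≤ far.card * 2 ^ l := mul_le_mul_of_nonneg_right h5 (by positivity)
    _ ≤ _ := h6
    _ = _ := by rw [one_mul]

end

theorem pf_HB : T_HB := by
  classical
  intro m K hK
  have hF := Fm_pos (m := m)
  have hCL := CL_pos (m := m) hK
  have hD : 0 < (36 * Fm m) ^ (m + 2) := by positivity
  refine ⟨8 * CL m K + 2 * (36 * Fm m) ^ (m + 2) + 1, by linarith, ?_⟩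
  intro R δ ε₀ Λ Mi Mj z₀ TTi TTj QQ Q4 Pi Pj k l hR hδ hε hde hΛ hMi0 hMj0 hTi hTj hsep hQ hQ4 hΛQ
    hMi hMj hl hk hC
  have hR0 : 0 < R := by linarith
  have hE : 0 < R ^ (6 * ((m : ℝ) + 2) * (δ + ε₀)) := Real.rpow_pos_of_pos hR0 _
  have hr0 : 0 < R ^ (1 - ε₀) := Real.rpow_pos_of_pos hR0 _
  -- (d)
  have hd : (Q4.card : ℝ) * Mj ≤ 2 ^ (l + 1) * 2 ^ (k + 1) * (TTj.card : ℝ) := by
    refine dbl TTj Q4 (fun T q => Inc R δ T q ∧ Pj T (bl R (R ^ (1 - ε₀)) q)) Mj _ hMj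
      fun T hT => ?_
    refine card_fib (Q4.filter fun q => Inc R δ T q ∧ Pj T (bl R (R ^ (1 - ε₀)) q))
      (bl R (R ^ (1 - ε₀))) (2 ^ (l + 1)) (2 ^ (k + 1)) (by positivity) (fun B hB => ?_) ?_
    · obtain ⟨q, hq, rfl⟩ := Finset.mem_image.1 hB
      obtain ⟨hq1, hq2, hq3⟩ := Finset.mem_filter.1 hq
      have h1 := (hl T hT _ hq3).2
      have h2 : ((Q4.filter fun q => Inc R δ T q ∧ Pj T (bl R (R ^ (1 - ε₀)) q)).filter
          fun x => bl R (R ^ (1 - ε₀)) x = bl R (R ^ (1 - ε₀)) q).card ≤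
          (QQ.filter fun x => bl R (R ^ (1 - ε₀)) x = bl R (R ^ (1 - ε₀)) q ∧
            Inc R δ T x).card := Finset.card_le_card (by
        intro x hx
        rw [Finset.mem_filter, Finset.mem_filter] at hx
        exact Finset.mem_filter.2 ⟨hQ4 hx.1.1, hx.2, hx.1.2.1⟩)
      exact_mod_cast (h2.trans h1.le)
    · rcases (Q4.filter fun q => Inc R δ T q ∧
        Pj T (bl R (R ^ (1 - ε₀)) q)).eq_empty_or_nonempty with h0 | ⟨q, hq⟩
      · rw [h0]
        simp only [Finset.image_empty, Finset.card_empty, Nat.cast_zero]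
        positivity
      · obtain ⟨hq1, hq2, hq3⟩ := Finset.mem_filter.1 hq
        have h1 := (hk T hT _ hq3).2
        have h2 : ((Q4.filter fun q => Inc R δ T q ∧ Pj T (bl R (R ^ (1 - ε₀)) q)).image
            (bl R (R ^ (1 - ε₀)))).card ≤
            ((QQ.image (bl R (R ^ (1 - ε₀)))).filter fun B' => Pj T B').card :=
          Finset.card_le_card (by
            intro B hB
            obtain ⟨x, hx, rfl⟩ := Finset.mem_image.1 hB
            obtain ⟨hx1, hx2, hx3⟩ := Finset.mem_filter.1 hx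
            exact Finset.mem_filter.2 ⟨Finset.mem_image_of_mem _ (hQ4 hx1), hx3⟩)
        exact_mod_cast (h2.trans h1.le)
  -- (a)
  rcases TTi.eq_empty_or_nonempty with h0 | hne
  · rcases Q4.eq_empty_or_nonempty with h1 | ⟨q, hq⟩
    · rw [h0, h1]
      simp
    · have h2 := hMi q hq
      rw [h0] at h2
      simp only [Finset.filter_empty, Finset.card_empty, Nat.cast_zero] at h2
      have h3 : Mi = 0 := le_antisymm h2 hMi0
      rw [h0, h3]
      simp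
  obtain ⟨T₀, hT₀, hmax⟩ := TTi.exists_max_image
    (fun T => (Q4.filter fun q => Inc R δ T q ∧ Pi T (bl R (R ^ (1 - ε₀)) q)).card) hne
  set Q5 := Q4.filter fun q => Inc R δ T₀ q ∧ Pi T₀ (bl R (R ^ (1 - ε₀)) q) with hQ5
  have ha : (Q4.card : ℝ) * Mi ≤ (Q5.card : ℝ) * (TTi.card : ℝ) := by
    refine dbl TTi Q4 (fun T q => Inc R δ T q ∧ Pi T (bl R (R ^ (1 - ε₀)) q)) Mi _ hMi
      fun T hT => ?_
    exact_mod_cast hmax T hT
  -- the pairs
  set Ps := (Q5 ×ˢ TTj).filter fun p => Inc R δ p.2 p.1 ∧ Pj p.2 (bl R (R ^ (1 - ε₀)) p.1)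
    with hPs
  have hPm : ∀ p ∈ Ps, p.1 ∈ Q4 ∧ Inc R δ T₀ p.1 ∧ p.2 ∈ TTj ∧ Inc R δ p.2 p.1 ∧
      Pj p.2 (bl R (R ^ (1 - ε₀)) p.1) := by
    intro p hp
    obtain ⟨h1, h2, h3⟩ := Finset.mem_filter.1 hp
    obtain ⟨h4, h5⟩ := Finset.mem_product.1 h1
    obtain ⟨h6, h7, -⟩ := Finset.mem_filter.1 h4
    exact ⟨h6, h7, h5, h2, h3⟩
  have hc1 : (Q5.card : ℝ) * Mj ≤ (Ps.card : ℝ) := by
    have h1 := dbl Ps Q5 (fun p q => p.1 = q) Mj 1 (fun q hq => by
      have h2 := hMj q (Finset.mem_filter.1 hq).1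
      refine h2.trans ?_
      have h3 : ((TTj.filter fun T => Inc R δ T q ∧ Pj T (bl R (R ^ (1 - ε₀)) q)).image
          fun T => (q, T)).card ≤ (Ps.filter fun p => p.1 = q).card :=
        Finset.card_le_card (by
          intro p hp
          obtain ⟨T, hT, rfl⟩ := Finset.mem_image.1 hp
          obtain ⟨hT1, hT2⟩ := Finset.mem_filter.1 hT
          exact Finset.mem_filter.2 ⟨Finset.mem_filter.2
            ⟨Finset.mem_product.2 ⟨hq, hT1⟩, hT2⟩, rfl⟩)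
      rw [Finset.card_image_of_injective _ (Prod.mk_right_injective q)] at h3
      exact_mod_cast h3) (fun p hp => card_eq_le_one Q5 p.1)
    linarith
  have hb : (Ps.card : ℝ) * (2 ^ l * 2 ^ k / 2) ≤
      (CL m K * R ^ (6 * ((m : ℝ) + 2) * (δ + ε₀))) * (QQ.card : ℝ) := by
    refine dbl QQ Ps (fun q'' p => Inc R δ p.2 q'' ∧
      1 < |(bl R (R ^ (1 - ε₀)) q'').2.2 - (bl R (R ^ (1 - ε₀)) p.1).2.2|) _ _
      (fun p hp => ?_) fun q'' hq'' => ?_
    · obtain ⟨h1, h2, h3, h4, h5⟩ := hPm p hp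
      exact far_many hR hδ hde (hTj _ h3) h4 (Pj p.2) _ rfl (fun B hB => (hl _ h3 B hB).1)
        (hk _ h3 _ h5).1 (by linarith)
    · refine loss hR hδ hε hde hK (z₀ := z₀) (T₀ := T₀) (q'' := q'') (hTi T₀ hT₀)
        (hQ q'' hq'') _ fun p hp => ?_
      obtain ⟨h6, h7, h8⟩ := Finset.mem_filter.1 hp
      obtain ⟨h1, h2, h3, h4, h5⟩ := hPm p h6
      exact ⟨h2, h4, h7, far_w hr0 h8, hTj _ h3, hsep _ hT₀ _ h3, hQ _ (hQ4 h1)⟩
  -- end
  set Ls := R ^ (6 * ((m : ℝ) + 2) * (δ + ε₀)) with hLs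
  set x : ℝ := 2 ^ l * 2 ^ k with hx
  have hx0 : 0 < x := by positivity
  have e1 : (2 : ℝ) ^ (l + 1) * 2 ^ (k + 1) = 4 * x := by rw [hx]; ring
  rw [e1] at hd
  have hb2 : (Q5.card : ℝ) * Mj * (x / 2) ≤ (CL m K * Ls) * (Λ * (Q4.card : ℝ)) := by
    refine (mul_le_mul_of_nonneg_right hc1 (by positivity)).trans (hb.trans ?_)
    exact mul_le_mul_of_nonneg_left hΛQ (by positivity)
  have hfin : (Q4.card : ℝ) * Mi * Mj ^ 2 * x ≤
      (8 * CL m K * Λ * Ls * (TTi.card : ℝ) * (TTj.card : ℝ)) * x := by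
    calc (Q4.card : ℝ) * Mi * Mj ^ 2 * x = (Q4.card * Mi) * (Mj ^ 2 * x) := by ring
      _ ≤ ((Q5.card : ℝ) * (TTi.card : ℝ)) * (Mj ^ 2 * x) :=
        mul_le_mul_of_nonneg_right ha (by positivity)
      _ = (Q5.card * Mj * (x / 2)) * (2 * Mj * (TTi.card : ℝ)) := by ring
      _ ≤ ((CL m K * Ls) * (Λ * (Q4.card : ℝ))) * (2 * Mj * (TTi.card : ℝ)) :=
        mul_le_mul_of_nonneg_right hb2 (by positivity)
      _ = (Q4.card * Mj) * (2 * CL m K * Ls * Λ * (TTi.card : ℝ)) := by ring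
      _ ≤ (4 * x * (TTj.card : ℝ)) * (2 * CL m K * Ls * Λ * (TTi.card : ℝ)) :=
        mul_le_mul_of_nonneg_right hd (by positivity)
      _ = _ := by ring
  have hfin2 := le_of_mul_le_mul_right hfin hx0
  refine hfin2.trans ?_
  have h9 : 8 * CL m K ≤ 8 * CL m K + 2 * (36 * Fm m) ^ (m + 2) + 1 := by linarith
  have h10 : 0 ≤ Λ * Ls * (TTi.card : ℝ) * (TTj.card : ℝ) := by positivity
  calc 8 * CL m K * Λ * Ls * (TTi.card : ℝ) * (TTj.card : ℝ) =
      8 * CL m K * (Λ * Ls * (TTi.card : ℝ) * (TTj.card : ℝ)) := by ring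
    _ ≤ (8 * CL m K + 2 * (36 * Fm m) ^ (m + 2) + 1) *
        (Λ * Ls * (TTi.card : ℝ) * (TTj.card : ℝ)) := mul_le_mul_of_nonneg_right h9 h10
    _ = _ := by ring

end Pool.Agent.H22.G
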