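import Pool.Agent.H22.G.MU

/-! Group H of Theorem G: the hairbrush, geometric part. -/

set_option autoImplicit false

namespace Pool.Agent.H22.G

open Pool.Agent.H83.G
open scoped RealInnerProductSpace

section

variable {m : ℕ}

/-- the Lorentz form -/
noncomputable def Qf (z : Z m) : ℝ := 4 * z.1 * z.2.2 - ‖z.2.1‖ ^ 2

/-- its polar form -/
noncomputable def Bf (z z' : Z m) : ℝ := 2 * (z.1 * z'.2.2 + z.2.2 * z'.1) - ⟪z.2.1, z'.2.1⟫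

theorem Qf_sub (z z' : Z m) : Qf (z - z') = Qf z + Qf z' - 2 * Bf z z' := by
  unfold Qf Bf
  have h := norm_sub_sq_real z.2.1 z'.2.1
  simp only [Prod.fst_sub, Prod.snd_sub]
  rw [h]
  ring

theorem Qf_L (η : E m) (z : Z m) : Qf z = 4 * L1 η z * z.2.2 - ‖L2 η z‖ ^ 2 := by
  unfold Qf L1 L2
  rw [norm_add_sq_real, inner_smul_right, norm_smul, mul_pow, Real.norm_eq_abs, sq_abs]
  ring

theorem Qf_le {η : E m} {z : Z m} {ρ : ℝ} (h1 : |L1 η z| ≤ ρ) (h2 : ‖L2 η z‖ ≤ ρ) :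
    |Qf z| ≤ 4 * ρ * |z.2.2| + ρ ^ 2 := by
  have hρ : 0 ≤ ρ := (abs_nonneg _).trans h1
  rw [Qf_L η]
  refine (abs_sub _ _).trans ?_
  rw [abs_mul, abs_mul, abs_of_nonneg (show (0 : ℝ) ≤ 4 by norm_num),
    abs_of_nonneg (sq_nonneg ‖L2 η z‖)]
  have h3 : ‖L2 η z‖ ^ 2 ≤ ρ ^ 2 := pow_le_pow_left₀ (norm_nonneg _) h2 2
  have h4 : |L1 η z| * |z.2.2| ≤ ρ * |z.2.2| := mul_le_mul_of_nonneg_right h1 (abs_nonneg _)
  nlinarith

theorem L1_change (η θ : E m) (z : Z m) :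
    L1 (η + θ) z = L1 η z + ⟪L2 η z, θ⟫ + z.2.2 * ‖θ‖ ^ 2 := by
  unfold L1 L2
  rw [norm_add_sq_real, inner_add_right, inner_add_left, inner_smul_left]
  simp only [conj_trivial]
  ring

theorem L2_change (η θ : E m) (z : Z m) :
    L2 (η + θ) z = L2 η z + (2 * z.2.2) • θ := by
  unfold L2
  rw [smul_add]
  abel

theorem Bf_L (η : E m) (z z' : Z m) :
    Bf z z' = 2 * (L1 η z * z'.2.2 + z.2.2 * L1 η z') - ⟪L2 η z, L2 η z'⟫ := by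
  unfold Bf L1 L2
  rw [inner_add_left, inner_add_right, inner_add_right, inner_smul_left, inner_smul_right,
    inner_smul_left, inner_smul_right, real_inner_self_eq_norm_sq, real_inner_comm η z'.2.1]
  simp only [conj_trivial]
  ring

/-- transversality of two light rays -/
theorem transv {η₀ η₁ : E m} {a b : Z m} {ρ : ℝ} (hθ : ‖η₀ - η₁‖ ≤ 6)
    (ha1 : |L1 η₁ a| ≤ ρ) (ha2 : ‖L2 η₁ a‖ ≤ ρ) (hb1 : |L1 η₀ b| ≤ ρ) (hb2 : ‖L2 η₀ b‖ ≤ ρ) :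
    2 * (|a.2.2| * |b.2.2| * ‖η₀ - η₁‖ ^ 2) ≤
      |Bf a b| + 14 * ρ * |b.2.2| + 14 * ρ * |a.2.2| + ρ ^ 2 := by
  have hρ : 0 ≤ ρ := (abs_nonneg _).trans ha1
  set θ := η₀ - η₁ with hθd
  have h0 : η₀ = η₁ + θ := by rw [hθd]; abel
  have e := Bf_L η₀ a b
  have e1 : L1 η₀ a = L1 η₁ a + ⟪L2 η₁ a, θ⟫ + a.2.2 * ‖θ‖ ^ 2 := by rw [h0, L1_change]
  have e2 : L2 η₀ a = L2 η₁ a + (2 * a.2.2) • θ := by rw [h0, L2_change]
  rw [e1, e2, inner_add_left, inner_smul_left] at e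
  simp only [conj_trivial] at e
  have i1 : |⟪L2 η₁ a, θ⟫| ≤ ρ * 6 :=
    (abs_real_inner_le_norm _ _).trans (mul_le_mul ha2 hθ (norm_nonneg _) hρ)
  have i2 : |⟪L2 η₁ a, L2 η₀ b⟫| ≤ ρ * ρ :=
    (abs_real_inner_le_norm _ _).trans (mul_le_mul ha2 hb2 (norm_nonneg _) hρ)
  have i3 : |⟪θ, L2 η₀ b⟫| ≤ 6 * ρ :=
    (abs_real_inner_le_norm _ _).trans (mul_le_mul hθ hb2 (norm_nonneg _) (by norm_num))
  have key : 2 * (a.2.2 * b.2.2 * ‖θ‖ ^ 2) = Bf a b - 2 * L1 η₁ a * b.2.2 -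
      2 * ⟪L2 η₁ a, θ⟫ * b.2.2 - 2 * a.2.2 * L1 η₀ b + ⟪L2 η₁ a, L2 η₀ b⟫ +
      2 * a.2.2 * ⟪θ, L2 η₀ b⟫ := by
    rw [e]
    ring
  have h1 : |2 * (a.2.2 * b.2.2 * ‖θ‖ ^ 2)| = 2 * (|a.2.2| * |b.2.2| * ‖θ‖ ^ 2) := by
    rw [abs_mul, abs_mul, abs_mul, abs_two, abs_of_nonneg (sq_nonneg ‖θ‖)]
  have j1 : |2 * L1 η₁ a * b.2.2| ≤ 2 * ρ * |b.2.2| := by
    rw [abs_mul, abs_mul, abs_two]
    exact mul_le_mul_of_nonneg_right (by linarith) (abs_nonneg _)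
  have j2 : |2 * ⟪L2 η₁ a, θ⟫ * b.2.2| ≤ 12 * ρ * |b.2.2| := by
    rw [abs_mul, abs_mul, abs_two]
    exact mul_le_mul_of_nonneg_right (by linarith) (abs_nonneg _)
  have j3 : |2 * a.2.2 * L1 η₀ b| ≤ 2 * ρ * |a.2.2| := by
    rw [abs_mul, abs_mul, abs_two]
    nlinarith [abs_nonneg a.2.2, abs_nonneg (L1 η₀ b)]
  have j4 : |2 * a.2.2 * ⟪θ, L2 η₀ b⟫| ≤ 12 * ρ * |a.2.2| := by
    rw [abs_mul, abs_mul, abs_two]
    nlinarith [abs_nonneg a.2.2, abs_nonneg ⟪θ, L2 η₀ b⟫]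
  rw [← h1, key]
  have k1 := abs_sub (Bf a b) (2 * L1 η₁ a * b.2.2)
  have k2 := abs_sub (Bf a b - 2 * L1 η₁ a * b.2.2) (2 * ⟪L2 η₁ a, θ⟫ * b.2.2)
  have k3 := abs_sub (Bf a b - 2 * L1 η₁ a * b.2.2 - 2 * ⟪L2 η₁ a, θ⟫ * b.2.2)
    (2 * a.2.2 * L1 η₀ b)
  have k4 := abs_add_le (Bf a b - 2 * L1 η₁ a * b.2.2 - 2 * ⟪L2 η₁ a, θ⟫ * b.2.2 -
    2 * a.2.2 * L1 η₀ b) ⟪L2 η₁ a, L2 η₀ b⟫
  have k5 := abs_add_le (Bf a b - 2 * L1 η₁ a * b.2.2 - 2 * ⟪L2 η₁ a, θ⟫ * b.2.2 -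
    2 * a.2.2 * L1 η₀ b + ⟪L2 η₁ a, L2 η₀ b⟫) (2 * a.2.2 * ⟪θ, L2 η₀ b⟫)
  nlinarith

/-- two cubes on the stem which are joined to the same third cube are close -/
theorem stem_close {R δ ε₀ K : ℝ} (hR : 1 ≤ R) (hδ : 0 ≤ δ) (hε : 0 ≤ ε₀)
    (hde : 2 * δ + ε₀ ≤ 1 / 2) (hK : 1 ≤ K) {z₀ : Z m} {T₀ T T' : Pk m} {q q' q'' : Zi m}
    (h0 : ‖ctr (sR R) T₀.1‖ ≤ 3) (h1 : ‖ctr (sR R) T.1‖ ≤ 3) (h1' : ‖ctr (sR R) T'.1‖ ≤ 3)
    (hs : 1 / K ≤ ‖ctr (sR R) T₀.1 - ctr (sR R) T.1‖)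
    (i0 : Inc R δ T₀ q) (i0' : Inc R δ T₀ q') (i1 : Inc R δ T q) (i1'' : Inc R δ T q'')
    (i2 : Inc R δ T' q') (i2'' : Inc R δ T' q'')
    (b : ‖co R q - z₀‖ ≤ ((m : ℝ) + 2) * R) (b' : ‖co R q' - z₀‖ ≤ ((m : ℝ) + 2) * R)
    (b'' : ‖co R q'' - z₀‖ ≤ ((m : ℝ) + 2) * R)
    (hw : R ^ (1 - ε₀) ≤ |(co R q'' - co R q).2.2|) :
    |(co R q').2.2 - (co R q).2.2| ≤ 15 * Fm m ^ 2 * K ^ 2 * R ^ (1 / 2 + 2 * δ + ε₀) := by
  have hR0 : 0 < R := by linarith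
  have hF := Fm_pos (m := m)
  have hm0 : (0 : ℝ) ≤ m := Nat.cast_nonneg m
  set ρ := 2 * Fm m * R ^ (1 / 2 + 2 * δ) with hρd
  set W := 2 * ((m : ℝ) + 2) * R with hWd
  have hρ : 0 < ρ := by positivity
  have hρR : ρ ≤ 2 * Fm m * R := by
    have : R ^ (1 / 2 + 2 * δ) ≤ R ^ (1 : ℝ) := rp hR (by linarith)
    rw [Real.rpow_one] at this
    rw [hρd]
    exact mul_le_mul_of_nonneg_left this (by positivity)
  obtain ⟨a1, a2⟩ := hg1 hR hδ h1 i1'' i1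
  obtain ⟨c1, c2⟩ := hg1 hR hδ h0 i0' i0
  obtain ⟨d1, d2⟩ := hg1 hR hδ h1' i2'' i2
  have hθ : ‖ctr (sR R) T₀.1 - ctr (sR R) T.1‖ ≤ 6 := by
    refine (norm_sub_le _ _).trans ?_
    linarith
  have ht := transv hθ a1 a2 c1 c2
  set a := co R q'' - co R q with ha
  set c := co R q' - co R q with hc
  have hac : a - c = co R q'' - co R q' := by rw [ha, hc]; abel
  rw [← hac] at d1 d2
  have wb : ∀ x y : Zi m, ‖co R x - z₀‖ ≤ ((m : ℝ) + 2) * R → ‖co R y - z₀‖ ≤ ((m : ℝ) + 2) * R →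
      |(co R x - co R y).2.2| ≤ W := by
    intro x y hx hy
    refine (n3 _).trans ?_
    have : co R x - co R y = (co R x - z₀) - (co R y - z₀) := by abel
    rw [this]
    refine (norm_sub_le _ _).trans ?_
    rw [hWd]
    linarith
  have w1 : |a.2.2| ≤ W := wb _ _ b'' b
  have w2 : |c.2.2| ≤ W := wb _ _ b' b
  have w3 : |(a - c).2.2| ≤ W := by rw [hac]; exact wb _ _ b'' b'
  have q1 := Qf_le a1 a2
  have q2 := Qf_le c1 c2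
  have q3 := Qf_le d1 d2
  have hB : 2 * |Bf a c| ≤ |Qf a| + |Qf c| + |Qf (a - c)| := by
    have e : 2 * Bf a c = Qf a + Qf c - Qf (a - c) := by rw [Qf_sub a c]; ring
    have e2 : 2 * |Bf a c| = |2 * Bf a c| := by rw [abs_mul, abs_two]
    rw [e2, e]
    exact (abs_sub _ _).trans (add_le_add_left (abs_add_le _ _) _)
  have p1 : ρ * |a.2.2| ≤ ρ * W := mul_le_mul_of_nonneg_left w1 hρ.le
  have p2 : ρ * |c.2.2| ≤ ρ * W := mul_le_mul_of_nonneg_left w2 hρ.le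
  have p3 : ρ * |(a - c).2.2| ≤ ρ * W := mul_le_mul_of_nonneg_left w3 hρ.le
  have p4 : ρ ^ 2 ≤ ρ * (2 * Fm m * R) := by
    rw [pow_two]
    exact mul_le_mul_of_nonneg_left hρR hρ.le
  have hmF : 8 * ((m : ℝ) + 2) ≤ Fm m := by
    unfold Fm
    linarith
  have p5 : W ≤ Fm m * R / 4 := by
    rw [hWd]
    nlinarith
  have p6 : ρ * W ≤ ρ * (Fm m * R / 4) := mul_le_mul_of_nonneg_left p5 hρ.le
  have hmain : |a.2.2| * |c.2.2| * ‖ctr (sR R) T₀.1 - ctr (sR R) T.1‖ ^ 2 ≤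
      15 / 2 * Fm m * R * ρ := by
    nlinarith
  have hθ2 : 1 / K ^ 2 ≤ ‖ctr (sR R) T₀.1 - ctr (sR R) T.1‖ ^ 2 := by
    rw [← one_div_pow]
    exact pow_le_pow_left₀ (by positivity) hs 2
  have hr : 0 < R ^ (1 - ε₀) := Real.rpow_pos_of_pos hR0 _
  have h2 : R ^ (1 - ε₀) * |c.2.2| * (1 / K ^ 2) ≤ 15 / 2 * Fm m * R * ρ := by
    refine le_trans ?_ hmain
    exact mul_le_mul (mul_le_mul_of_nonneg_right hw (abs_nonneg _)) hθ2 (by positivity)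
      (by positivity)
  have h3 : |c.2.2| ≤ 15 / 2 * Fm m * R * ρ * K ^ 2 / R ^ (1 - ε₀) := by
    rw [le_div_iff₀ hr]
    have hK2 : 0 < K ^ 2 := by positivity
    have h4 := mul_le_mul_of_nonneg_right h2 hK2.le
    have e : R ^ (1 - ε₀) * |c.2.2| * (1 / K ^ 2) * K ^ 2 = |c.2.2| * R ^ (1 - ε₀) := by
      field_simp
    rw [e] at h4
    exact h4
  have h4 : 15 / 2 * Fm m * R * ρ * K ^ 2 / R ^ (1 - ε₀) =
      15 * Fm m ^ 2 * K ^ 2 * R ^ (1 / 2 + 2 * δ + ε₀) := by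
    rw [div_eq_iff hr.ne', hρd]
    have : R ^ (1 / 2 + 2 * δ + ε₀) * R ^ (1 - ε₀) = R * R ^ (1 / 2 + 2 * δ) := by
      rw [← Real.rpow_add hR0]
      have e : 1 / 2 + 2 * δ + ε₀ + (1 - ε₀) = 1 + (1 / 2 + 2 * δ) := by ring
      rw [e, Real.rpow_add hR0, Real.rpow_one]
    calc 15 / 2 * Fm m * R * (2 * Fm m * R ^ (1 / 2 + 2 * δ)) * K ^ 2 =
        15 * Fm m ^ 2 * K ^ 2 * (R * R ^ (1 / 2 + 2 * δ)) := by ring
      _ = _ := by rw [← this]; ring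
  rw [← h4]
  exact h3

/-- counting indices of caps -/
theorem cnt_pi (S : Finset (Fin m → ℤ)) (c : E m) (ρ : ℝ) (h0 : 1 ≤ ρ)
    (h : ∀ k ∈ S, ‖(WithLp.toLp 2 (fun i => (k i : ℝ)) : E m) - c‖ ≤ ρ) :
    (S.card : ℝ) ≤ (3 * ρ) ^ m := by
  classical
  have h1 := cnt_Zi (S.image fun k => ((0 : ℤ), k, (0 : ℤ))) 0 0 0 0 (fun i => c i) (fun _ => ρ)
    le_rfl (fun _ => by linarith) le_rfl (by
      intro l hl
      obtain ⟨k, -, rfl⟩ := Finset.mem_image.1 hl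
      simp) (by
      intro l hl i
      obtain ⟨k, hk, rfl⟩ := Finset.mem_image.1 hl
      have := (coord_le _ i).trans (h k hk)
      simpa using this) (by
      intro l hl
      obtain ⟨k, -, rfl⟩ := Finset.mem_image.1 hl
      simp)
  rw [Finset.card_image_of_injective _ (by
    intro k k' he
    exact congrArg (fun x : Zi m => x.2.1) he), Finset.prod_const, Finset.card_univ,
    Fintype.card_fin] at h1
  calc (S.card : ℝ) ≤ (2 * 0 + 1) * ((2 * ρ + 1) ^ m * (2 * 0 + 1)) := h1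
    _ = (2 * ρ + 1) ^ m := by ring
    _ ≤ _ := pow_le_pow_left₀ (by linarith) (by linarith) _

/-- the caps of the tubes through two distant cubes -/
theorem cap_count {R δ ε₀ : ℝ} (hR : 1 ≤ R) (hδ : 0 ≤ δ) (hε : 0 ≤ ε₀) {q' q'' : Zi m}
    (hw : R ^ (1 - ε₀) ≤ |(co R q'' - co R q').2.2|) (S : Finset (Fin m → ℤ))
    (h : ∀ k ∈ S, ‖ctr (sR R) k‖ ≤ 3 ∧ ∃ T : Pk m, T.1 = k ∧ Inc R δ T q' ∧ Inc R δ T q'') :
    (S.card : ℝ) ≤ (3 * (((m : ℝ) + 1) * Fm m * R ^ (2 * δ + ε₀))) ^ m := by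
  have hR0 : 0 < R := by linarith
  have hF := Fm_pos (m := m)
  have hm0 : (0 : ℝ) ≤ m := Nat.cast_nonneg m
  have hr : 0 < R ^ (1 - ε₀) := Real.rpow_pos_of_pos hR0 _
  have hp : 1 ≤ R ^ (2 * δ + ε₀) := Real.one_le_rpow hR (by linarith)
  set a := co R q'' - co R q' with ha
  have hμ : a.2.2 ≠ 0 := by
    intro h0
    rw [h0, abs_zero] at hw
    linarith
  have hs0 : 0 < sR R := inv_pos.2 (Real.sqrt_pos.2 hR0)
  set t := sR R / ((m : ℝ) + 1) with ht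
  have ht0 : 0 < t := by positivity
  refine cnt_pi S (t⁻¹ • ((-(2 * a.2.2)⁻¹) • a.2.1)) _ ?_ fun k hk => ?_
  · have h1 : (1 : ℝ) ≤ ((m : ℝ) + 1) * Fm m := by nlinarith
    nlinarith
  · obtain ⟨hk3, T, rfl, i1, i2⟩ := h k hk
    obtain ⟨-, h2⟩ := hg1 hR hδ hk3 i2 i1
    rw [← ha] at h2
    unfold L2 at h2
    have e : (WithLp.toLp 2 (fun i => (T.1 i : ℝ)) : E m) -
        t⁻¹ • ((-(2 * a.2.2)⁻¹) • a.2.1) =
        (t⁻¹ * (2 * a.2.2)⁻¹) • (a.2.1 + (2 * a.2.2) • ctr (sR R) T.1) := by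
      have e1 : ctr (sR R) T.1 = t • (WithLp.toLp 2 (fun i => (T.1 i : ℝ)) : E m) := rfl
      rw [e1, smul_add, smul_smul, smul_smul, smul_smul]
      have e2 : t⁻¹ * (2 * a.2.2)⁻¹ * (2 * a.2.2) * t = 1 := by
        field_simp
      rw [e2, one_smul, mul_neg, neg_smul]
      abel
    rw [e, norm_smul, norm_mul, norm_inv, norm_inv, Real.norm_eq_abs, abs_of_pos ht0,
      Real.norm_eq_abs, abs_mul, abs_two]
    calc t⁻¹ * (2 * |a.2.2|)⁻¹ * ‖a.2.1 + (2 * a.2.2) • ctr (sR R) T.1‖ ≤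
        t⁻¹ * (2 * R ^ (1 - ε₀))⁻¹ * (2 * Fm m * R ^ (1 / 2 + 2 * δ)) := by
          refine mul_le_mul (mul_le_mul_of_nonneg_left ?_ (by positivity)) h2 (norm_nonneg _)
            (by positivity)
          exact inv_anti₀ (by positivity) (by linarith)
      _ = ((m : ℝ) + 1) * Fm m * R ^ (2 * δ + ε₀) := by
          have e1 : t⁻¹ = ((m : ℝ) + 1) * R ^ (1 / 2 : ℝ) := by
            rw [ht, inv_div]
            unfold sR
            rw [div_inv_eq_mul, sqrt_eq]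
          have e2 : R ^ (1 / 2 : ℝ) * (R ^ (1 - ε₀))⁻¹ * R ^ (1 / 2 + 2 * δ) =
              R ^ (2 * δ + ε₀) := by
            rw [← Real.rpow_neg hR0.le, ← Real.rpow_add hR0, ← Real.rpow_add hR0]
            congr 1
            ring
          rw [e1, mul_inv, ← e2]
          ring

end

end Pool.Agent.H22.G
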