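import Pool.Agent.H22.G.HBa

/-! Group H of Theorem G: the multiplicity in the hairbrush. -/

set_option autoImplicit false

namespace Pool.Agent.H22.G

open Pool.Agent.H83.G
open scoped RealInnerProductSpace

section

variable {m : ℕ}

/-- the constant of the multiplicity -/
noncomputable def CL (m : ℕ) (K : ℝ) : ℝ :=
  ((17 * Fm m) ^ (m + 1) * (31 * Fm m ^ 2 * K ^ 2)) *
    ((3 * (((m : ℝ) + 1) * Fm m)) ^ m * (3 * Fm m) ^ (m + 2))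

theorem CL_pos {K : ℝ} (hK : 1 ≤ K) : 1 ≤ CL m K := by
  have hF := Fm_pos (m := m)
  have hm0 : (0 : ℝ) ≤ m := Nat.cast_nonneg m
  have h1 : 1 ≤ (17 * Fm m) ^ (m + 1) := one_le_pow₀ (by linarith)
  have h2 : 1 ≤ (3 * (((m : ℝ) + 1) * Fm m)) ^ m := one_le_pow₀ (by nlinarith)
  have h3 : 1 ≤ (3 * Fm m) ^ (m + 2) := one_le_pow₀ (by linarith)
  have h4 : 1 ≤ 31 * Fm m ^ 2 * K ^ 2 := by
    have h5 : 1 ≤ K ^ 2 := one_le_pow₀ hK
    have h6 : 1 ≤ Fm m ^ 2 := one_le_pow₀ (by linarith)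
    nlinarith
  unfold CL
  calc (1 : ℝ) = (1 * 1) * (1 * 1) := by norm_num
    _ ≤ _ := mul_le_mul (mul_le_mul h1 h4 (by norm_num) (by positivity))
      (mul_le_mul h2 h3 (by norm_num) (by positivity)) (by norm_num) (by positivity)

/-- multiplicity in the hairbrush -/
theorem loss {R δ ε₀ K : ℝ} (hR : 1 ≤ R) (hδ : 0 ≤ δ) (hε : 0 ≤ ε₀)
    (hde : 2 * δ + ε₀ ≤ 1 / 2) (hK : 1 ≤ K) {z₀ : Z m} {T₀ : Pk m} {q'' : Zi m}
    (h0 : ‖ctr (sR R) T₀.1‖ ≤ 3) (b'' : ‖co R q'' - z₀‖ ≤ ((m : ℝ) + 2) * R)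
    (P : Finset (Zi m × Pk m))
    (hP : ∀ p ∈ P, Inc R δ T₀ p.1 ∧ Inc R δ p.2 p.1 ∧ Inc R δ p.2 q'' ∧
      R ^ (1 - ε₀) ≤ |(co R q'' - co R p.1).2.2| ∧ ‖ctr (sR R) p.2.1‖ ≤ 3 ∧
      1 / K ≤ ‖ctr (sR R) T₀.1 - ctr (sR R) p.2.1‖ ∧ ‖co R p.1 - z₀‖ ≤ ((m : ℝ) + 2) * R) :
    (P.card : ℝ) ≤ CL m K * R ^ (6 * ((m : ℝ) + 2) * (δ + ε₀)) := by
  classical
  have hR0 : 0 < R := by linarith
  have hF := Fm_pos (m := m)
  have hm0 : (0 : ℝ) ≤ m := Nat.cast_nonneg m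
  have hCL := CL_pos (m := m) hK
  rcases P.eq_empty_or_nonempty with rfl | ⟨p0, hp0⟩
  · simp only [Finset.card_empty, Nat.cast_zero]
    positivity
  obtain ⟨x1, x2, x3, x4, x5, x6, x7⟩ := hP p0 hp0
  have hp1 : 1 ≤ R ^ (2 * δ + ε₀) := Real.one_le_rpow hR (by linarith)
  have hp2 : 1 ≤ R ^ (2 * δ) := Real.one_le_rpow hR (by linarith)
  -- the cubes
  have hA : ((P.image Prod.fst).card : ℝ) ≤
      (17 * Fm m * R ^ (2 * δ)) ^ (m + 1) * (31 * Fm m ^ 2 * K ^ 2 * R ^ (2 * δ + ε₀)) := by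
    have h1 := line_count hR hδ h0 (P.image Prod.fst) (co R p0.1).2.2
      (15 * Fm m ^ 2 * K ^ 2 * R ^ (1 / 2 + 2 * δ + ε₀)) (by positivity) (by
        intro q hq
        obtain ⟨p, hp, rfl⟩ := Finset.mem_image.1 hq
        obtain ⟨y1, y2, y3, y4, y5, y6, y7⟩ := hP p hp
        exact ⟨y1, stem_close hR hδ hε hde hK h0 x5 y5 x6 x1 y1 x2 x3 y2 y3 x7 y7 b'' x4⟩)
    refine h1.trans (mul_le_mul_of_nonneg_left ?_ (by positivity))
    have e : 15 * Fm m ^ 2 * K ^ 2 * R ^ (1 / 2 + 2 * δ + ε₀) / Real.sqrt R =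
        15 * Fm m ^ 2 * K ^ 2 * R ^ (2 * δ + ε₀) := by
      rw [sqrt_eq, div_eq_iff (Real.rpow_pos_of_pos hR0 _).ne']
      have e5 : R ^ (2 * δ + ε₀) * R ^ (1 / 2 : ℝ) = R ^ (1 / 2 + 2 * δ + ε₀) := by
        rw [← Real.rpow_add hR0]
        ring_nf
      rw [← e5]
      ring
    rw [e]
    have h2 : 1 ≤ Fm m ^ 2 * K ^ 2 * R ^ (2 * δ + ε₀) := by
      have h3 : 1 ≤ Fm m ^ 2 := one_le_pow₀ (by linarith)
      have h4 : 1 ≤ K ^ 2 := one_le_pow₀ hK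
      calc (1 : ℝ) = 1 * 1 * 1 := by norm_num
        _ ≤ _ := mul_le_mul (mul_le_mul h3 h4 (by norm_num) (by positivity)) hp1 (by norm_num)
          (by positivity)
    nlinarith
  -- the tubes
  have hB : ∀ q ∈ P.image Prod.fst, ((P.filter fun p => p.1 = q).card : ℝ) ≤
      ((3 * Fm m) ^ (m + 2) * R ^ (((m : ℝ) + 2) * δ)) *
        (3 * (((m : ℝ) + 1) * Fm m * R ^ (2 * δ + ε₀))) ^ m := by
    intro q hq
    obtain ⟨p1, hp1', rfl⟩ := Finset.mem_image.1 hq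
    have hw := (hP p1 hp1').2.2.2.1
    refine card_fib (P.filter fun p => p.1 = p1.1) (fun p => p.2.1)
      ((3 * Fm m) ^ (m + 2) * R ^ (((m : ℝ) + 2) * δ))
      ((3 * (((m : ℝ) + 1) * Fm m * R ^ (2 * δ + ε₀))) ^ m) (by positivity)
      (fun k hk => ?_) ?_
    · obtain ⟨p2, hp2', rfl⟩ := Finset.mem_image.1 hk
      have hinj : (((P.filter fun p => p.1 = p1.1).filter fun p => p.2.1 = p2.2.1).card : ℝ) =
          (((P.filter fun p => p.1 = p1.1).filter fun p => p.2.1 = p2.2.1).image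
            Prod.snd).card := by
        rw [Finset.card_image_of_injOn]
        intro a ha b hb hab
        have ha' := (Finset.mem_filter.1 (Finset.mem_filter.1 ha).1).2
        have hb' := (Finset.mem_filter.1 (Finset.mem_filter.1 hb).1).2
        exact Prod.ext (ha'.trans hb'.symm) hab
      rw [hinj]
      have hp2P := (Finset.mem_filter.1 hp2').1
      refine hg2b hR hδ p2.2.1 q'' _ (hP p2 hp2P).2.2.2.2.1 fun T hT => ?_
      obtain ⟨p3, hp3, rfl⟩ := Finset.mem_image.1 hT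
      obtain ⟨h4, h5⟩ := Finset.mem_filter.1 hp3
      exact ⟨h5, (hP p3 (Finset.mem_filter.1 h4).1).2.2.1⟩
    · refine cap_count hR hδ hε hw _ fun k hk => ?_
      obtain ⟨p2, hp2', rfl⟩ := Finset.mem_image.1 hk
      obtain ⟨h4, h5⟩ := Finset.mem_filter.1 hp2'
      have h6 := hP p2 h4
      refine ⟨h6.2.2.2.2.1, p2.2, rfl, ?_, h6.2.2.1⟩
      rw [← h5]
      exact h6.2.1
  have h := card_fib P Prod.fst
    (((3 * Fm m) ^ (m + 2) * R ^ (((m : ℝ) + 2) * δ)) *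
        (3 * (((m : ℝ) + 1) * Fm m * R ^ (2 * δ + ε₀))) ^ m)
    ((17 * Fm m * R ^ (2 * δ)) ^ (m + 1) * (31 * Fm m ^ 2 * K ^ 2 * R ^ (2 * δ + ε₀)))
    (by positivity) hB hA
  refine h.trans ?_
  have e1 : (R ^ (2 * δ)) ^ (m + 1) = R ^ (2 * δ * ((m : ℝ) + 1)) := by
    rw [← Real.rpow_natCast, ← Real.rpow_mul hR0.le]
    push_cast
    rfl
  have e2 : (R ^ (2 * δ + ε₀)) ^ m = R ^ ((2 * δ + ε₀) * (m : ℝ)) := by
    rw [← Real.rpow_natCast, ← Real.rpow_mul hR0.le]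
  have e3 : ((3 * Fm m) ^ (m + 2) * R ^ (((m : ℝ) + 2) * δ)) *
        (3 * (((m : ℝ) + 1) * Fm m * R ^ (2 * δ + ε₀))) ^ m *
      ((17 * Fm m * R ^ (2 * δ)) ^ (m + 1) * (31 * Fm m ^ 2 * K ^ 2 * R ^ (2 * δ + ε₀))) =
      CL m K * (R ^ (((m : ℝ) + 2) * δ) * (R ^ (2 * δ + ε₀)) ^ m * (R ^ (2 * δ)) ^ (m + 1) *
        R ^ (2 * δ + ε₀)) := by
    unfold CL
    rw [mul_pow (17 * Fm m) (R ^ (2 * δ)) (m + 1)]
    have : (3 * (((m : ℝ) + 1) * Fm m * R ^ (2 * δ + ε₀))) ^ m =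
        (3 * (((m : ℝ) + 1) * Fm m)) ^ m * (R ^ (2 * δ + ε₀)) ^ m := by
      rw [← mul_pow]
      ring
    rw [this]
    ring
  rw [e3, e1, e2, ← Real.rpow_add hR0, ← Real.rpow_add hR0, ← Real.rpow_add hR0]
  refine mul_le_mul_of_nonneg_left (rp hR ?_) (by linarith)
  nlinarith [mul_nonneg hm0 hδ, mul_nonneg hm0 hε]

end

end Pool.Agent.H22.G
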