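import Pool.Agent.H22.G.LWa

/-! Group H of Theorem G: three transversal families of planks in a cube (LW). -/

set_option autoImplicit false

namespace Pool.Agent.H22.G

open Pool.Agent.H83.G
open scoped RealInnerProductSpace

section

variable {m : ℕ}

noncomputable def fl (x : ℝ) (m : ℕ) : ℤ := ⌊((m : ℝ) + 1) * x⌋

theorem fl_diff {x y : ℝ} (h : fl x m = fl y m) : |x - y| < 1 / ((m : ℝ) + 1) := by
  have hm : (0 : ℝ) < (m : ℝ) + 1 := by positivity
  have h1 := Int.floor_le (((m : ℝ) + 1) * x)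
  have h2 := Int.lt_floor_add_one (((m : ℝ) + 1) * x)
  have h3 := Int.floor_le (((m : ℝ) + 1) * y)
  have h4 := Int.lt_floor_add_one (((m : ℝ) + 1) * y)
  unfold fl at h
  rw [h] at h1 h2
  rw [lt_div_iff₀ hm]
  have e : |x - y| * ((m : ℝ) + 1) = |((m : ℝ) + 1) * x - ((m : ℝ) + 1) * y| := by
    rw [← mul_sub, abs_mul, abs_of_pos hm, mul_comm]
  rw [e, abs_lt]
  constructor <;> linarith

theorem fl_near {x y r : ℝ} (h : |x - y| ≤ r) :
    |(fl x m : ℝ) - ((m : ℝ) + 1) * y| ≤ ((m : ℝ) + 1) * r + 1 := by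
  have hm : (0 : ℝ) < (m : ℝ) + 1 := by positivity
  have h1 := Int.floor_le (((m : ℝ) + 1) * x)
  have h2 := Int.lt_floor_add_one (((m : ℝ) + 1) * x)
  have h3 : |((m : ℝ) + 1) * x - ((m : ℝ) + 1) * y| ≤ ((m : ℝ) + 1) * r := by
    rw [← mul_sub, abs_mul, abs_of_pos hm]
    exact mul_le_mul_of_nonneg_left h hm.le
  have h4 := abs_le.1 h3
  unfold fl
  rw [abs_le]
  constructor <;> linarith

theorem norm_lt_of_coord {d : Z m} (h1 : |d.1| < 1 / ((m : ℝ) + 1))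
    (h2 : ∀ u, |cf d u| < 1 / ((m : ℝ) + 1)) : ‖d‖ < 1 := by
  have hm : (0 : ℝ) ≤ m := Nat.cast_nonneg m
  have h3 : 1 / ((m : ℝ) + 1) ≤ 1 := by
    rw [div_le_one (by positivity)]
    linarith
  have e1 : ‖d.1‖ < 1 := by
    rw [Real.norm_eq_abs]
    linarith
  have e3 : ‖d.2.2‖ < 1 := by
    rw [Real.norm_eq_abs]
    exact lt_of_lt_of_le (h2 none) h3
  have e2 : ‖d.2.1‖ < 1 := by
    have h4 : ‖d.2.1‖ ^ 2 < 1 := by
      rw [EuclideanSpace.norm_sq_eq]
      calc ∑ i, ‖d.2.1 i‖ ^ 2 ≤ ∑ _i : Fin m, (1 / ((m : ℝ) + 1)) ^ 2 :=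
            Finset.sum_le_sum fun i _ => pow_le_pow_left₀ (norm_nonneg _)
              (by rw [Real.norm_eq_abs]; exact (h2 (some i)).le) 2
        _ = m * (1 / ((m : ℝ) + 1)) ^ 2 := by
          rw [Finset.sum_const, Finset.card_univ, Fintype.card_fin, nsmul_eq_mul]
        _ < 1 := by
          rw [one_div, inv_pow, ← div_eq_mul_inv, div_lt_one (by positivity)]
          nlinarith
    nlinarith [norm_nonneg d.2.1]
  rw [Prod.norm_def, Prod.norm_def]
  exact max_lt e1 (max_lt e2 e3)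

theorem cnt_fun {ι : Type} [Fintype ι] [DecidableEq ι] (S : Finset (ι → ℤ)) (c : ι → ℝ) (ρ : ℝ)
    (hρ : 0 ≤ ρ) (h : ∀ k ∈ S, ∀ i, |(k i : ℝ) - c i| ≤ ρ) :
    (S.card : ℝ) ≤ (2 * ρ + 1) ^ Fintype.card ι := by
  classical
  have h1 : S ⊆ Fintype.piFinset fun i => S.image fun k => k i := by
    intro k hk
    rw [Fintype.mem_piFinset]
    intro i
    exact Finset.mem_image_of_mem (fun k : ι → ℤ => k i) hk
  have h2 := Finset.card_le_card h1
  rw [Fintype.card_piFinset] at h2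
  have h3 : ∀ i, (((S.image fun k => k i).card : ℕ) : ℝ) ≤ 2 * ρ + 1 := by
    intro i
    refine cnt_Z _ (c i) ρ hρ fun l hl => ?_
    obtain ⟨k, hk, rfl⟩ := Finset.mem_image.1 hl
    exact h k hk i
  calc (S.card : ℝ) ≤ ((∏ i, (S.image fun k => k i).card : ℕ) : ℝ) := by exact_mod_cast h2
    _ = ∏ i, (((S.image fun k => k i).card : ℕ) : ℝ) := by push_cast; rfl
    _ ≤ ∏ _i : ι, (2 * ρ + 1) := Finset.prod_le_prod (fun i _ => Nat.cast_nonneg _) fun i _ => h3 i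
    _ = _ := by rw [Finset.prod_const, Finset.card_univ]

/-- the points near three transversal planks -/
theorem lw_count {c ρ D : ℝ} (hm : 1 ≤ m) (hρ : 1 ≤ ρ) (hD : 1 ≤ D) (hc0 : 0 < c) (hc1 : c ≤ 1)
    {η₀ η₁ η₂ : E m} (h0 : ‖η₀‖ ≤ 3) (h1 : ‖η₁‖ ≤ 3) (h2 : ‖η₂‖ ≤ 3) {s t : Option (Fin m)}
    (hst : s ≠ t)
    (hmin : c ≤ |(cv η₁ s - cv η₀ s) * (cv η₂ t - cv η₀ t) -
        (cv η₁ t - cv η₀ t) * (cv η₂ s - cv η₀ s)|) (X : Finset (Z m)) (hX : Sep X) (p : Z m)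
    (hp : ∀ z ∈ X, ‖z - p‖ ≤ D)
    (hd : ∀ z ∈ X, ∀ z' ∈ X, |L1 η₀ (z - z')| ≤ 2 * ρ ∧ |L1 η₁ (z - z')| ≤ 2 * ρ ∧
      |L1 η₂ (z - z')| ≤ 2 * ρ) :
    (X.card : ℝ) ≤ (41 * (((m : ℝ) + 1) * (19 * (234 * ρ / c)))) ^ 3 *
      (5 * (((m : ℝ) + 1) * D)) ^ (m - 1) := by
  classical
  have hm0 : (0 : ℝ) < (m : ℝ) + 1 := by positivity
  have hm1 : (1 : ℝ) ≤ (m : ℝ) + 1 := by
    have : (0 : ℝ) ≤ m := Nat.cast_nonneg m
    linarith
  obtain ⟨r, hr⟩ : ∃ r : ℝ, r = 19 * (234 * ρ / c) := ⟨_, rfl⟩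
  have hr0 : 234 * ρ ≤ 234 * ρ / c := by
    rw [le_div_iff₀ hc0]
    nlinarith
  have hr1 : 1 ≤ r := by rw [hr]; linarith
  have hrs : 234 * ρ / c ≤ r := by rw [hr]; linarith
  rw [← hr]
  have hmr : 1 ≤ ((m : ℝ) + 1) * r := by nlinarith
  refine card_fib X
    (fun z => fun u : {u : Option (Fin m) // u ≠ s ∧ u ≠ t} => fl (cf z u.1) m)
    ((41 * (((m : ℝ) + 1) * r)) ^ 3) ((5 * (((m : ℝ) + 1) * D)) ^ (m - 1)) (by positivity)
    (fun b hb => ?_) ?_
  · obtain ⟨z1, hz1, rfl⟩ := Finset.mem_image.1 hb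
    obtain ⟨F, hF⟩ : ∃ F : Finset (Z m), F = X.filter fun z =>
        (fun u : {u : Option (Fin m) // u ≠ s ∧ u ≠ t} => fl (cf z u.1) m) =
          fun u => fl (cf z1 u.1) m := ⟨_, rfl⟩
    have hFX : ∀ z ∈ F, z ∈ X ∧ ∀ u, u ≠ s → u ≠ t → fl (cf z u) m = fl (cf z1 u) m := by
      intro z hz
      rw [hF] at hz
      obtain ⟨hz1, hz2⟩ := Finset.mem_filter.1 hz
      exact ⟨hz1, fun u hu hv => congrFun hz2 ⟨u, hu, hv⟩⟩
    have hsm : ∀ z ∈ F, |cf z s - cf z1 s| ≤ r ∧ |cf z t - cf z1 t| ≤ r ∧ |z.1 - z1.1| ≤ r := by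
      intro z hz
      obtain ⟨hzX, hzf⟩ := hFX z hz
      obtain ⟨x0, x1, x2⟩ := hd z hzX z1 hz1
      obtain ⟨y1, y2, y3⟩ := small_d hρ hc0 hc1 h0 h1 h2 hst hmin (z - z1) x0 x1 x2
        (fun u hu hv => by
          rw [cf_sub]
          exact (fl_diff (hzf u hu hv)).le)
      rw [cf_sub] at y1 y2
      exact ⟨y1.trans hrs, y2.trans hrs, by rw [hr]; exact y3⟩
    have hinj : Set.InjOn (fun z : Z m =>
        ((fl z.1 m, (fun _ : Fin 1 => fl (cf z s) m), fl (cf z t) m) : Zi 1)) (F : Set (Z m)) := by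
      intro z hz z' hz' he
      have hz := hFX z hz
      have hz' := hFX z' hz'
      by_contra hne
      have hsep := hX z hz.1 z' hz'.1 hne
      have e1 : fl z.1 m = fl z'.1 m := congrArg (fun x : Zi 1 => x.1) he
      have e2 : fl (cf z s) m = fl (cf z' s) m := congrArg (fun x : Zi 1 => x.2.1 0) he
      have e3 : fl (cf z t) m = fl (cf z' t) m := congrArg (fun x : Zi 1 => x.2.2) he
      have hlt : ‖z - z'‖ < 1 := by
        refine norm_lt_of_coord (fl_diff e1) fun u => ?_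
        rw [cf_sub]
        by_cases hus : u = s
        · rw [hus]
          exact fl_diff e2
        · by_cases hut : u = t
          · rw [hut]
            exact fl_diff e3
          · exact fl_diff ((hz.2 u hus hut).trans (hz'.2 u hus hut).symm)
      linarith
    rw [← hF]
    have hc := cnt_Zi (m := 1) (F.image fun z : Z m =>
        ((fl z.1 m, (fun _ : Fin 1 => fl (cf z s) m), fl (cf z t) m) : Zi 1))
      (((m : ℝ) + 1) * z1.1) (((m : ℝ) + 1) * r + 1) (((m : ℝ) + 1) * cf z1 t)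
      (((m : ℝ) + 1) * r + 1) (fun _ => ((m : ℝ) + 1) * cf z1 s)
      (fun _ => ((m : ℝ) + 1) * r + 1) (by positivity) (fun _ => by positivity) (by positivity)
      (by
        intro l hl
        obtain ⟨z, hz, rfl⟩ := Finset.mem_image.1 hl
        exact fl_near (hsm z hz).2.2) (by
        intro l hl i
        obtain ⟨z, hz, rfl⟩ := Finset.mem_image.1 hl
        exact fl_near (hsm z hz).1) (by
        intro l hl
        obtain ⟨z, hz, rfl⟩ := Finset.mem_image.1 hl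
        exact fl_near (hsm z hz).2.1)
    rw [Finset.card_image_of_injOn hinj, Finset.prod_const, Finset.card_univ,
      Fintype.card_fin, pow_one] at hc
    have h5 : 2 * (((m : ℝ) + 1) * r + 1) + 1 ≤ 41 * (((m : ℝ) + 1) * r) := by linarith
    calc (F.card : ℝ) ≤ _ := hc
      _ = (2 * (((m : ℝ) + 1) * r + 1) + 1) ^ 3 := by ring
      _ ≤ _ := pow_le_pow_left₀ (by positivity) h5 3
  · have hcard : Fintype.card {u : Option (Fin m) // u ≠ s ∧ u ≠ t} = m - 1 := by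
      have e1 : Fintype.card {u : Option (Fin m) // u ≠ s ∧ u ≠ t} =
          ((Finset.univ : Finset (Option (Fin m))) \ {s, t}).card := by
        rw [Fintype.card_subtype]
        congr 1
        ext u
        simp
      rw [e1, Finset.card_sdiff_of_subset (Finset.subset_univ _), Finset.card_pair hst,
        Finset.card_univ, Fintype.card_option, Fintype.card_fin]
      omega
    have h6 := cnt_fun (X.image fun z => fun u : {u : Option (Fin m) // u ≠ s ∧ u ≠ t} =>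
      fl (cf z u.1) m) (fun u => ((m : ℝ) + 1) * cf p u.1) (((m : ℝ) + 1) * D + 1)
      (by positivity) (by
        intro k hk u
        obtain ⟨z, hz, rfl⟩ := Finset.mem_image.1 hk
        refine fl_near ?_
        rw [← cf_sub]
        exact (cf_le _ _).trans (hp z hz))
    rw [hcard] at h6
    refine h6.trans (pow_le_pow_left₀ (by positivity) ?_ _)
    have : 1 ≤ ((m : ℝ) + 1) * D := by nlinarith
    linarith

end

theorem pf_LW : T_LW := by
  classical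
  intro m K hm hK
  have hK0 : 0 < K := by linarith
  have hm1 : (1 : ℝ) ≤ m := by exact_mod_cast hm
  obtain ⟨c, hc⟩ : ∃ c : ℝ, c = 1 / (8 * (m : ℝ) ^ 2 * K ^ 3) := ⟨_, rfl⟩
  have hc0 : 0 < c := by rw [hc]; positivity
  have hc1 : c ≤ 1 := by
    rw [hc, div_le_one (by positivity)]
    have h1 : 1 ≤ (m : ℝ) ^ 2 := one_le_pow₀ hm1
    have h2 : 1 ≤ K ^ 3 := one_le_pow₀ hK
    nlinarith
  obtain ⟨C, hC⟩ : ∃ C : ℝ, C = (41 * (((m : ℝ) + 1) * (19 * (234 * 1 / c)))) ^ 3 *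
      (5 * (((m : ℝ) + 1) * ((m : ℝ) + 1))) ^ (m - 1) := ⟨_, rfl⟩
  have hC0 : 0 ≤ C := by rw [hC]; positivity
  refine ⟨C + 1, by linarith, ?_⟩
  intro R δ p X S M₁ hR hδ hX hp hS3 hsep hM hMz
  have hR0 : 0 < R := by linarith
  have hP : 0 < R ^ (((m : ℝ) - 1) / 2 + 6 * δ) := Real.rpow_pos_of_pos hR0 _
  have main := dbl (S 0 ×ˢ (S 1 ×ˢ S 2)) X
    (fun W z => near R δ W.1 z ∧ near R δ W.2.1 z ∧ near R δ W.2.2 z)
    (M₁ 0 * M₁ 1 * M₁ 2) (C * R ^ (((m : ℝ) - 1) / 2 + 6 * δ)) (fun z hz => ?_) (fun W hW => ?_)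
  · rw [Finset.card_product, Finset.card_product] at main
    push_cast at main
    refine main.trans ?_
    have h1 : 0 ≤ R ^ (((m : ℝ) - 1) / 2 + 6 * δ) *
      (((S 0).card : ℝ) * ((S 1).card : ℝ) * ((S 2).card : ℝ)) := by positivity
    nlinarith
  · have h1 : ((S 0 ×ˢ (S 1 ×ˢ S 2)).filter fun W =>
        near R δ W.1 z ∧ near R δ W.2.1 z ∧ near R δ W.2.2 z) =
        ((S 0).filter fun W => near R δ W z) ×ˢ
          (((S 1).filter fun W => near R δ W z) ×ˢ ((S 2).filter fun W => near R δ W z)) := by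
      ext W
      simp only [Finset.mem_filter, Finset.mem_product]
      tauto
    rw [h1, Finset.card_product, Finset.card_product]
    push_cast
    have a0 := hMz z hz 0
    have a1 := hMz z hz 1
    have a2 := hMz z hz 2
    have b0 := hM 0
    have b1 := hM 1
    have b2 := hM 2
    rw [mul_assoc]
    exact mul_le_mul a0 (mul_le_mul a1 a2 b2 (Nat.cast_nonneg _)) (mul_nonneg b1 b2)
      (Nat.cast_nonneg _)
  · obtain ⟨hW0, hW'⟩ := Finset.mem_product.1 hW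
    obtain ⟨hW1, hW2⟩ := Finset.mem_product.1 hW'
    have n0 := hS3 0 _ hW0
    have n1' := hS3 1 _ hW1
    have n2' := hS3 2 _ hW2
    have s01 := hsep 1 0 (by decide) _ hW1 _ hW0
    have s02 := hsep 2 0 (by decide) _ hW2 _ hW0
    have s12 := hsep 1 2 (by decide) _ hW1 _ hW2
    obtain ⟨s, t, hst, hmin⟩ := minor hm hK n0 s01 s02 s12
    rw [← hc] at hmin
    have hρ : 1 ≤ R ^ (2 * δ) := Real.one_le_rpow hR (by linarith)
    have hD1 : 1 ≤ R ^ (1 / 2 : ℝ) := Real.one_le_rpow hR (by norm_num)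
    have hD : 1 ≤ ((m : ℝ) + 1) * R ^ (1 / 2 : ℝ) := by nlinarith
    have hdif : ∀ (W : Pk m) (z z' : Z m), near R δ W z → near R δ W z' →
        |L1 (ctr (sR R) W.1) (z - z')| ≤ 2 * R ^ (2 * δ) := by
      intro W z z' hz hz'
      have h1 := abs_le.1 (near_bounds hR hz).1
      have h2 := abs_le.1 (near_bounds hR hz').1
      rw [L1_sub, abs_le]
      constructor <;> linarith
    have h := lw_count hm hρ hD hc0 hc1 n0 n1' n2' hst hmin
      (X.filter fun z => near R δ W.1 z ∧ near R δ W.2.1 z ∧ near R δ W.2.2 z) (by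
        intro z hz z' hz' hne
        exact hX z (Finset.mem_filter.1 hz).1 z' (Finset.mem_filter.1 hz').1 hne) p
      (fun z hz => hp z (Finset.mem_filter.1 hz).1) (by
        intro z hz z' hz'
        have a := (Finset.mem_filter.1 hz).2
        have a' := (Finset.mem_filter.1 hz').2
        exact ⟨hdif _ z z' a.1 a'.1, hdif _ z z' a.2.1 a'.2.1, hdif _ z z' a.2.2 a'.2.2⟩)
    refine h.trans (le_of_eq ?_)
    have e1 : (R ^ (2 * δ)) ^ 3 = R ^ (6 * δ) := by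
      rw [← Real.rpow_natCast, ← Real.rpow_mul hR0.le]
      push_cast
      ring_nf
    have e2 : (R ^ (1 / 2 : ℝ)) ^ (m - 1) = R ^ (((m : ℝ) - 1) / 2) := by
      rw [← Real.rpow_natCast, ← Real.rpow_mul hR0.le, Nat.cast_sub hm]
      push_cast
      ring_nf
    have e3 : R ^ (((m : ℝ) - 1) / 2 + 6 * δ) = (R ^ (2 * δ)) ^ 3 * (R ^ (1 / 2 : ℝ)) ^ (m - 1) := by
      rw [e1, e2, ← Real.rpow_add hR0]
      ring_nf
    rw [e3, hC]
    have e4 : 41 * (((m : ℝ) + 1) * (19 * (234 * R ^ (2 * δ) / c))) =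
        (41 * (((m : ℝ) + 1) * (19 * (234 * 1 / c)))) * R ^ (2 * δ) := by ring
    have e5 : 5 * (((m : ℝ) + 1) * (((m : ℝ) + 1) * R ^ (1 / 2 : ℝ))) =
        (5 * (((m : ℝ) + 1) * ((m : ℝ) + 1))) * R ^ (1 / 2 : ℝ) := by ring
    rw [e4, e5, mul_pow _ (R ^ (2 * δ)), mul_pow _ (R ^ (1 / 2 : ℝ))]
    ring

end Pool.Agent.H22.G
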