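import Pool.Agent.H22.G.MU

/-! Group H of Theorem G: three transversal planks, algebra. -/

set_option autoImplicit false

namespace Pool.Agent.H22.G

open Pool.Agent.H83.G
open scoped RealInnerProductSpace

section

variable {m : ℕ}

/-- the coordinates `w`, `y` of a point -/
noncomputable def cf (z : Z m) (s : Option (Fin m)) : ℝ := s.elim z.2.2 fun i => z.2.1 i

/-- the coefficients of `L1` -/
noncomputable def cv (η : E m) (s : Option (Fin m)) : ℝ := s.elim (‖η‖ ^ 2) fun i => η i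

theorem inner_sum (x y : E m) : ⟪x, y⟫ = ∑ i, x i * y i := by
  rw [PiLp.inner_apply]
  refine Finset.sum_congr rfl fun i _ => ?_
  simp [mul_comm]

theorem L1_sum (η : E m) (z : Z m) : L1 η z = z.1 + ∑ s, cv η s * cf z s := by
  have e : ∑ s, cv η s * cf z s = ‖η‖ ^ 2 * z.2.2 + ∑ i, η i * z.2.1 i := by
    rw [Fintype.sum_option]
    rfl
  unfold L1
  rw [e, real_inner_comm, inner_sum]
  ring

theorem cf_sub (z z' : Z m) (s : Option (Fin m)) : cf (z - z') s = cf z s - cf z' s := by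
  cases s <;> rfl

theorem cf_le (z : Z m) (s : Option (Fin m)) : |cf z s| ≤ ‖z‖ := by
  cases s with
  | none => exact n3 z
  | some i => exact (coord_le z.2.1 i).trans (n2 z)

theorem cv_abs {η : E m} (h : ‖η‖ ≤ 3) (s : Option (Fin m)) : |cv η s| ≤ 9 := by
  cases s with
  | none =>
    have e : cv η none = ‖η‖ ^ 2 := rfl
    rw [e, abs_of_nonneg (sq_nonneg _)]
    nlinarith [norm_nonneg η]
  | some i => exact ((coord_le η i).trans h).trans (by norm_num)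

theorem cv_diff {η η' : E m} (h : ‖η‖ ≤ 3) (h' : ‖η'‖ ≤ 3) (s : Option (Fin m)) :
    |cv η s - cv η' s| ≤ 9 := by
  cases s with
  | none =>
    have e : cv η none = ‖η‖ ^ 2 := rfl
    have e' : cv η' none = ‖η'‖ ^ 2 := rfl
    rw [e, e', abs_le]
    constructor <;> nlinarith [norm_nonneg η, norm_nonneg η']
  | some i =>
    have h1 : |η i| ≤ 3 := (coord_le η i).trans h
    have h2 : |η' i| ≤ 3 := (coord_le η' i).trans h'
    have e : cv η (some i) = η i := rfl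
    have e' : cv η' (some i) = η' i := rfl
    rw [e, e']
    exact (abs_sub _ _).trans (by linarith)

theorem V_norm (A B : E m) :
    ‖‖B‖ ^ 2 • A - ‖A‖ ^ 2 • B‖ ^ 2 = (‖A‖ * ‖B‖ * ‖A - B‖) ^ 2 := by
  rw [norm_sub_sq_real, norm_smul, norm_smul, inner_smul_left, inner_smul_right, mul_pow, mul_pow,
    mul_pow, mul_pow, norm_sub_sq_real, Real.norm_eq_abs, Real.norm_eq_abs, sq_abs, sq_abs]
  simp only [conj_trivial]
  ring

/-- three separated directions: some minor is large -/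
theorem minor {K : ℝ} (hm : 1 ≤ m) (hK : 1 ≤ K) {η₀ η₁ η₂ : E m} (h0 : ‖η₀‖ ≤ 3)
    (h01 : 1 / K ≤ ‖η₁ - η₀‖) (h02 : 1 / K ≤ ‖η₂ - η₀‖) (h12 : 1 / K ≤ ‖η₁ - η₂‖) :
    ∃ s t : Option (Fin m), s ≠ t ∧ 1 / (8 * (m : ℝ) ^ 2 * K ^ 3) ≤
      |(cv η₁ s - cv η₀ s) * (cv η₂ t - cv η₀ t) -
        (cv η₁ t - cv η₀ t) * (cv η₂ s - cv η₀ s)| := by
  by_contra hcon
  push Not at hcon
  have hm1 : (1 : ℝ) ≤ m := by exact_mod_cast hm
  have hK0 : 0 < K := by linarith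
  obtain ⟨c, hc⟩ : ∃ c : ℝ, c = 1 / (8 * (m : ℝ) ^ 2 * K ^ 3) := ⟨_, rfl⟩
  have hc0 : 0 < c := by rw [hc]; positivity
  rw [← hc] at hcon
  obtain ⟨A, hA⟩ : ∃ A : E m, A = η₁ - η₀ := ⟨_, rfl⟩
  obtain ⟨B, hB⟩ : ∃ B : E m, B = η₂ - η₀ := ⟨_, rfl⟩
  have hAi : ∀ i, cv η₁ (some i) - cv η₀ (some i) = A i := fun i => by rw [hA]; rfl
  have hBi : ∀ i, cv η₂ (some i) - cv η₀ (some i) = B i := fun i => by rw [hB]; rfl
  have hα : cv η₁ none - cv η₀ none = ‖A‖ ^ 2 + 2 * ⟪A, η₀⟫ := by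
    have h := norm_add_sq_real A η₀
    have e : A + η₀ = η₁ := by rw [hA]; abel
    rw [e] at h
    have e1 : cv η₁ none - cv η₀ none = ‖η₁‖ ^ 2 - ‖η₀‖ ^ 2 := rfl
    rw [e1, h]
    ring
  have hβ : cv η₂ none - cv η₀ none = ‖B‖ ^ 2 + 2 * ⟪B, η₀⟫ := by
    have h := norm_add_sq_real B η₀
    have e : B + η₀ = η₂ := by rw [hB]; abel
    rw [e] at h
    have e1 : cv η₂ none - cv η₀ none = ‖η₂‖ ^ 2 - ‖η₀‖ ^ 2 := rfl
    rw [e1, h]
    ring
  have h1 : ∀ i j : Fin m, |A i * B j - A j * B i| ≤ c := by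
    intro i j
    by_cases hij : i = j
    · subst hij
      rw [sub_self, abs_zero]
      exact hc0.le
    · have h := (hcon (some i) (some j) (by simpa using hij)).le
      rw [hAi, hAi, hBi, hBi] at h
      exact h
  have h2 : ∀ i : Fin m, |A i * (‖B‖ ^ 2 + 2 * ⟪B, η₀⟫) - (‖A‖ ^ 2 + 2 * ⟪A, η₀⟫) * B i| ≤ c := by
    intro i
    have h := (hcon (some i) none (by simp)).le
    rw [hAi, hBi, hα, hβ] at h
    exact h
  have h3 : ∀ i, |(‖B‖ ^ 2 • A - ‖A‖ ^ 2 • B) i| ≤ 7 * m * c := by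
    intro i
    have e1 : A i * ⟪B, η₀⟫ - ⟪A, η₀⟫ * B i = ∑ j, (A i * B j - A j * B i) * η₀ j := by
      rw [inner_sum, inner_sum, Finset.mul_sum, Finset.sum_mul, ← Finset.sum_sub_distrib]
      exact Finset.sum_congr rfl fun j _ => by ring
    have e2 : |∑ j, (A i * B j - A j * B i) * η₀ j| ≤ 3 * m * c := by
      refine (Finset.abs_sum_le_sum_abs _ _).trans ?_
      calc ∑ j, |(A i * B j - A j * B i) * η₀ j| ≤ ∑ _j : Fin m, c * 3 :=
            Finset.sum_le_sum fun j _ => by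
              rw [abs_mul]
              exact mul_le_mul (h1 i j) ((coord_le η₀ j).trans h0) (abs_nonneg _) hc0.le
        _ = 3 * m * c := by
          rw [Finset.sum_const, Finset.card_univ, Fintype.card_fin, nsmul_eq_mul]
          ring
    have e3 : (‖B‖ ^ 2 • A - ‖A‖ ^ 2 • B) i =
        (A i * (‖B‖ ^ 2 + 2 * ⟪B, η₀⟫) - (‖A‖ ^ 2 + 2 * ⟪A, η₀⟫) * B i) -
        2 * (∑ j, (A i * B j - A j * B i) * η₀ j) := by
      rw [← e1]
      have : (‖B‖ ^ 2 • A - ‖A‖ ^ 2 • B) i = ‖B‖ ^ 2 * A i - ‖A‖ ^ 2 * B i := rfl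
      rw [this]
      ring
    rw [e3]
    refine (abs_sub _ _).trans ?_
    rw [abs_mul, abs_two]
    have h4 := h2 i
    nlinarith
  have h4 := V_norm A B
  have h5 : ‖‖B‖ ^ 2 • A - ‖A‖ ^ 2 • B‖ ^ 2 ≤ m * (7 * m * c) ^ 2 := by
    rw [EuclideanSpace.norm_sq_eq]
    calc ∑ i, ‖(‖B‖ ^ 2 • A - ‖A‖ ^ 2 • B) i‖ ^ 2 ≤ ∑ _i : Fin m, (7 * m * c) ^ 2 :=
          Finset.sum_le_sum fun i _ => pow_le_pow_left₀ (norm_nonneg _)
            (by rw [Real.norm_eq_abs]; exact h3 i) 2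
      _ = _ := by rw [Finset.sum_const, Finset.card_univ, Fintype.card_fin, nsmul_eq_mul]
  rw [h4] at h5
  have hAB : A - B = η₁ - η₂ := by rw [hA, hB]; abel
  rw [← hA] at h01
  rw [← hB] at h02
  rw [← hAB] at h12
  have h6 : (1 / K * (1 / K) * (1 / K)) ^ 2 ≤ (‖A‖ * ‖B‖ * ‖A - B‖) ^ 2 := by
    refine pow_le_pow_left₀ (by positivity) ?_ 2
    exact mul_le_mul (mul_le_mul h01 h02 (by positivity) (norm_nonneg _)) h12 (by positivity)
      (by positivity)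
  have h7 := h6.trans h5
  have e7 : (1 / K * (1 / K) * (1 / K)) ^ 2 = 1 / K ^ 6 := by
    field_simp
  have e8 : (m : ℝ) * (7 * m * c) ^ 2 = 49 / (64 * (m : ℝ)) * (1 / K ^ 6) := by
    rw [hc]
    field_simp
    ring
  rw [e7, e8] at h7
  have h8 : 0 < 1 / K ^ 6 := by positivity
  have h9 : 49 / (64 * (m : ℝ)) < 1 := by
    rw [div_lt_one (by positivity)]
    linarith
  nlinarith

theorem sum_two {ι : Type} [Fintype ι] [DecidableEq ι] (f : ι → ℝ) {s t : ι} (hst : s ≠ t)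
    (κ : ℝ) (hκ : 0 ≤ κ) (h : ∀ u, u ≠ s → u ≠ t → |f u| ≤ κ) :
    |∑ u, f u - (f s + f t)| ≤ Fintype.card ι * κ := by
  have e : ∑ u, f u - (f s + f t) =
      ∑ u, (f u - (if u = s then f s else 0) - (if u = t then f t else 0)) := by
    rw [Finset.sum_sub_distrib, Finset.sum_sub_distrib, Finset.sum_ite_eq', Finset.sum_ite_eq',
      if_pos (Finset.mem_univ _), if_pos (Finset.mem_univ _)]
    ring
  rw [e]
  refine (Finset.abs_sum_le_sum_abs _ _).trans ?_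
  refine (Finset.sum_le_card_nsmul _ _ κ fun u _ => ?_).trans (by
    rw [nsmul_eq_mul, Finset.card_univ])
  by_cases h1 : u = s
  · subst h1
    rw [if_pos rfl, if_neg hst, sub_self, sub_zero, abs_zero]
    exact hκ
  · by_cases h2 : u = t
    · subst h2
      rw [if_pos rfl, if_neg h1, sub_zero, sub_self, abs_zero]
      exact hκ
    · rw [if_neg h1, if_neg h2, sub_zero, sub_zero]
      exact h u h1 h2

/-- the differences in the three special directions -/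
theorem small_d {ρ c : ℝ} (hρ : 1 ≤ ρ) (hc0 : 0 < c) (hc1 : c ≤ 1) {η₀ η₁ η₂ : E m}
    (h0 : ‖η₀‖ ≤ 3)
    (h1 : ‖η₁‖ ≤ 3) (h2 : ‖η₂‖ ≤ 3) {s t : Option (Fin m)} (hst : s ≠ t)
    (hmin : c ≤ |(cv η₁ s - cv η₀ s) * (cv η₂ t - cv η₀ t) -
        (cv η₁ t - cv η₀ t) * (cv η₂ s - cv η₀ s)|) (d : Z m)
    (d0 : |L1 η₀ d| ≤ 2 * ρ) (d1 : |L1 η₁ d| ≤ 2 * ρ) (d2 : |L1 η₂ d| ≤ 2 * ρ)
    (hd : ∀ u, u ≠ s → u ≠ t → |cf d u| ≤ 1 / ((m : ℝ) + 1)) :
    |cf d s| ≤ 234 * ρ / c ∧ |cf d t| ≤ 234 * ρ / c ∧ |d.1| ≤ 19 * (234 * ρ / c) := by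
  have hm0 : (0 : ℝ) ≤ m := Nat.cast_nonneg m
  have hcard : (Fintype.card (Option (Fin m)) : ℝ) = (m : ℝ) + 1 := by
    rw [Fintype.card_option, Fintype.card_fin]
    push_cast
    rfl
  have key : ∀ g : Option (Fin m) → ℝ, (∀ u, |g u| ≤ 9) →
      |∑ u, g u * cf d u - (g s * cf d s + g t * cf d t)| ≤ 9 := by
    intro g hg
    have h := sum_two (fun u => g u * cf d u) hst (9 * (1 / ((m : ℝ) + 1))) (by positivity)
      (fun u hu1 hu2 => by
        rw [abs_mul]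
        exact mul_le_mul (hg u) (hd u hu1 hu2) (abs_nonneg _) (by norm_num))
    refine h.trans (le_of_eq ?_)
    rw [hcard]
    field_simp
  obtain ⟨a, ha⟩ : ∃ a : Option (Fin m) → ℝ, a = fun u => cv η₁ u - cv η₀ u := ⟨_, rfl⟩
  obtain ⟨b, hb⟩ : ∃ b : Option (Fin m) → ℝ, b = fun u => cv η₂ u - cv η₀ u := ⟨_, rfl⟩
  have ha9 : ∀ u, |a u| ≤ 9 := fun u => by rw [ha]; exact cv_diff h1 h0 u
  have hb9 : ∀ u, |b u| ≤ 9 := fun u => by rw [hb]; exact cv_diff h2 h0 u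
  have hmin' : c ≤ |a s * b t - a t * b s| := by rw [ha, hb]; exact hmin
  have sa : ∑ u, a u * cf d u = L1 η₁ d - L1 η₀ d := by
    rw [L1_sum, L1_sum, ha, add_sub_add_left_eq_sub, ← Finset.sum_sub_distrib]
    exact Finset.sum_congr rfl fun u _ => by ring
  have sb : ∑ u, b u * cf d u = L1 η₂ d - L1 η₀ d := by
    rw [L1_sum, L1_sum, hb, add_sub_add_left_eq_sub, ← Finset.sum_sub_distrib]
    exact Finset.sum_congr rfl fun u _ => by ring
  have ka := abs_le.1 (key a ha9)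
  have kb := abs_le.1 (key b hb9)
  have kh := abs_le.1 (key (cv η₀) (cv_abs h0))
  rw [sa] at ka
  rw [sb] at kb
  have x0 := abs_le.1 d0
  have x1 := abs_le.1 d1
  have x2 := abs_le.1 d2
  have ya : |a s * cf d s + a t * cf d t| ≤ 13 * ρ := by
    rw [abs_le]
    constructor <;> linarith
  have yb : |b s * cf d s + b t * cf d t| ≤ 13 * ρ := by
    rw [abs_le]
    constructor <;> linarith
  have hs : |cf d s| ≤ 234 * ρ / c := by
    rw [le_div_iff₀ hc0]
    have e : cf d s * (a s * b t - a t * b s) =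
        b t * (a s * cf d s + a t * cf d t) - a t * (b s * cf d s + b t * cf d t) := by ring
    have e2 : |cf d s| * |a s * b t - a t * b s| ≤ 234 * ρ := by
      rw [← abs_mul, e]
      refine (abs_sub _ _).trans ?_
      rw [abs_mul, abs_mul]
      have z1 : |b t| * |a s * cf d s + a t * cf d t| ≤ 9 * (13 * ρ) :=
        mul_le_mul (hb9 t) ya (abs_nonneg _) (by norm_num)
      have z2 : |a t| * |b s * cf d s + b t * cf d t| ≤ 9 * (13 * ρ) :=
        mul_le_mul (ha9 t) yb (abs_nonneg _) (by norm_num)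
      linarith
    exact (mul_le_mul_of_nonneg_left hmin' (abs_nonneg _)).trans e2
  have ht : |cf d t| ≤ 234 * ρ / c := by
    rw [le_div_iff₀ hc0]
    have e : cf d t * (a s * b t - a t * b s) =
        a s * (b s * cf d s + b t * cf d t) - b s * (a s * cf d s + a t * cf d t) := by ring
    have e2 : |cf d t| * |a s * b t - a t * b s| ≤ 234 * ρ := by
      rw [← abs_mul, e]
      refine (abs_sub _ _).trans ?_
      rw [abs_mul, abs_mul]
      have z1 : |a s| * |b s * cf d s + b t * cf d t| ≤ 9 * (13 * ρ) :=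
        mul_le_mul (ha9 s) yb (abs_nonneg _) (by norm_num)
      have z2 : |b s| * |a s * cf d s + a t * cf d t| ≤ 9 * (13 * ρ) :=
        mul_le_mul (hb9 s) ya (abs_nonneg _) (by norm_num)
      linarith
    exact (mul_le_mul_of_nonneg_left hmin' (abs_nonneg _)).trans e2
  refine ⟨hs, ht, ?_⟩
  have hr : 234 * ρ ≤ 234 * ρ / c := by
    rw [le_div_iff₀ hc0]
    nlinarith
  have e0 := L1_sum η₀ d
  have z1 : |cv η₀ s * cf d s| ≤ 9 * (234 * ρ / c) := by
    rw [abs_mul]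
    exact mul_le_mul (cv_abs h0 s) hs (abs_nonneg _) (by norm_num)
  have z2 : |cv η₀ t * cf d t| ≤ 9 * (234 * ρ / c) := by
    rw [abs_mul]
    exact mul_le_mul (cv_abs h0 t) ht (abs_nonneg _) (by norm_num)
  have w1 := abs_le.1 z1
  have w2 := abs_le.1 z2
  rw [abs_le]
  constructor <;> linarith

end

end Pool.Agent.H22.G
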