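import Pool.Agent.H22.G.Geo

/-! Group H of Theorem G: counting cubes on a tube (MU). -/

set_option autoImplicit false

namespace Pool.Agent.H22.G

open Pool.Agent.H83.G
open scoped RealInnerProductSpace

section

variable {m : ℕ}

theorem card_fib {α β : Type*} [DecidableEq β] (S : Finset α) (f : α → β) (A B : ℝ) (hA : 0 ≤ A)
    (h1 : ∀ b ∈ S.image f, ((S.filter fun x => f x = b).card : ℝ) ≤ A)
    (h2 : ((S.image f).card : ℝ) ≤ B) : (S.card : ℝ) ≤ A * B := by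
  have h3 := Finset.card_eq_sum_card_image f S
  have h4 : (S.card : ℝ) = ∑ b ∈ S.image f, ((S.filter fun x => f x = b).card : ℝ) := by
    exact_mod_cast h3
  rw [h4]
  refine (Finset.sum_le_card_nsmul _ _ _ h1).trans ?_
  rw [nsmul_eq_mul, mul_comm]
  exact mul_le_mul_of_nonneg_left h2 hA

/-- a bound of the number of elements related to a given one gives a double count -/
theorem dbl {α β : Type*} (S : Finset α) (T : Finset β) (r : α → β → Prop)
    [∀ a b, Decidable (r a b)] (M B : ℝ) (h1 : ∀ b ∈ T, M ≤ ((S.filter fun a => r a b).card : ℝ))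
    (h2 : ∀ a ∈ S, ((T.filter fun b => r a b).card : ℝ) ≤ B) :
    (T.card : ℝ) * M ≤ B * (S.card : ℝ) := by
  have h3 := Finset.sum_card_bipartiteAbove_eq_sum_card_bipartiteBelow r (s := S) (t := T)
  have h4 : ∑ a ∈ S, ((T.filter fun b => r a b).card : ℝ) =
      ∑ b ∈ T, ((S.filter fun a => r a b).card : ℝ) := by
    exact_mod_cast h3
  calc (T.card : ℝ) * M = ∑ _b ∈ T, M := by rw [Finset.sum_const, nsmul_eq_mul]
    _ ≤ ∑ b ∈ T, ((S.filter fun a => r a b).card : ℝ) := Finset.sum_le_sum h1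
    _ = ∑ a ∈ S, ((T.filter fun b => r a b).card : ℝ) := h4.symm
    _ ≤ ∑ _a ∈ S, B := Finset.sum_le_sum h2
    _ = B * (S.card : ℝ) := by rw [Finset.sum_const, nsmul_eq_mul, mul_comm]

theorem toLp_sub (a b : Fin m → ℤ) :
    WithLp.toLp 2 (fun i => (a i : ℝ)) - WithLp.toLp 2 (fun i => (b i : ℝ)) =
      (WithLp.toLp 2 (fun i => ((a i : ℝ) - b i)) : E m) := by
  ext i
  simp

/-- the cubes with the same `w` on a tube -/
theorem slice_count {R δ : ℝ} (hR : 1 ≤ R) (hδ : 0 ≤ δ) {T : Pk m}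
    (hη : ‖ctr (sR R) T.1‖ ≤ 3) (S : Finset (Zi m)) (b : ℤ)
    (h : ∀ q ∈ S, Inc R δ T q ∧ q.2.2 = b) :
    (S.card : ℝ) ≤ (17 * Fm m * R ^ (2 * δ)) ^ (m + 1) := by
  classical
  have hR0 : 0 < R := by linarith
  have hF := Fm_pos (m := m)
  have h2δ : 1 ≤ R ^ (2 * δ) := Real.one_le_rpow hR (by linarith)
  rcases S.eq_empty_or_nonempty with rfl | ⟨q1, hq1⟩
  · simp only [Finset.card_empty, Nat.cast_zero]
    positivity
  obtain ⟨hi1, hb1⟩ := h q1 hq1
  have hsq : 0 < Real.sqrt R := Real.sqrt_pos.2 hR0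
  have hsp : R ^ (1 / 2 + 2 * δ) = Real.sqrt R * R ^ (2 * δ) := by
    rw [Real.rpow_add hR0, sqrt_eq]
  set η := ctr (sR R) T.1 with hηd
  have key : ∀ q ∈ S, ‖(WithLp.toLp 2 (fun i => (q.2.1 i : ℝ)) : E m) -
      WithLp.toLp 2 (fun i => (q1.2.1 i : ℝ))‖ ≤ 2 * Fm m * R ^ (2 * δ) ∧
      |(q.1 : ℝ) - q1.1| ≤ 8 * Fm m * R ^ (2 * δ) := by
    intro q hq
    obtain ⟨hi, hb⟩ := h q hq
    obtain ⟨a1, a2⟩ := hg1 hR hδ hη hi hi1
    set y : E m := (WithLp.toLp 2 (fun i => (q.2.1 i : ℝ)) : E m) -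
      WithLp.toLp 2 (fun i => (q1.2.1 i : ℝ)) with hy
    have hw : (co R q - co R q1).2.2 = 0 := by
      show Real.sqrt R * (q.2.2 : ℝ) - Real.sqrt R * (q1.2.2 : ℝ) = 0
      rw [hb, hb1, sub_self]
    have hyy : (co R q - co R q1).2.1 = Real.sqrt R • y := by
      show Real.sqrt R • (WithLp.toLp 2 (fun i => (q.2.1 i : ℝ)) : E m) -
        Real.sqrt R • (WithLp.toLp 2 (fun i => (q1.2.1 i : ℝ)) : E m) = _
      rw [← smul_sub]
    have hv : (co R q - co R q1).1 = Real.sqrt R * ((q.1 : ℝ) - q1.1) := by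
      show Real.sqrt R * (q.1 : ℝ) - Real.sqrt R * (q1.1 : ℝ) = _
      ring
    unfold L2 at a2
    rw [hw, mul_zero, zero_smul, add_zero, hyy, norm_smul, Real.norm_eq_abs, abs_of_pos hsq,
      hsp] at a2
    have a3 : ‖y‖ ≤ 2 * Fm m * R ^ (2 * δ) := by
      have : Real.sqrt R * ‖y‖ ≤ Real.sqrt R * (2 * Fm m * R ^ (2 * δ)) := by linarith
      exact le_of_mul_le_mul_left this hsq
    refine ⟨a3, ?_⟩
    unfold L1 at a1
    rw [hw, zero_mul, add_zero, hyy, hv, inner_smul_left, hsp] at a1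
    simp only [conj_trivial] at a1
    rw [← mul_add, abs_mul, abs_of_pos hsq] at a1
    have a4 : |(q.1 : ℝ) - q1.1 + ⟪y, η⟫| ≤ 2 * Fm m * R ^ (2 * δ) := by
      have : Real.sqrt R * |(q.1 : ℝ) - q1.1 + ⟪y, η⟫| ≤
          Real.sqrt R * (2 * Fm m * R ^ (2 * δ)) := by linarith
      exact le_of_mul_le_mul_left this hsq
    have a5 : |⟪y, η⟫| ≤ 2 * Fm m * R ^ (2 * δ) * 3 :=
      (abs_real_inner_le_norm _ _).trans (mul_le_mul a3 hη (norm_nonneg _) (by positivity))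
    have a6 := abs_sub ((q.1 : ℝ) - q1.1 + ⟪y, η⟫) ⟪y, η⟫
    rw [add_sub_cancel_right] at a6
    linarith
  have h1 := cnt_Zi S q1.1 (8 * Fm m * R ^ (2 * δ)) b 0 (fun i => q1.2.1 i)
    (fun _ => 2 * Fm m * R ^ (2 * δ)) (by positivity) (fun _ => by positivity) le_rfl
    (fun q hq => (key q hq).2) (fun q hq i => by
      have h2 := (coord_le _ i).trans (key q hq).1
      simpa using h2) (fun q hq => by rw [(h q hq).2]; simp)
  rw [Finset.prod_const, Finset.card_univ, Fintype.card_fin, mul_zero, zero_add, mul_one] at h1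
  have e1 : 2 * (8 * Fm m * R ^ (2 * δ)) + 1 ≤ 17 * Fm m * R ^ (2 * δ) := by nlinarith
  have e2 : 2 * (2 * Fm m * R ^ (2 * δ)) + 1 ≤ 17 * Fm m * R ^ (2 * δ) := by nlinarith
  calc (S.card : ℝ) ≤ _ := h1
    _ ≤ (17 * Fm m * R ^ (2 * δ)) * (17 * Fm m * R ^ (2 * δ)) ^ m := by
        refine mul_le_mul e1 (pow_le_pow_left₀ (by positivity) e2 m) (by positivity)
          (by positivity)
    _ = _ := by ring

/-- the cubes on a tube with `w` in an interval -/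
theorem line_count {R δ : ℝ} (hR : 1 ≤ R) (hδ : 0 ≤ δ) {T : Pk m}
    (hη : ‖ctr (sR R) T.1‖ ≤ 3) (S : Finset (Zi m)) (w₀ ρ : ℝ) (hρ : 0 ≤ ρ)
    (h : ∀ q ∈ S, Inc R δ T q ∧ |(co R q).2.2 - w₀| ≤ ρ) :
    (S.card : ℝ) ≤ (17 * Fm m * R ^ (2 * δ)) ^ (m + 1) * (2 * (ρ / Real.sqrt R) + 1) := by
  classical
  have hR0 : 0 < R := by linarith
  have hF := Fm_pos (m := m)
  have hsq : 0 < Real.sqrt R := Real.sqrt_pos.2 hR0
  refine card_fib S (fun q => q.2.2) _ _ (by positivity) (fun b _ => ?_) ?_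
  · refine slice_count hR hδ hη _ b fun q hq => ?_
    obtain ⟨h1, h2⟩ := Finset.mem_filter.1 hq
    exact ⟨(h q h1).1, h2⟩
  · refine cnt_Z _ (w₀ / Real.sqrt R) _ (by positivity) fun l hl => ?_
    obtain ⟨q, hq, rfl⟩ := Finset.mem_image.1 hl
    have h1 := (h q hq).2
    have e : (q.2.2 : ℝ) - w₀ / Real.sqrt R = ((co R q).2.2 - w₀) / Real.sqrt R := by
      show _ = (Real.sqrt R * (q.2.2 : ℝ) - w₀) / Real.sqrt R
      field_simp
    show |(q.2.2 : ℝ) - w₀ / Real.sqrt R| ≤ _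
    rw [e, abs_div, abs_of_pos hsq]
    exact div_le_div_of_nonneg_right h1 hsq.le

theorem pf_MU : T_MU := by
  classical
  intro m
  have hF := Fm_pos (m := m)
  have hm0 : (0 : ℝ) ≤ m := Nat.cast_nonneg m
  refine ⟨(17 * Fm m) ^ (m + 1) * (2 * m + 5), ?_, ?_⟩
  · have h1 : 1 ≤ (17 * Fm m) ^ (m + 1) := one_le_pow₀ (by linarith)
    nlinarith
  intro R δ M z₀ TT Q P hR hδ hη hQ hM
  have hR0 : 0 < R := by linarith
  have hsq1 : 1 ≤ Real.sqrt R := by
    rw [Real.one_le_sqrt]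
    exact hR
  have hsq : 0 < Real.sqrt R := by linarith
  have hcnt : ∀ T ∈ TT, ((Q.filter fun q => Inc R δ T q ∧ P T q).card : ℝ) ≤
      (17 * Fm m) ^ (m + 1) * (2 * m + 5) * R ^ (1 / 2 + 2 * ((m : ℝ) + 1) * δ) := by
    intro T hT
    have h1 := line_count hR hδ (hη T hT) (Q.filter fun q => Inc R δ T q ∧ P T q) z₀.2.2
      (((m : ℝ) + 2) * R) (by positivity) (fun q hq => by
        obtain ⟨h1, h2, -⟩ := Finset.mem_filter.1 hq
        refine ⟨h2, ?_⟩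
        exact (n3 (co R q - z₀)).trans (hQ q h1))
    refine h1.trans ?_
    have e1 : ((m : ℝ) + 2) * R / Real.sqrt R = ((m : ℝ) + 2) * Real.sqrt R := by
      rw [mul_div_assoc, Real.div_sqrt]
    have e2 : 2 * (((m : ℝ) + 2) * Real.sqrt R) + 1 ≤ (2 * m + 5) * Real.sqrt R := by nlinarith
    have e3 : (R ^ (2 * δ)) ^ (m + 1) * Real.sqrt R = R ^ (1 / 2 + 2 * ((m : ℝ) + 1) * δ) := by
      rw [← Real.rpow_natCast, ← Real.rpow_mul hR0.le, sqrt_eq, ← Real.rpow_add hR0]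
      congr 1
      push_cast
      ring
    rw [e1, mul_pow]
    calc (17 * Fm m) ^ (m + 1) * (R ^ (2 * δ)) ^ (m + 1) *
          (2 * (((m : ℝ) + 2) * Real.sqrt R) + 1) ≤
          (17 * Fm m) ^ (m + 1) * (R ^ (2 * δ)) ^ (m + 1) * ((2 * m + 5) * Real.sqrt R) :=
            mul_le_mul_of_nonneg_left e2 (by positivity)
      _ = (17 * Fm m) ^ (m + 1) * (2 * m + 5) * ((R ^ (2 * δ)) ^ (m + 1) * Real.sqrt R) := by ring
      _ = _ := by rw [e3]
  exact dbl TT Q (fun T q => Inc R δ T q ∧ P T q) M _ hM hcnt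

end

end Pool.Agent.H22.G
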