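import Pool.Agent.H22.G.TargetsH

/-! Group H of Theorem G: the pigeonholes PG1, PG2, PG3, PG4. -/

set_option autoImplicit false

namespace Pool.Agent.H22.G

theorem pop {β ι : Type} [DecidableEq ι] (X : Finset β) (J : Finset ι) (g : β → ι) (h : ∀ z ∈ X, g z ∈ J)
    (hJ : J.Nonempty) : ∃ j ∈ J, X.card ≤ J.card * (X.filter fun z => g z = j).card := by
  obtain ⟨j, hj, hmax⟩ := J.exists_max_image (fun j => (X.filter fun z => g z = j).card) hJ
  refine ⟨j, hj, ?_⟩
  rw [Finset.card_eq_sum_card_fiberwise (f := g) (t := J) (fun z hz => h z hz)]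
  exact Finset.sum_le_card_nsmul _ _ _ hmax

theorem log_bounds {v n : ℕ} (h1 : 1 ≤ v) (h2 : v ≤ 2 ^ n) :
    Nat.log 2 v ∈ Finset.range (n + 1) ∧ 2 ^ Nat.log 2 v ≤ v ∧ v < 2 ^ (Nat.log 2 v + 1) := by
  refine ⟨?_, Nat.pow_log_le_self 2 (by omega), Nat.lt_pow_succ_log_self (by norm_num) v⟩
  rw [Finset.mem_range, Nat.lt_succ_iff]
  calc Nat.log 2 v ≤ Nat.log 2 (2 ^ n) := Nat.log_mono_right h2
    _ = n := Nat.log_pow (by norm_num) n

theorem pf_PG4 : T_PG4 := by
  classical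
  intro β X v n hv
  obtain ⟨j, -, hj⟩ := pop X (Finset.range (n + 1)) (fun z => Nat.log 2 (v z))
    (fun z hz => (log_bounds (hv z hz).1 (hv z hz).2).1) ⟨0, by simp⟩
  rw [Finset.card_range] at hj
  refine ⟨X.filter fun z => Nat.log 2 (v z) = j, 2 ^ j, Finset.filter_subset _ _,
    Nat.one_le_two_pow, ?_, ?_⟩
  · exact hj
  · intro z hz
    obtain ⟨hzX, hzj⟩ := Finset.mem_filter.1 hz
    have h := (log_bounds (hv z hzX).1 (hv z hzX).2).2
    rw [hzj, pow_succ] at h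
    exact ⟨h.1, by linarith [h.2]⟩

theorem pf_PG2 : T_PG2 := by
  classical
  intro β κ X c n hn
  set v : β → ℕ := fun z => (X.filter fun z' => c z' = c z).card with hv
  have hv1 : ∀ z ∈ X, 1 ≤ v z ∧ v z ≤ 2 ^ n := fun z hz =>
    ⟨Finset.card_pos.2 ⟨z, Finset.mem_filter.2 ⟨hz, rfl⟩⟩,
      (Finset.card_filter_le _ _).trans hn⟩
  obtain ⟨j, -, hj⟩ := pop X (Finset.range (n + 1)) (fun z => Nat.log 2 (v z))
    (fun z hz => (log_bounds (hv1 z hz).1 (hv1 z hz).2).1) ⟨0, by simp⟩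
  rw [Finset.card_range] at hj
  refine ⟨X.filter fun z => Nat.log 2 (v z) = j, 2 ^ j, Finset.filter_subset _ _,
    Nat.one_le_two_pow, ?_, ?_⟩
  · exact hj
  · intro z hz
    obtain ⟨hzX, hzj⟩ := Finset.mem_filter.1 hz
    have h := (log_bounds (hv1 z hzX).1 (hv1 z hzX).2).2
    rw [hzj, pow_succ] at h
    have e : ((X.filter fun z => Nat.log 2 (v z) = j).filter fun z' => c z' = c z) =
        X.filter fun z' => c z' = c z := by
      ext z'
      simp only [Finset.mem_filter]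
      constructor
      · rintro ⟨⟨h1, -⟩, h3⟩
        exact ⟨h1, h3⟩
      · rintro ⟨h1, h3⟩
        refine ⟨⟨h1, ?_⟩, h3⟩
        have : v z' = v z := by simp only [hv, h3]
        rw [this, hzj]
    rw [e]
    exact ⟨h.1, by linarith [h.2]⟩

theorem idx {a₀ x : ℝ} {n : ℕ} (hx : a₀ < x) (hn : x ≤ 2 ^ n * a₀) :
    ∃ i, i < n ∧ 2 ^ i * a₀ < x ∧ x ≤ 2 * (2 ^ i * a₀) := by
  induction n with
  | zero => simp at hn; linarith
  | succ n ih =>
    by_cases h : x ≤ 2 ^ n * a₀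
    · obtain ⟨i, h1, h2⟩ := ih h
      exact ⟨i, by omega, h2⟩
    · refine ⟨n, by omega, not_le.1 h, hn.trans (le_of_eq ?_)⟩
      rw [pow_succ]
      ring

theorem pf_PG1 : T_PG1 := by
  classical
  intro α β τ S f al tu X n a₀ H ha₀ hH hS hal hlow hX
  by_cases hXe : X = ∅
  · subst hXe
    exact ⟨∅, ∅, a₀, 1, Finset.empty_subset _, Finset.empty_subset _, le_rfl, le_rfl, by simp,
      by simp, by simp, by simp⟩
  set S1 := S.filter fun W => ¬ al W ≤ a₀ with hS1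
  have hi : ∀ W ∈ S1, ∃ i, i < n ∧ 2 ^ i * a₀ < al W ∧ al W ≤ 2 * (2 ^ i * a₀) := by
    intro W hW
    obtain ⟨h1, h2⟩ := Finset.mem_filter.1 hW
    exact idx (not_le.1 h2) (hal W h1)
  choose! i hi using hi
  set cnt : α → ℕ := fun W => (S1.filter fun W' => i W' = i W ∧ tu W' = tu W).card with hcnt
  have hc : ∀ W ∈ S1, 1 ≤ cnt W ∧ cnt W ≤ 2 ^ n := fun W hW =>
    ⟨Finset.card_pos.2 ⟨W, Finset.mem_filter.2 ⟨hW, rfl, rfl⟩⟩,
      ((Finset.card_filter_le _ _).trans (Finset.card_filter_le _ _)).trans hS⟩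
  set g : α → ℕ × ℕ := fun W => (i W, Nat.log 2 (cnt W)) with hg
  set J : Finset (ℕ × ℕ) := Finset.range n ×ˢ Finset.range (n + 1) with hJ
  have hgJ : ∀ W ∈ S1, g W ∈ J := fun W hW => Finset.mem_product.2
    ⟨Finset.mem_range.2 (hi W hW).1, (log_bounds (hc W hW).1 (hc W hW).2).1⟩
  have hJc : J.card = n * (n + 1) := by
    rw [hJ, Finset.card_product, Finset.card_range, Finset.card_range]
  have hsum : ∀ z, ∑ W ∈ S, f W z = ∑ W ∈ S.filter (fun W => al W ≤ a₀), f W z +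
      ∑ p ∈ J, ∑ W ∈ S1.filter (fun W => g W = p), f W z := by
    intro z
    rw [Finset.sum_fiberwise_of_maps_to hgJ (fun W => f W z),
      Finset.sum_filter_add_sum_filter_not]
  have hpt : ∀ z ∈ X, ∃ p ∈ J,
      H ≤ 4 * ((n : ℝ) + 1) ^ 2 * ‖∑ W ∈ S1.filter (fun W => g W = p), f W z‖ := by
    intro z hz
    by_contra hcon
    push Not at hcon
    have h1 : ‖∑ p ∈ J, ∑ W ∈ S1.filter (fun W => g W = p), f W z‖ ≤ H / 4 := by
      refine (norm_sum_le _ _).trans ?_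
      have h2 : ∀ p ∈ J, ‖∑ W ∈ S1.filter (fun W => g W = p), f W z‖ ≤
          H / (4 * ((n : ℝ) + 1) ^ 2) := by
        intro p hp
        rw [le_div_iff₀ (by positivity)]
        linarith [hcon p hp]
      refine (Finset.sum_le_card_nsmul _ _ _ h2).trans ?_
      rw [hJc, nsmul_eq_mul]
      push_cast
      have h3 : (n : ℝ) * (n + 1) ≤ ((n : ℝ) + 1) ^ 2 := by nlinarith [(Nat.cast_nonneg n : (0:ℝ) ≤ n)]
      calc (n : ℝ) * (n + 1) * (H / (4 * ((n : ℝ) + 1) ^ 2)) ≤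
          ((n : ℝ) + 1) ^ 2 * (H / (4 * ((n : ℝ) + 1) ^ 2)) :=
            mul_le_mul_of_nonneg_right h3 (by positivity)
        _ = H / 4 := by field_simp
    have h2 : ‖∑ W ∈ S.filter (fun W => al W ≤ a₀), f W z‖ ≤ H / 2 :=
      (norm_sum_le _ _).trans (hlow z hz)
    have h3 := hX z hz
    rw [hsum z] at h3
    have h4 := norm_add_le (∑ W ∈ S.filter (fun W => al W ≤ a₀), f W z)
      (∑ p ∈ J, ∑ W ∈ S1.filter (fun W => g W = p), f W z)
    linarith
  choose! q hqJ hq using hpt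
  obtain ⟨z₀, hz₀⟩ := Finset.nonempty_iff_ne_empty.2 hXe
  obtain ⟨p, hpJ, hp⟩ := pop X J q hqJ ⟨q z₀, hqJ z₀ hz₀⟩
  have hn1 : 1 ≤ n := by
    have := (Finset.mem_product.1 hpJ).1
    rw [Finset.mem_range] at this
    omega
  refine ⟨S1.filter (fun W => g W = p), X.filter (fun z => q z = p), 2 ^ p.1 * a₀, 2 ^ p.2,
    (Finset.filter_subset _ _).trans (Finset.filter_subset _ _), Finset.filter_subset _ _, ?_,
    Nat.one_le_two_pow, ?_, ?_, ?_, ?_⟩
  · have h1 : (1 : ℝ) ≤ 2 ^ p.1 := one_le_pow₀ (by norm_num)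
    nlinarith
  · have h1 : X.card ≤ n * (n + 1) * (X.filter (fun z => q z = p)).card := by
      rw [← hJc]
      exact hp
    refine h1.trans (Nat.mul_le_mul_right _ ?_)
    nlinarith
  · intro z hz
    obtain ⟨hzX, hzp⟩ := Finset.mem_filter.1 hz
    have := hq z hzX
    rw [hzp] at this
    exact this
  · intro W hW
    obtain ⟨hW1, hWp⟩ := Finset.mem_filter.1 hW
    have h1 := hi W hW1
    have h2 : i W = p.1 := congrArg Prod.fst hWp
    rw [h2] at h1
    exact ⟨h1.2.1.le, h1.2.2⟩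
  · intro W hW
    obtain ⟨hW1, hWp⟩ := Finset.mem_filter.1 hW
    have e : ((S1.filter (fun W => g W = p)).filter fun W' => tu W' = tu W) =
        S1.filter fun W' => i W' = i W ∧ tu W' = tu W := by
      ext W'
      simp only [Finset.mem_filter]
      constructor
      · rintro ⟨⟨h1, h2⟩, h3⟩
        refine ⟨h1, ?_, h3⟩
        have h4 : i W' = p.1 := congrArg Prod.fst h2
        have h5 : i W = p.1 := congrArg Prod.fst hWp
        rw [h4, h5]
      · rintro ⟨h1, h2, h3⟩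
        refine ⟨⟨h1, ?_⟩, h3⟩
        have h4 : cnt W' = cnt W := by simp only [hcnt, h2, h3]
        rw [← hWp]
        simp only [hg, h2, h4]
    rw [e]
    have h2 := (log_bounds (hc W hW1).1 (hc W hW1).2).2
    have h3 : (g W).2 = p.2 := congrArg Prod.snd hWp
    have h3' : Nat.log 2 (cnt W) = p.2 := h3
    rw [h3', pow_succ] at h2
    have h5 : cnt W ≤ 2 * 2 ^ p.2 := by omega
    exact ⟨h2.1, h5⟩

theorem shc_iff {τ κ ι : Type} (QQ : Finset κ) (inc : τ → κ → Prop) (bq : κ → ι) (l k : ℕ) (T : τ)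
    (B : ι) : shc QQ inc bq l k T B ↔
      (mu QQ inc bq T B ≠ 0 ∧ Nat.log 2 (mu QQ inc bq T B) = l) ∧
        nb QQ inc bq l T ≠ 0 ∧ Nat.log 2 (nb QQ inc bq l T) = k := by
  have key : ∀ v a : ℕ, (2 ^ a ≤ v ∧ v < 2 ^ (a + 1)) ↔ (v ≠ 0 ∧ Nat.log 2 v = a) := by
    intro v a
    constructor
    · rintro ⟨h1, h2⟩
      have h3 : v ≠ 0 := by
        have : 0 < 2 ^ a := by positivity
        omega
      exact ⟨h3, (Nat.log_eq_iff (Or.inr ⟨by norm_num, h3⟩)).2 ⟨h1, h2⟩⟩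
    · rintro ⟨h1, h2⟩
      exact (Nat.log_eq_iff (Or.inr ⟨by norm_num, h1⟩)).1 h2
  unfold shc
  rw [key, key]

theorem pf_PG3 : T_PG3 := by
  classical
  intro α β τ κ ι S f tu X c QQ inc bq n H hH hQ hc hlow hX
  refine ⟨?_, ?_⟩
  · set J : Finset (ℕ × ℕ) := Finset.range (n + 1) ×ˢ Finset.range (n + 1) with hJ
    have hJc : J.card = (n + 1) ^ 2 := by
      rw [hJ, Finset.card_product, Finset.card_range, pow_two]
    -- the class of a plank at the point `z`
    set g : β → α → ℕ × ℕ := fun z W => (Nat.log 2 (mu QQ inc bq (tu W) (bq (c z))),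
      Nat.log 2 (nb QQ inc bq (Nat.log 2 (mu QQ inc bq (tu W) (bq (c z)))) (tu W))) with hg
    have hmu : ∀ T B, mu QQ inc bq T B ≤ 2 ^ n := fun T B => (Finset.card_filter_le _ _).trans hQ
    have hnb : ∀ l T, nb QQ inc bq l T ≤ 2 ^ n := fun l T =>
      ((Finset.card_filter_le _ _).trans Finset.card_image_le).trans hQ
    have hnb1 : ∀ z ∈ X, ∀ T, mu QQ inc bq T (bq (c z)) ≠ 0 →
        nb QQ inc bq (Nat.log 2 (mu QQ inc bq T (bq (c z)))) T ≠ 0 := by
      intro z hz T h0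
      have h1 : bq (c z) ∈ (QQ.image bq).filter fun B =>
          2 ^ (Nat.log 2 (mu QQ inc bq T (bq (c z)))) ≤ mu QQ inc bq T B ∧
            mu QQ inc bq T B < 2 ^ (Nat.log 2 (mu QQ inc bq T (bq (c z))) + 1) :=
        Finset.mem_filter.2 ⟨Finset.mem_image_of_mem _ (hc z hz),
          Nat.pow_log_le_self 2 h0, Nat.lt_pow_succ_log_self (by norm_num) _⟩
      exact (Finset.card_pos.2 ⟨_, h1⟩).ne'
    have hgJ : ∀ z ∈ X, ∀ W ∈ S.filter (fun W => ¬ mu QQ inc bq (tu W) (bq (c z)) = 0),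
        g z W ∈ J := by
      intro z hz W hW
      obtain ⟨-, h0⟩ := Finset.mem_filter.1 hW
      exact Finset.mem_product.2 ⟨(log_bounds (Nat.one_le_iff_ne_zero.2 h0) (hmu _ _)).1,
        (log_bounds (Nat.one_le_iff_ne_zero.2 (hnb1 z hz _ h0)) (hnb _ _)).1⟩
    have hfil : ∀ z ∈ X, ∀ p : ℕ × ℕ,
        (S.filter (fun W => ¬ mu QQ inc bq (tu W) (bq (c z)) = 0)).filter (fun W => g z W = p) =
          S.filter (fun W => shc QQ inc bq p.1 p.2 (tu W) (bq (c z))) := by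
      intro z hz p
      ext W
      simp only [Finset.mem_filter, shc_iff, hg, Prod.ext_iff]
      constructor
      · rintro ⟨⟨h1, h2⟩, h3, h4⟩
        refine ⟨h1, ⟨h2, h3⟩, ?_, ?_⟩
        · rw [← h3]
          exact hnb1 z hz _ h2
        · rw [← h3]
          exact h4
      · rintro ⟨h1, ⟨h2, h3⟩, h4, h5⟩
        refine ⟨⟨h1, h2⟩, h3, ?_⟩
        rw [h3]
        exact h5
    have hsum : ∀ z ∈ X, ∑ W ∈ S, f W z =
        ∑ W ∈ S.filter (fun W => mu QQ inc bq (tu W) (bq (c z)) = 0), f W z +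
        ∑ p ∈ J, ∑ W ∈ S.filter (fun W => shc QQ inc bq p.1 p.2 (tu W) (bq (c z))), f W z := by
      intro z hz
      rw [← Finset.sum_filter_add_sum_filter_not S
        (fun W => mu QQ inc bq (tu W) (bq (c z)) = 0) (fun W => f W z)]
      congr 1
      rw [← Finset.sum_fiberwise_of_maps_to (hgJ z hz) (fun W => f W z)]
      refine Finset.sum_congr rfl fun p _ => ?_
      rw [hfil z hz p]
    have hpt : ∀ z ∈ X, ∃ p ∈ J, H ≤ 2 * ((n : ℝ) + 1) ^ 2 *
        ‖∑ W ∈ S.filter (fun W => shc QQ inc bq p.1 p.2 (tu W) (bq (c z))), f W z‖ := by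
      intro z hz
      by_contra hcon
      push Not at hcon
      have h2 : ‖∑ W ∈ S.filter (fun W => mu QQ inc bq (tu W) (bq (c z)) = 0), f W z‖ ≤ H / 2 :=
        (norm_sum_le _ _).trans (hlow z hz)
      have h3 := hX z hz
      rw [hsum z hz] at h3
      have h4 := norm_add_le
        (∑ W ∈ S.filter (fun W => mu QQ inc bq (tu W) (bq (c z)) = 0), f W z)
        (∑ p ∈ J, ∑ W ∈ S.filter (fun W => shc QQ inc bq p.1 p.2 (tu W) (bq (c z))), f W z)
      have h5 : ‖∑ p ∈ J,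
          ∑ W ∈ S.filter (fun W => shc QQ inc bq p.1 p.2 (tu W) (bq (c z))), f W z‖ <
          H / 2 := by
        refine lt_of_le_of_lt (norm_sum_le _ _) ?_
        have h6 : ∀ p ∈ J, ‖∑ W ∈ S.filter
            (fun W => shc QQ inc bq p.1 p.2 (tu W) (bq (c z))), f W z‖ <
            H / (2 * ((n : ℝ) + 1) ^ 2) := by
          intro p hp
          rw [lt_div_iff₀ (by positivity)]
          linarith [hcon p hp]
        have hJne : J.Nonempty := ⟨(0, 0), by simp [hJ]⟩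
        refine (Finset.sum_lt_sum_of_nonempty hJne h6).trans_le ?_
        rw [Finset.sum_const, hJc, nsmul_eq_mul]
        push_cast
        refine le_of_eq ?_
        field_simp
      linarith
    choose! q hqJ hq using hpt
    obtain ⟨p, hpJ, hp⟩ := pop X J q hqJ ⟨(0, 0), by simp [hJ]⟩
    refine ⟨X.filter (fun z => q z = p), p.1, p.2, Finset.filter_subset _ _, ?_, ?_⟩
    · rw [← hJc]
      exact hp
    · intro z hz
      obtain ⟨hzX, hzp⟩ := Finset.mem_filter.1 hz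
      have := hq z hzX
      rw [hzp] at this
      exact this
  · intro l k T B h
    have h' := h
    obtain ⟨⟨h1, h2⟩, h3, h4⟩ := h'
    have e : ((QQ.image bq).filter fun B' => shc QQ inc bq l k T B').card = nb QQ inc bq l T := by
      unfold nb
      congr 1
      ext B'
      simp only [Finset.mem_filter, shc]
      constructor
      · rintro ⟨h5, h6, -⟩
        exact ⟨h5, h6⟩
      · rintro ⟨h5, h6⟩
        exact ⟨h5, h6, h3, h4⟩
    rw [e]
    exact ⟨⟨h1, h2⟩, h3, h4⟩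

end Pool.Agent.H22.G
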