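import Pool.Agent.H83.G.Targets4
import Pool.Agent.H22.G.PG

/-! Group I of Theorem G: the pigeonholes PG1, PG2, PG3, PG4 of `Pool.Agent.H83.G.Targets4`. -/

set_option autoImplicit false

namespace Pool.Agent.H22.G.B

open Pool.Agent.H83.G

theorem pf_PG4 : Pool.Agent.H83.G.T_PG4 := by
  classical
  intro β n X g hg
  by_cases hXe : X = ∅
  · subst hXe
    exact ⟨∅, 1, Finset.empty_subset _, le_rfl, by simp, by simp⟩
  obtain ⟨z₀, hz₀⟩ := Finset.nonempty_iff_ne_empty.2 hXe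
  have hJ : ∀ z ∈ X, Nat.log 2 (g z) ∈ Finset.range n := fun z hz =>
    Finset.mem_range.2 (Nat.log_lt_of_lt_pow (by have := (hg z hz).1; omega) (hg z hz).2)
  obtain ⟨j, -, hj⟩ := pop X (Finset.range n) (fun z => Nat.log 2 (g z)) hJ ⟨_, hJ z₀ hz₀⟩
  rw [Finset.card_range] at hj
  refine ⟨X.filter fun z => Nat.log 2 (g z) = j, 2 ^ j, Finset.filter_subset _ _,
    Nat.one_le_two_pow, hj, ?_⟩
  intro z hz
  obtain ⟨hzX, hzj⟩ := Finset.mem_filter.1 hz
  have h := (log_bounds (hg z hzX).1 (hg z hzX).2.le).2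
  rw [hzj, pow_succ] at h
  exact ⟨h.1, by linarith [h.2]⟩

theorem pf_PG2 : Pool.Agent.H83.G.T_PG2 := by
  classical
  intro β ι n X c hn
  obtain ⟨X', ν, h1, h2, h3, h4⟩ := Pool.Agent.H22.G.pf_PG2 β ι X c n hn
  refine ⟨X', ν, h1, h2, h3, fun z hz => ?_, fun q => ?_⟩
  · have h := (h4 z hz).1
    exact h
  · by_cases hq : ∃ z ∈ X', c z = q
    · obtain ⟨z, hz, rfl⟩ := hq
      exact (h4 z hz).2.le
    · have h5 : (X'.filter fun z' => c z' = q) = ∅ := by
        rw [Finset.filter_eq_empty_iff]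
        intro z hz he
        exact hq ⟨z, hz, he⟩
      rw [h5, Finset.card_empty]
      exact Nat.zero_le _

theorem pf_PG1 : Pool.Agent.H83.G.T_PG1 := by
  classical
  intro α β τ n S X f al tu a₀ H ha₀ hH hn1 hS hal hlow0 hX
  have hlow : ∀ z ∈ X, ∑ W ∈ S.filter (fun W => al W ≤ a₀), ‖f W z‖ ≤ H / 2 := fun z hz =>
    hlow0 z hz _ (Finset.filter_subset _ _) fun W hW => (Finset.mem_filter.1 hW).2
  by_cases hXe : X = ∅
  · subst hXe
    exact ⟨∅, ∅, a₀, 1, Finset.empty_subset _, Finset.empty_subset _, le_rfl, le_rfl, by simp,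
      by simp, by simp, by simp⟩
  set S1 := S.filter fun W => ¬ al W ≤ a₀ with hS1
  have hi : ∀ W ∈ S1, ∃ i, i < n ∧ 2 ^ i * a₀ < al W ∧ al W ≤ 2 * (2 ^ i * a₀) := by
    intro W hW
    obtain ⟨h1, h2⟩ := Finset.mem_filter.1 hW
    exact idx (not_le.1 h2) (hal W h1)
  choose! i hi using hi
  set cnt : α → ℕ := fun W => (S1.filter fun W' => i W' = i W ∧ tu W' = tu W).card with hcnt
  have hc : ∀ W ∈ S1, 1 ≤ cnt W ∧ cnt W ≤ 2 ^ n := fun W hW =>
    ⟨Finset.card_pos.2 ⟨W, Finset.mem_filter.2 ⟨hW, rfl, rfl⟩⟩,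
      ((Finset.card_filter_le _ _).trans (Finset.card_filter_le _ _)).trans hS⟩
  set g : α → ℕ × ℕ := fun W => (i W, Nat.log 2 (cnt W)) with hg
  set J : Finset (ℕ × ℕ) := Finset.range n ×ˢ Finset.range (n + 1) with hJ
  have hgJ : ∀ W ∈ S1, g W ∈ J := fun W hW => Finset.mem_product.2
    ⟨Finset.mem_range.2 (hi W hW).1, (log_bounds (hc W hW).1 (hc W hW).2).1⟩
  have hJc : J.card = n * (n + 1) := by
    rw [hJ, Finset.card_product, Finset.card_range, Finset.card_range]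
  have hJne : J.Nonempty := Finset.card_pos.1 (by rw [hJc]; positivity)
  have hnr : (1 : ℝ) ≤ n := by exact_mod_cast hn1
  have hsum : ∀ z, ∑ W ∈ S, f W z = ∑ W ∈ S.filter (fun W => al W ≤ a₀), f W z +
      ∑ p ∈ J, ∑ W ∈ S1.filter (fun W => g W = p), f W z := by
    intro z
    rw [Finset.sum_fiberwise_of_maps_to hgJ (fun W => f W z),
      Finset.sum_filter_add_sum_filter_not]
  have hpt : ∀ z ∈ X, ∃ p ∈ J,
      H ≤ 4 * (n : ℝ) ^ 2 * ‖∑ W ∈ S1.filter (fun W => g W = p), f W z‖ := by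
    intro z hz
    by_contra hcon
    push Not at hcon
    have h1 : ‖∑ p ∈ J, ∑ W ∈ S1.filter (fun W => g W = p), f W z‖ < H / 2 := by
      refine lt_of_le_of_lt (norm_sum_le _ _) ?_
      have h2 : ∀ p ∈ J, ‖∑ W ∈ S1.filter (fun W => g W = p), f W z‖ <
          H / (4 * (n : ℝ) ^ 2) := by
        intro p hp
        rw [lt_div_iff₀ (by positivity)]
        linarith [hcon p hp]
      refine (Finset.sum_lt_sum_of_nonempty hJne h2).trans_le ?_
      rw [Finset.sum_const, hJc, nsmul_eq_mul]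
      push_cast
      have h3 : (n : ℝ) * (n + 1) ≤ 2 * (n : ℝ) ^ 2 := by nlinarith
      calc (n : ℝ) * (n + 1) * (H / (4 * (n : ℝ) ^ 2)) ≤
          2 * (n : ℝ) ^ 2 * (H / (4 * (n : ℝ) ^ 2)) :=
            mul_le_mul_of_nonneg_right h3 (by positivity)
        _ = H / 2 := by
          have : (n : ℝ) ≠ 0 := by positivity
          field_simp
          ring
    have h2 : ‖∑ W ∈ S.filter (fun W => al W ≤ a₀), f W z‖ ≤ H / 2 :=
      (norm_sum_le _ _).trans (hlow z hz)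
    have h3 := hX z hz
    rw [hsum z] at h3
    have h4 := norm_add_le (∑ W ∈ S.filter (fun W => al W ≤ a₀), f W z)
      (∑ p ∈ J, ∑ W ∈ S1.filter (fun W => g W = p), f W z)
    linarith
  choose! q hqJ hq using hpt
  obtain ⟨p, hpJ, hp⟩ := pop X J q hqJ hJne
  refine ⟨S1.filter (fun W => g W = p), X.filter (fun z => q z = p), 2 ^ p.1 * a₀, 2 ^ p.2,
    (Finset.filter_subset _ _).trans (Finset.filter_subset _ _), Finset.filter_subset _ _, ?_,
    Nat.one_le_two_pow, ?_, ?_, ?_, ?_⟩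
  · have h1 : (1 : ℝ) ≤ 2 ^ p.1 := one_le_pow₀ (by norm_num)
    nlinarith
  · have h1 : X.card ≤ n * (n + 1) * (X.filter (fun z => q z = p)).card := by
      rw [← hJc]
      exact hp
    refine h1.trans (Nat.mul_le_mul_right _ ?_)
    nlinarith
  · intro z hz
    obtain ⟨hzX, hzp⟩ := Finset.mem_filter.1 hz
    have := hq z hzX
    rw [hzp] at this
    exact this
  · intro W hW
    obtain ⟨hW1, hWp⟩ := Finset.mem_filter.1 hW
    have h1 := hi W hW1
    have h2 : i W = p.1 := congrArg Prod.fst hWp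
    rw [h2] at h1
    exact ⟨h1.2.1.le, h1.2.2⟩
  · intro W hW
    obtain ⟨hW1, hWp⟩ := Finset.mem_filter.1 hW
    have e : ((S1.filter (fun W => g W = p)).filter fun W' => tu W' = tu W) =
        S1.filter fun W' => i W' = i W ∧ tu W' = tu W := by
      ext W'
      simp only [Finset.mem_filter]
      constructor
      · rintro ⟨⟨h1, h2⟩, h3⟩
        refine ⟨h1, ?_, h3⟩
        have h4 : i W' = p.1 := congrArg Prod.fst h2
        have h5 : i W = p.1 := congrArg Prod.fst hWp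
        rw [h4, h5]
      · rintro ⟨h1, h2, h3⟩
        refine ⟨⟨h1, ?_⟩, h3⟩
        have h4 : cnt W' = cnt W := by simp only [hcnt, h2, h3]
        rw [← hWp]
        simp only [hg, h2, h4]
    rw [e]
    have h2 := (log_bounds (hc W hW1).1 (hc W hW1).2).2
    have h3 : (g W).2 = p.2 := congrArg Prod.snd hWp
    have h3' : Nat.log 2 (cnt W) = p.2 := h3
    rw [h3', pow_succ] at h2
    have h5 : cnt W ≤ 2 * 2 ^ p.2 := by omega
    exact ⟨h2.1, h5⟩

section

variable {m : ℕ}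

theorem mu_eq (QQ : Finset (Zi m)) (R r δ : ℝ) (T : Pk m) (B : Zi m) :
    Pool.Agent.H83.G.mu QQ R r δ T B = Pool.Agent.H22.G.mu QQ (Inc R δ) (bl R r) T B := by
  unfold Pool.Agent.H83.G.mu Pool.Agent.H22.G.mu
  congr 1
  ext q
  simp only [Finset.mem_filter]

theorem nB_eq (QQ : Finset (Zi m)) (R r δ : ℝ) (l : ℕ) (T : Pk m) :
    nB QQ R r δ l T = nb QQ (Inc R δ) (bl R r) l T := by
  unfold nB nb
  congr 1
  ext B
  simp only [Finset.mem_filter, Finset.mem_image, mu_eq]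

theorem Sh_iff (QQ : Finset (Zi m)) (R r δ : ℝ) (l k : ℕ) (T : Pk m) (B : Zi m) :
    Sh QQ R r δ l k T B ↔ shc QQ (Inc R δ) (bl R r) l k T B := by
  unfold Sh shc
  rw [mu_eq, nB_eq]
  tauto

end

theorem mu_ne {τ κ ι : Type} (QQ : Finset κ) (inc : τ → κ → Prop) (bq : κ → ι) (T : τ) {q : κ}
    (hq : q ∈ QQ) (h : inc T q) : Pool.Agent.H22.G.mu QQ inc bq T (bq q) ≠ 0 := by
  classical
  unfold Pool.Agent.H22.G.mu
  exact Finset.card_ne_zero.2 ⟨q, Finset.mem_filter.2 ⟨hq, rfl, h⟩⟩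

theorem pf_PG3 : Pool.Agent.H83.G.T_PG3 := by
  classical
  intro m n R r δ H QQ S X f hH hQ hc hlow hX
  obtain ⟨⟨X', l, k, h1, h2, h3⟩, -⟩ := Pool.Agent.H22.G.pf_PG3 (Pk m) (Z m) (Pk m) (Zi m) (Zi m)
    S f (tb R) X (cb (Real.sqrt R)) QQ (Inc R δ) (bl R r) n H hH hQ hc (by
      intro z hz
      refine hlow z hz _ (Finset.filter_subset _ _) fun W hW => ?_
      obtain ⟨hWS, hW0⟩ := Finset.mem_filter.1 hW
      intro hinc
      exact mu_ne QQ (Inc R δ) (bl R r) (tb R W) (hc z hz) hinc hW0) hX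
  refine ⟨l, k, X', h1, h2, fun z hz => ?_⟩
  have h6 := h3 z hz
  have h7 : SB QQ R r δ l k S (bl R r (cb (Real.sqrt R) z)) =
      S.filter fun W => shc QQ (Inc R δ) (bl R r) l k (tb R W)
        (bl R r (cb (Real.sqrt R) z)) := by
    unfold SB
    ext W
    simp only [Finset.mem_filter, Sh_iff]
  rw [h7]
  exact h6

end Pool.Agent.H22.G.B
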