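import Pool.Agent.H83.G.Defs

/-!
Theorem G (MP_ee74d2_an): targets of group H (geometry of tubes and planks, combinatorics,
pigeonholes, the final linear programme).
-/

set_option autoImplicit false

namespace Pool.Agent.H22.G

open Pool.Agent.H83.G
open scoped RealInnerProductSpace

/-- the corner of a cube of side `R^{1/2}` -/
noncomputable def co {m : ℕ} (R : ℝ) (q : Zi m) : Z m := Real.sqrt R • zc q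

/-- HG1: two cubes on the same tube -/
def T_HG1 : Prop := ∀ m : ℕ, ∃ C : ℝ, 1 ≤ C ∧ ∀ (R δ : ℝ) (T : Pk m) (q q' : Zi m),
  1 ≤ R → 0 ≤ δ → ‖ctr (sR R) T.1‖ ≤ 3 → Inc R δ T q → Inc R δ T q' →
  |(Lo (ctr (sR R) T.1) 1 (co R q - co R q')).1| ≤ C * R ^ (1 / 2 + 2 * δ) ∧
  ‖(Lo (ctr (sR R) T.1) 1 (co R q - co R q')).2.1‖ ≤ C * R ^ (1 / 2 + 2 * δ)

/-- HG2: planks of a given cap near a point, tubes of a given cap at a cube -/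
def T_HG2 : Prop := ∀ m : ℕ, ∃ C : ℝ, 1 ≤ C ∧ ∀ (R δ : ℝ), 1 ≤ R → 0 ≤ δ →
  (∀ (k : Fin m → ℤ) (z : Z m) (S : Finset (Pk m)), (∀ W ∈ S, W.1 = k ∧ near R δ W z) →
    (S.card : ℝ) ≤ C * R ^ (((m : ℝ) + 2) * δ)) ∧
  (∀ (k : Fin m → ℤ) (q : Zi m) (TT : Finset (Pk m)), ‖ctr (sR R) k‖ ≤ 3 →
    (∀ T ∈ TT, T.1 = k ∧ Inc R δ T q) → (TT.card : ℝ) ≤ C * R ^ (((m : ℝ) + 2) * δ))

open Classical in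
/-- MU: the cubes on a tube -/
def T_MU : Prop := ∀ m : ℕ, ∃ C : ℝ, 1 ≤ C ∧ ∀ (R δ M : ℝ) (z₀ : Z m) (TT : Finset (Pk m))
  (Q : Finset (Zi m)) (P : Pk m → Zi m → Prop), 1 ≤ R → 0 ≤ δ →
  (∀ T ∈ TT, ‖ctr (sR R) T.1‖ ≤ 3) → (∀ q ∈ Q, ‖co R q - z₀‖ ≤ ((m : ℝ) + 2) * R) →
  (∀ q ∈ Q, M ≤ ((TT.filter fun T => Inc R δ T q ∧ P T q).card : ℝ)) →
  (Q.card : ℝ) * M ≤ C * R ^ (1 / 2 + 2 * ((m : ℝ) + 1) * δ) * (TT.card : ℝ)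

open Classical in
/-- HB: the hairbrush inequality -/
def T_HB : Prop := ∀ (m : ℕ) (K : ℝ), 1 ≤ K → ∃ C : ℝ, 1 ≤ C ∧
  ∀ (R δ ε₀ Λ Mi Mj : ℝ) (z₀ : Z m) (TTi TTj : Finset (Pk m)) (QQ Q4 : Finset (Zi m))
    (Pi Pj : Pk m → Zi m → Prop) (k l : ℕ), 1 ≤ R → 0 ≤ δ → 0 ≤ ε₀ → 2 * δ + ε₀ ≤ 1 / 2 →
  0 ≤ Λ → 0 ≤ Mi → 0 ≤ Mj →
  (∀ T ∈ TTi, ‖ctr (sR R) T.1‖ ≤ 3) → (∀ T ∈ TTj, ‖ctr (sR R) T.1‖ ≤ 3) →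
  (∀ T ∈ TTi, ∀ T' ∈ TTj, 1 / K ≤ ‖ctr (sR R) T.1 - ctr (sR R) T'.1‖) →
  (∀ q ∈ QQ, ‖co R q - z₀‖ ≤ ((m : ℝ) + 2) * R) → Q4 ⊆ QQ →
  (QQ.card : ℝ) ≤ Λ * (Q4.card : ℝ) →
  (∀ q ∈ Q4, Mi ≤ ((TTi.filter fun T => Inc R δ T q ∧ Pi T (bl R (R ^ (1 - ε₀)) q)).card : ℝ)) →
  (∀ q ∈ Q4, Mj ≤ ((TTj.filter fun T => Inc R δ T q ∧ Pj T (bl R (R ^ (1 - ε₀)) q)).card : ℝ)) →
  (∀ T ∈ TTj, ∀ B : Zi m, Pj T B →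
    2 ^ l ≤ (QQ.filter fun q => bl R (R ^ (1 - ε₀)) q = B ∧ Inc R δ T q).card ∧
    (QQ.filter fun q => bl R (R ^ (1 - ε₀)) q = B ∧ Inc R δ T q).card < 2 ^ (l + 1)) →
  (∀ T ∈ TTj, ∀ B : Zi m, Pj T B →
    2 ^ k ≤ ((QQ.image (bl R (R ^ (1 - ε₀)))).filter fun B' => Pj T B').card ∧
    ((QQ.image (bl R (R ^ (1 - ε₀)))).filter fun B' => Pj T B').card < 2 ^ (k + 1)) →
  C ≤ (2 : ℝ) ^ k →
  (Q4.card : ℝ) * Mi * Mj ^ 2 ≤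
    C * Λ * R ^ (6 * ((m : ℝ) + 2) * (δ + ε₀)) * (TTi.card : ℝ) * (TTj.card : ℝ)

open Classical in
/-- LW: three transversal families of planks in a cube -/
def T_LW : Prop := ∀ (m : ℕ) (K : ℝ), 1 ≤ m → 1 ≤ K → ∃ C : ℝ, 1 ≤ C ∧
  ∀ (R δ : ℝ) (p : Z m) (X : Finset (Z m)) (S : Fin 3 → Finset (Pk m)) (M₁ : Fin 3 → ℝ),
  1 ≤ R → 0 ≤ δ → Sep X → (∀ z ∈ X, ‖z - p‖ ≤ ((m : ℝ) + 1) * R ^ (1 / 2 : ℝ)) →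
  (∀ i, ∀ W ∈ S i, ‖ctr (sR R) W.1‖ ≤ 3) →
  (∀ i j, i ≠ j → ∀ W ∈ S i, ∀ W' ∈ S j, 1 / K ≤ ‖ctr (sR R) W.1 - ctr (sR R) W'.1‖) →
  (∀ i, 0 ≤ M₁ i) →
  (∀ z ∈ X, ∀ i, M₁ i ≤ (((S i).filter fun W => near R δ W z).card : ℝ)) →
  (X.card : ℝ) * (M₁ 0 * M₁ 1 * M₁ 2) ≤ C * R ^ (((m : ℝ) - 1) / 2 + 6 * δ) *
    (((S 0).card : ℝ) * ((S 1).card : ℝ) * ((S 2).card : ℝ))

/-- ALG: the final linear programme -/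
def T_ALG : Prop := ∀ (m : ℕ), 4 ≤ m → ∀ (N H q E A L R : ℝ) (M1 M t b a : Fin 3 → ℝ),
  0 < N → 0 < H → 0 < q → 0 < E → 0 < A → 1 ≤ L → 1 ≤ R →
  (∀ i, 0 < M1 i) → (∀ i, 0 < M i) → (∀ i, 0 < t i) → (∀ i, 0 < b i) → (∀ i, 0 < a i) →
  (∀ i, t i * b i * a i ^ 2 * R ^ ((m : ℝ) / 2) ≤ L * E) →
  E ≤ L * A ^ 2 * R ^ ((m : ℝ) + 1) →
  (∀ i, q * M i ≤ L * t i * R ^ (1 / 2 : ℝ)) →
  (∀ i j, i ≠ j → q * M i * M j ^ 2 ≤ L * t i * t j) →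
  N * (M1 0 * M1 1 * M1 2) ≤
    L * q * ((M 0 * b 0) * (M 1 * b 1) * (M 2 * b 2)) * R ^ (((m : ℝ) - 1) / 2) →
  (∀ i, N * H ^ 2 ≤ L * q * M i * b i * a i ^ 2 * R ^ (((m : ℝ) + 1) / 2)) →
  (∀ i, N * H ^ (2 * ((m : ℝ) + 2) / m) ≤
    L * M1 i ^ (2 / (m : ℝ)) * a i ^ (2 * ((m : ℝ) + 2) / m) * t i * b i *
      R ^ (((m : ℝ) + 2) / 2)) →
  (∀ i, M1 i ≤ L * M i) → (∀ i, a i ≤ L * A) →
  N * H ^ (2 + 8 / (3 * (m : ℝ))) ≤ L ^ 3 * A ^ (8 / (3 * (m : ℝ))) * R ^ (4 / 3 : ℝ) * E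

open Classical in
/-- PG1: dyadic amplitudes, dyadic number of planks in a tube -/
def T_PG1 : Prop := ∀ (α β τ : Type) (S : Finset α) (f : α → β → ℂ) (al : α → ℝ) (tu : α → τ)
  (X : Finset β) (n : ℕ) (a₀ H : ℝ), 0 < a₀ → 0 < H → S.card ≤ 2 ^ n →
  (∀ W ∈ S, al W ≤ 2 ^ n * a₀) →
  (∀ z ∈ X, ∑ W ∈ S.filter (fun W => al W ≤ a₀), ‖f W z‖ ≤ H / 2) →
  (∀ z ∈ X, H ≤ ‖∑ W ∈ S, f W z‖) →
  ∃ (S' : Finset α) (X' : Finset β) (a : ℝ) (b : ℕ), S' ⊆ S ∧ X' ⊆ X ∧ a₀ ≤ a ∧ 1 ≤ b ∧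
    X.card ≤ 4 * n ^ 2 * X'.card ∧
    (∀ z ∈ X', H ≤ 4 * ((n : ℝ) + 1) ^ 2 * ‖∑ W ∈ S', f W z‖) ∧
    (∀ W ∈ S', a ≤ al W ∧ al W ≤ 2 * a) ∧
    ∀ W ∈ S', b ≤ (S'.filter fun W' => tu W' = tu W).card ∧
      (S'.filter fun W' => tu W' = tu W).card ≤ 2 * b

open Classical in
/-- PG2: dyadic number of points in a cube -/
def T_PG2 : Prop := ∀ (β κ : Type) (X : Finset β) (c : β → κ) (n : ℕ), X.card ≤ 2 ^ n →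
  ∃ (X' : Finset β) (ν : ℕ), X' ⊆ X ∧ 1 ≤ ν ∧ X.card ≤ (n + 1) * X'.card ∧
    ∀ z ∈ X', ν ≤ (X'.filter fun z' => c z' = c z).card ∧
      (X'.filter fun z' => c z' = c z).card < 2 * ν

open Classical in
/-- the number of the cubes of `QQ` in the ball `B` on the tube `T` -/
noncomputable def mu {τ κ ι : Type} (QQ : Finset κ) (inc : τ → κ → Prop) (bq : κ → ι) (T : τ)
    (B : ι) : ℕ := (QQ.filter fun q => bq q = B ∧ inc T q).card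

open Classical in
/-- the number of the balls with about `2^l` cubes on the tube `T` -/
noncomputable def nb {τ κ ι : Type} (QQ : Finset κ) (inc : τ → κ → Prop) (bq : κ → ι) (l : ℕ)
    (T : τ) : ℕ :=
  ((QQ.image bq).filter fun B => 2 ^ l ≤ mu QQ inc bq T B ∧ mu QQ inc bq T B < 2 ^ (l + 1)).card

/-- the shading class `(l,k)` -/
def shc {τ κ ι : Type} (QQ : Finset κ) (inc : τ → κ → Prop) (bq : κ → ι) (l k : ℕ) (T : τ)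
    (B : ι) : Prop :=
  (2 ^ l ≤ mu QQ inc bq T B ∧ mu QQ inc bq T B < 2 ^ (l + 1)) ∧
    2 ^ k ≤ nb QQ inc bq l T ∧ nb QQ inc bq l T < 2 ^ (k + 1)

open Classical in
/-- PG3: shading classes; the last two statements are the hypotheses of HB for `Pj = shc ..` -/
def T_PG3 : Prop := ∀ (α β τ κ ι : Type) (S : Finset α) (f : α → β → ℂ) (tu : α → τ)
  (X : Finset β) (c : β → κ) (QQ : Finset κ) (inc : τ → κ → Prop) (bq : κ → ι) (n : ℕ) (H : ℝ),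
  0 < H → QQ.card ≤ 2 ^ n → (∀ z ∈ X, c z ∈ QQ) →
  (∀ z ∈ X, ∑ W ∈ S.filter (fun W => mu QQ inc bq (tu W) (bq (c z)) = 0), ‖f W z‖ ≤ H / 2) →
  (∀ z ∈ X, H ≤ ‖∑ W ∈ S, f W z‖) →
  (∃ (X' : Finset β) (l k : ℕ), X' ⊆ X ∧ X.card ≤ (n + 1) ^ 2 * X'.card ∧
    ∀ z ∈ X', H ≤ 2 * ((n : ℝ) + 1) ^ 2 *
      ‖∑ W ∈ S.filter (fun W => shc QQ inc bq l k (tu W) (bq (c z))), f W z‖) ∧
  ∀ (l k : ℕ) (T : τ) (B : ι), shc QQ inc bq l k T B →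
    (2 ^ l ≤ (QQ.filter fun q => bq q = B ∧ inc T q).card ∧
      (QQ.filter fun q => bq q = B ∧ inc T q).card < 2 ^ (l + 1)) ∧
    2 ^ k ≤ ((QQ.image bq).filter fun B' => shc QQ inc bq l k T B').card ∧
    ((QQ.image bq).filter fun B' => shc QQ inc bq l k T B').card < 2 ^ (k + 1)

/-- PG4: dyadic values -/
def T_PG4 : Prop := ∀ (β : Type) (X : Finset β) (v : β → ℕ) (n : ℕ),
  (∀ z ∈ X, 1 ≤ v z ∧ v z ≤ 2 ^ n) →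
  ∃ (X' : Finset β) (a : ℕ), X' ⊆ X ∧ 1 ≤ a ∧ X.card ≤ (n + 1) * X'.card ∧
    ∀ z ∈ X', a ≤ v z ∧ v z < 2 * a

end Pool.Agent.H22.G
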